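import Mathlib

open Set Filter Topology

namespace Pool.Agent.H88

theorem countable_eventually_eq {E : ℕ → Type} [∀ n, Countable (E n)] (x : ∀ n, E n) :
    {y : ∀ n, E n | ∀ᶠ n in atTop, y n = x n}.Countable := by
  classical
  have : {y : ∀ n, E n | ∀ᶠ n in atTop, y n = x n} ⊆
      range (fun p : (Σ k : ℕ, ∀ n : Fin k, E n) => fun n => if h : n < p.1 then p.2 ⟨n, h⟩ else x n) := by
    intro y hy
    obtain ⟨k, hk⟩ := eventually_atTop.1 hy
    refine ⟨⟨k, fun n => y n⟩, ?_⟩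
    funext n
    by_cases h : n < k
    · simp [h]
    · simp only [h, dite_false]
      exact (hk n (not_lt.1 h)).symm
  exact (countable_range _).mono this

theorem countable_of_scale {E : ℕ → Type} [∀ n, TopologicalSpace (E n)]
    [∀ n, DiscreteTopology (E n)] [∀ n, Countable (E n)] [∀ n, LinearOrder (E n)]
    (H : Set (∀ n, E n)) (hH : IsClosed H) (r : (∀ n, E n) → Ordinal.{0})
    (h1 : ∀ x ∈ H, ∀ y ∈ H, r x < r y → ∀ᶠ n in atTop, x n < y n)
    (h2 : ∀ x ∈ H, ∀ y ∈ H, r x = r y → ∀ᶠ n in atTop, y n = x n) : H.Countable := by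
  by_contra hunc
  let R : Set Ordinal.{0} := {ρ | ∃ C ⊆ H, IsClosed C ∧ ¬ C.Countable ∧ ∀ x ∈ C, r x ≤ ρ}
  have hR : R.Nonempty := ⟨⨆ x, r x, H, Subset.rfl, hH, hunc, fun x _ => Ordinal.le_iSup r x⟩
  obtain ⟨C, hCH, hC, hCunc, hCr⟩ := csInf_mem hR
  set ρ := sInf R with hρ
  have hmin : ∀ η, η < ρ → ∀ D ⊆ H, IsClosed D → (∀ x ∈ D, r x ≤ η) → D.Countable := by
    intro η hη D hD1 hD2 hD3
    by_contra hD4
    exact absurd (csInf_le' (show η ∈ R from ⟨D, hD1, hD2, hD4, hD3⟩)) (not_le.2 hη)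
  -- initial segments are countable
  have hcoord : ∀ n (s : Set (E n × E n)), IsClosed s := fun n s => isClosed_discrete s
  have hseg : ∀ x ∈ C, r x < ρ → {y | y ∈ C ∧ ∀ᶠ n in atTop, y n ≤ x n}.Countable := by
    intro x hx hxr
    have : {y | y ∈ C ∧ ∀ᶠ n in atTop, y n ≤ x n} ⊆
        ⋃ k : ℕ, {y | y ∈ C ∧ ∀ n, k ≤ n → y n ≤ x n} := by
      rintro y ⟨hy1, hy2⟩
      obtain ⟨k, hk⟩ := eventually_atTop.1 hy2
      exact mem_iUnion.2 ⟨k, hy1, hk⟩
    refine (countable_iUnion fun k => ?_).mono this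
    apply hmin (r x) hxr _ (fun y hy => hCH hy.1)
    · have e : {y | y ∈ C ∧ ∀ n, k ≤ n → y n ≤ x n} =
          C ∩ ⋂ n : ℕ, ⋂ _ : k ≤ n, {y | y n ≤ x n} := by
        ext y; simp
      rw [e]
      refine hC.inter (isClosed_iInter fun n => isClosed_iInter fun _ => ?_)
      exact (isClosed_discrete {a : E n | a ≤ x n}).preimage (continuous_apply n)
    · rintro y ⟨hy1, hy2⟩
      by_contra hlt
      rw [not_le] at hlt
      have h3 := h1 x (hCH hx) y (hCH hy1) hlt
      obtain ⟨m, hm1, hm2⟩ := (h3.and (eventually_ge_atTop k)).exists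
      exact absurd (hy2 m hm2) (not_le.2 hm1)
  have hexc : {y | y ∈ C ∧ r y = ρ}.Countable := by
    by_cases hne : ∃ y, y ∈ C ∧ r y = ρ
    · obtain ⟨y, hy1, hy2⟩ := hne
      refine (countable_eventually_eq y).mono ?_
      rintro z ⟨hz1, hz2⟩
      exact h2 y (hCH hy1) z (hCH hz1) (by rw [hy2, hz2])
    · have : {y | y ∈ C ∧ r y = ρ} = ∅ := by
        ext y; constructor
        · intro hy; exact hne ⟨y, hy⟩
        · intro hy; exact hy.elim
      rw [this]; exact countable_empty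
  -- perfect part
  obtain ⟨P, hP, hPne, hPC⟩ := exists_perfect_nonempty_of_isClosed_of_not_countable hC hCunc
  have hpol : PolishSpace P := hP.closed.polishSpace
  have hPne' : Nonempty P := hPne.to_subtype
  have hiso : ∀ x : P, ¬ IsOpen ({x} : Set P) := by
    intro x hx
    rw [isOpen_induced_iff] at hx
    obtain ⟨O, hO, hOx⟩ := hx
    have hxO : x.1 ∈ O := by
      have : x ∈ Subtype.val ⁻¹' O := by rw [hOx]; rfl
      exact this
    obtain ⟨y, ⟨hyO, hyP⟩, hne⟩ := preperfect_iff_nhds.1 hP.acc x.1 x.2 O (hO.mem_nhds hxO)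
    have : (⟨y, hyP⟩ : P) ∈ ({x} : Set P) := by rw [← hOx]; exact hyO
    exact hne (congrArg Subtype.val this)
  have hopen : ∀ U : Set P, IsOpen U → U.Nonempty → ¬ U.Countable := by
    intro U hU hUne hUc
    have hd : Dense (⋂ x ∈ U, ({x}ᶜ : Set P)) := by
      apply dense_biInter_of_isOpen
      · intro x _; exact isOpen_compl_singleton
      · exact hUc
      · intro x _; exact dense_compl_singleton_iff_not_open.2 (hiso x)
    obtain ⟨y, hyU, hy⟩ := hd.inter_open_nonempty U hU hUne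
    have := mem_iInter₂.1 hy y hyU
    exact this rfl
  -- Baire category on the square
  let Ek : Bool × ℕ → Set (P × P) := fun q =>
    match q with
    | (true, k) => {z | ∀ n, k ≤ n → z.1.1 n ≤ z.2.1 n}
    | (false, k) => {z | ∀ n, k ≤ n → z.2.1 n ≤ z.1.1 n}
  have hEc : ∀ q, IsClosed (Ek q) := by
    rintro ⟨b, k⟩
    have hc1 : ∀ n, Continuous fun z : P × P => (z.1.1 n, z.2.1 n) := fun n =>
      ((continuous_apply n).comp (continuous_subtype_val.comp continuous_fst)).prodMk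
        ((continuous_apply n).comp (continuous_subtype_val.comp continuous_snd))
    cases b with
    | true =>
      have e : Ek (true, k) = ⋂ n : ℕ, ⋂ _ : k ≤ n, {z | z.1.1 n ≤ z.2.1 n} := by
        ext y; simp [Ek]
      rw [e]
      exact isClosed_iInter fun n => isClosed_iInter fun _ =>
        (hcoord n {p | p.1 ≤ p.2}).preimage (hc1 n)
    | false =>
      have e : Ek (false, k) = ⋂ n : ℕ, ⋂ _ : k ≤ n, {z | z.2.1 n ≤ z.1.1 n} := by
        ext y; simp [Ek]
      rw [e]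
      exact isClosed_iInter fun n => isClosed_iInter fun _ =>
        (hcoord n {p | p.2 ≤ p.1}).preimage (hc1 n)
  have hEu : ⋃ q, Ek q = univ := by
    rw [iUnion_eq_univ_iff]
    rintro ⟨x, y⟩
    rcases lt_trichotomy (r x.1) (r y.1) with h | h | h
    · obtain ⟨k, hk⟩ := eventually_atTop.1 (h1 x.1 (hCH (hPC x.2)) y.1 (hCH (hPC y.2)) h)
      exact ⟨(true, k), fun n hn => (hk n hn).le⟩
    · obtain ⟨k, hk⟩ := eventually_atTop.1 (h2 x.1 (hCH (hPC x.2)) y.1 (hCH (hPC y.2)) h)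
      exact ⟨(true, k), fun n hn => (hk n hn).ge⟩
    · obtain ⟨k, hk⟩ := eventually_atTop.1 (h1 y.1 (hCH (hPC y.2)) x.1 (hCH (hPC x.2)) h)
      exact ⟨(false, k), fun n hn => (hk n hn).le⟩
  obtain ⟨⟨b, k⟩, ⟨z, hz⟩⟩ := nonempty_interior_of_iUnion_of_closed hEc hEu
  rw [mem_interior] at hz
  obtain ⟨O, hOE, hO, hzO⟩ := hz
  obtain ⟨U, V, hU, hV, hzU, hzV, hUV⟩ := isOpen_prod_iff.1 hO z.1 z.2 hzO
  have hpick : ∀ U : Set P, IsOpen U → U.Nonempty → ∃ x ∈ U, r x.1 < ρ := by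
    intro U hU hUne
    by_contra hcon
    push Not at hcon
    apply hopen U hU hUne
    have : (Subtype.val '' U).Countable := by
      refine hexc.mono ?_
      rintro _ ⟨x, hx, rfl⟩
      exact ⟨hPC x.2, le_antisymm (hCr _ (hPC x.2)) (hcon x hx)⟩
    exact countable_of_injective_of_countable_image Subtype.val_injective.injOn this
  have hfin : ∀ (U : Set P) (x : P), IsOpen U → U.Nonempty → r x.1 < ρ →
      (∀ y ∈ U, ∀ n, k ≤ n → y.1 n ≤ x.1 n) → False := by
    intro U x hU hUne hxr hle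
    apply hopen U hU hUne
    have : (Subtype.val '' U).Countable := by
      refine (hseg x.1 (hPC x.2) hxr).mono ?_
      rintro _ ⟨y, hy, rfl⟩
      exact ⟨hPC y.2, eventually_atTop.2 ⟨k, fun n hn => hle y hy n hn⟩⟩
    exact countable_of_injective_of_countable_image Subtype.val_injective.injOn this
  cases b with
  | true =>
    obtain ⟨x, hxV, hxr⟩ := hpick V hV ⟨_, hzV⟩
    exact hfin U x hU ⟨_, hzU⟩ hxr fun y hy n hn => hOE (hUV (show (y, x) ∈ U ×ˢ V from ⟨hy, hxV⟩)) n hn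
  | false =>
    obtain ⟨x, hxU, hxr⟩ := hpick U hU ⟨_, hzU⟩
    exact hfin V x hV ⟨_, hzV⟩ hxr fun y hy n hn => hOE (hUV (show (x, y) ∈ U ×ˢ V from ⟨hxU, hy⟩)) n hn

end Pool.Agent.H88
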