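import Mathlib

open Cardinal Set

namespace Pool.Agent.H88

universe u

/-- The arities used in the closure argument. -/
abbrev Arity : Option (Set ℕ × Set ℕ) → Type
  | none => PEmpty
  | some _ => ℕ

theorem card_wtype_le : #(WType Arity) ≤ 𝔠 := by
  apply WType.cardinalMk_le_of_le
  have h1 : ∀ a : Option (Set ℕ × Set ℕ), (𝔠 : Cardinal.{0}) ^ #(Arity a) ≤ 𝔠 := by
    intro a
    cases a with
    | none => simp [Arity, Cardinal.one_le_iff_ne_zero, Cardinal.continuum_ne_zero]
    | some a => simp [Arity]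
  calc (sum fun a : Option (Set ℕ × Set ℕ) => (𝔠 : Cardinal.{0}) ^ #(Arity a))
      ≤ sum fun _ : Option (Set ℕ × Set ℕ) => (𝔠 : Cardinal.{0}) := sum_le_sum _ _ h1
    _ = #(Option (Set ℕ × Set ℕ)) * 𝔠 := by rw [sum_const']
    _ ≤ 𝔠 := by
        have h2 : #(Option (Set ℕ × Set ℕ)) = 𝔠 := by
          rw [Cardinal.mk_option]
          have : #(Set ℕ × Set ℕ) = 𝔠 := by
            rw [Cardinal.mk_prod]
            simp [Cardinal.mk_set]
          rw [this]
          exact Cardinal.add_one_eq Cardinal.aleph0_le_continuum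
        rw [h2, Cardinal.continuum_mul_self]

/-- In a product of countably many well-orders, every set of more than continuum many functions
contains one which is everywhere below infinitely many others. -/
theorem exists_infinite_above {W : ℕ → Type} [∀ n, LinearOrder (W n)]
    [∀ n, WellFoundedLT (W n)] (D : Set (∀ n, W n)) (hD : 𝔠 < #D) :
    ∃ m ∈ D, {h | h ∈ D ∧ m ≤ h}.Infinite := by
  classical
  have hDne : Nonempty D := by
    rw [← Cardinal.mk_ne_zero_iff]
    exact (lt_of_le_of_lt (zero_le) hD).ne'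
  obtain ⟨d0⟩ := hDne
  -- the operations
  let good : Set ℕ → Set ℕ → (ℕ → D) → D → Prop := fun Z F e h =>
    (∀ n ∈ Z, h.1 n = (e n).1 n) ∧ ∀ n, n ∉ Z → n ∉ F → h.1 n < (e n).1 n
  let op : (Σ a : Option (Set ℕ × Set ℕ), Arity a → D) → D := fun x =>
    match x with
    | ⟨none, _⟩ => d0
    | ⟨some (Z, F), e⟩ => if h : ∃ m, good Z F e m then h.choose else d0
  let ev : WType Arity → D := WType.elim D op
  let M : Set D := range ev
  have hM : #M ≤ 𝔠 := le_trans (Cardinal.mk_range_le) card_wtype_le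
  have hMop : ∀ Z F : Set ℕ, ∀ e : ℕ → D, (∀ n, e n ∈ M) → op ⟨some (Z, F), e⟩ ∈ M := by
    intro Z F e he
    choose w hw using he
    refine ⟨WType.mk (some (Z, F)) w, ?_⟩
    have : (fun n => ev (w n)) = e := funext hw
    change op ⟨some (Z, F), fun n => ev (w n)⟩ = _
    rw [this]
  have hMd0 : d0 ∈ M := ⟨WType.mk none (fun x => x.elim), rfl⟩
  have key : ∀ h : D, h ∉ M → ∃ m : M, m.1.1 ≤ h.1 := by
    intro h hh
    let S : ℕ → Set D := fun n => {e | e ∈ M ∧ h.1 n ≤ e.1 n}
    have hmin : ∀ n, ∃ e : D, e ∈ M ∧ (∀ e' ∈ S n, e.1 n ≤ e'.1 n) ∧ ((S n).Nonempty → e ∈ S n) := by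
      intro n
      by_cases hS : (S n).Nonempty
      · obtain ⟨e, heS, he⟩ := (WellFounded.has_min
          (InvImage.wf (fun e : D => e.1 n) (wellFounded_lt (α := W n))) (S n) hS)
        refine ⟨e, heS.1, fun e' he' => not_lt.1 (he e' he'), fun _ => heS⟩
      · refine ⟨d0, hMd0, fun e' he' => absurd ⟨e', he'⟩ hS, fun h => absurd h hS⟩
    choose e heM hemin heS using hmin
    let F : Set ℕ := {n | ¬ (S n).Nonempty}
    let Z : Set ℕ := {n | (S n).Nonempty ∧ (e n).1 n = h.1 n}
    have hex : ∃ m, good Z F e m := by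
      refine ⟨h, fun n hn => hn.2.symm, fun n hnZ hnF => ?_⟩
      have hne : (S n).Nonempty := not_not.1 hnF
      have h1 := (heS n hne).2
      exact lt_of_le_of_ne h1 fun heq => hnZ ⟨hne, heq.symm⟩
    have hop : op ⟨some (Z, F), e⟩ = hex.choose := dif_pos hex
    have hgood : good Z F e (op ⟨some (Z, F), e⟩) := by
      rw [hop]; exact hex.choose_spec
    have hmM := hMop Z F e heM
    refine ⟨⟨_, hmM⟩, fun n => ?_⟩
    by_cases hnZ : n ∈ Z
    · have := hgood.1 n hnZ
      rw [hnZ.2] at this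
      exact this.le
    · by_cases hnF : n ∈ F
      · by_contra hlt
        exact hnF ⟨_, hmM, (not_le.1 hlt).le⟩
      · by_contra hlt
        have h1 := hgood.2 n hnZ hnF
        exact absurd (hemin n _ ⟨hmM, (not_le.1 hlt).le⟩) (not_le.2 h1)
  have hcompl : 𝔠 < #(Mᶜ : Set D) := by
    by_contra hlt
    rw [not_lt] at hlt
    have h1 : #D ≤ #M + #(Mᶜ : Set D) := by rw [Cardinal.mk_sum_compl]
    have h2 : #D ≤ 𝔠 := h1.trans ((add_le_add hM hlt).trans (by simp))
    exact absurd hD (not_lt.2 h2)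
  choose f hf using key
  have : Infinite (Mᶜ : Set D) := by
    rw [Cardinal.infinite_iff]
    exact (Cardinal.aleph0_le_continuum.trans hcompl.le)
  obtain ⟨m, hm⟩ := Cardinal.exists_infinite_fiber (fun x : (Mᶜ : Set D) => f x.1 x.2)
    (lt_of_le_of_lt hM hcompl)
  refine ⟨m.1.1, m.1.2, ?_⟩
  rw [← Set.infinite_coe_iff]
  refine @Infinite.of_injective _ _ hm
    (fun x => ⟨x.1.1.1, x.1.1.2, ?_⟩) ?_
  · have h1 := hf x.1.1 x.1.2
    have h2 : f x.1.1 x.1.2 = m := x.2
    rw [h2] at h1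
    exact h1
  · intro x y hxy
    simp only [Subtype.mk.injEq] at hxy
    exact Subtype.ext (Subtype.ext (Subtype.ext hxy))

end Pool.Agent.H88
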