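import Mathlib

open Cardinal Set Filter

namespace Pool.Agent.H88

variable {W : ℕ → Type} [∀ n, LinearOrder (W n)]

/-- Domination modulo the hyperfilter. -/
def leU (g f : ∀ n, W n) : Prop := ∀ᶠ n in (hyperfilter ℕ : Filter ℕ), g n ≤ f n

theorem leU_refl (g : ∀ n, W n) : leU g g := Eventually.of_forall fun _ => le_rfl

theorem leU_of_le {g f : ∀ n, W n} (h : g ≤ f) : leU g f := Eventually.of_forall h

theorem leU_trans {f g h : ∀ n, W n} (h1 : leU f g) (h2 : leU g h) : leU f h := by
  filter_upwards [h1, h2] with n a b using a.trans b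

theorem leU_total {f g : ∀ n, W n} (h : ¬ leU f g) : leU g f := by
  have h1 : ∀ᶠ n in (hyperfilter ℕ : Filter ℕ), ¬ f n ≤ g n := Ultrafilter.eventually_not.2 h
  filter_upwards [h1] with n a using (not_le.1 a).le

theorem leU_of_eventually {f g : ∀ n, W n} {N : ℕ} (h : ∀ n, N < n → f n ≤ g n) : leU f g := by
  have h1 : ∀ᶠ n in (cofinite : Filter ℕ), f n ≤ g n := by
    rw [Nat.cofinite_eq_atTop]
    exact (eventually_gt_atTop N).mono h
  exact h1.filter_mono hyperfilter_le_cofinite

/-- An injection into the ordinals. -/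
noncomputable def code (h : ∀ n, W n) : Ordinal.{0} :=
  Ordinal.typein (WellOrderingRel (α := ∀ n, W n)) h

omit [∀ n, LinearOrder (W n)] in
theorem code_inj {g h : ∀ n, W n} (e : code g = code h) : g = h :=
  (Ordinal.typein_inj _).1 e

/-- The rank of a function. -/
noncomputable def rk (h : ∀ n, W n) : Ordinal.{0} := sInf (code '' {x | leU h x})

theorem rk_spec (h : ∀ n, W n) : ∃ f, leU h f ∧ code f = rk h := by
  have h1 : (code '' {x | leU h x}).Nonempty := ⟨_, h, leU_refl h, rfl⟩
  obtain ⟨f, hf, e⟩ := csInf_mem h1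
  exact ⟨f, hf, e⟩

theorem rk_le {h f : ∀ n, W n} (hf : leU h f) : rk h ≤ code f :=
  csInf_le' ⟨f, hf, rfl⟩

theorem rk_mono {g h : ∀ n, W n} (hgh : leU g h) : rk g ≤ rk h := by
  obtain ⟨f, hf, e⟩ := rk_spec h
  rw [← e]
  exact rk_le (leU_trans hgh hf)

theorem exists_top (h0 : ∀ n, W n) :
    ∃ f : ∀ n, W n, rk f = rk h0 ∧ ∀ h : ∀ n, W n, rk h ≤ rk h0 → leU h f := by
  obtain ⟨f, hf, e⟩ := rk_spec h0
  have h2 : ∀ h : ∀ n, W n, rk h ≤ rk h0 → leU h f := by
    intro h hh
    obtain ⟨x, hx, ex⟩ := rk_spec h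
    by_cases hxx : leU h0 x
    · have h3 : rk h0 ≤ code x := rk_le hxx
      have h4 : code x = code f := by
        rw [e, ex]; exact le_antisymm hh (by rw [← ex]; exact h3)
      rw [← code_inj h4]
      exact hx
    · exact leU_trans hx (leU_trans (leU_total hxx) hf)
  refine ⟨f, le_antisymm ?_ (rk_mono hf), h2⟩
  rw [← e]
  exact rk_le (leU_refl f)

/-- Small families are bounded. -/
theorem exists_bound [∀ n, Nonempty (W n)]
    (hb : ∀ m n, m < n → ∀ s : Set (W n), #s ≤ #(W m) → BddAbove s)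
    (T : Set (∀ n, W n)) (hT : #T ≤ #(Σ n, W n)) : ∃ b : ∀ n, W n, ∀ h ∈ T, leU h b := by
  classical
  obtain ⟨i⟩ : Nonempty (T ↪ Σ n, W n) := hT
  have h1 : ∀ m : ℕ, ∀ n : Fin m, ∃ c : W m, ∀ h : T, (i h).1 = n → h.1 m ≤ c := by
    intro m n
    let s : Set (W m) := {x | ∃ h : T, (i h).1 = n ∧ h.1 m = x}
    have hs : BddAbove s := by
      apply hb n m n.2
      let g : s → W n := fun x => (congrArg W x.2.choose_spec.1) ▸ (i x.2.choose).2
      have hg : Function.Injective g := by
        intro x y hxy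
        have hx := x.2.choose_spec
        have hy := y.2.choose_spec
        have hi : i x.2.choose = i y.2.choose := by
          apply Sigma.ext
          · rw [hx.1, hy.1]
          · have e1 : HEq (g x) (i x.2.choose).2 := by
              simp [g]
            have e2 : HEq (g y) (i y.2.choose).2 := by
              simp [g]
            rw [hxy] at e1
            exact e1.symm.trans e2
        have hi2 := i.injective hi
        apply Subtype.ext
        rw [← hx.2, ← hy.2, hi2]
      exact Cardinal.mk_le_of_injective hg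
    obtain ⟨c, hc⟩ := hs
    exact ⟨c, fun h hh => hc ⟨h, hh, rfl⟩⟩
  choose c hc using h1
  have h2 : ∀ m : ℕ, ∃ b : W m, ∀ n : Fin m, c m n ≤ b := by
    intro m
    obtain ⟨b, hb⟩ := (Set.finite_range (c m)).bddAbove
    exact ⟨b, fun n => hb ⟨n, rfl⟩⟩
  choose b hb using h2
  refine ⟨b, fun h hh => ?_⟩
  refine leU_of_eventually (N := (i ⟨h, hh⟩).1) fun n hn => ?_
  exact (hc n ⟨_, hn⟩ ⟨h, hh⟩ rfl).trans (hb n _)

end Pool.Agent.H88
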