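import Mathlib
import Pool.Agent.H88.Closure
import Pool.Agent.H88.Rank

open Cardinal Set Filter

namespace Pool.Agent.H88

/-- The points of the space. -/
inductive Pt (W : ℕ → Type) : Type
  | coarse (f : ∀ n, W n) (A : Set ℕ) (hA : A ∈ (hyperfilter ℕ : Filter ℕ)) : Pt W
  | fine (h : ∀ n, W n) : Pt W

namespace Pt

variable {W : ℕ → Type}

/-- The function carried by a point. -/
def val : Pt W → ∀ n, W n
  | coarse f _ _ => f
  | fine h => h

/-- The domain of a point. -/
def dom : Pt W → Set ℕ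
  | coarse _ A _ => A
  | fine _ => univ

theorem dom_mem (x : Pt W) : x.dom ∈ (hyperfilter ℕ : Filter ℕ) := by
  cases x with
  | coarse f A hA => exact hA
  | fine h => exact univ_mem

end Pt

open Pt

variable {W : ℕ → Type} [∀ n, LinearOrder (W n)]

/-- The set cut out by finitely many upper bounds. -/
def Cut (S : Finset (Σ n, W n)) : Set (Pt W) := {y | ∀ p ∈ S, p.1 ∈ y.dom ∧ y.val p.1 < p.2}

theorem Cut_union [DecidableEq (Σ n, W n)] {S T : Finset (Σ n, W n)} {y : Pt W} (h : y ∈ Cut (S ∪ T)) :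
    y ∈ Cut S ∧ y ∈ Cut T :=
  ⟨fun p hp => h p (Finset.mem_union_left _ hp), fun p hp => h p (Finset.mem_union_right _ hp)⟩

/-- The condition of openness at a fine point. -/
def FineAt (V : Set (Pt W)) (h : ∀ n, W n) : Prop :=
  ∃ S : Finset (Σ n, W n), fine h ∈ Cut S ∧ ∀ h' : ∀ n, W n, h ≤ h' → fine h' ∈ Cut S → fine h' ∈ V

/-- The condition of openness at a coarse point. -/
def CoarseAt (V : Set (Pt W)) (x : Pt W) : Prop :=
  ∃ (S : Finset (Σ n, W n)) (H : Finset (∀ n, W n)) (E : Finset (Pt W)),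
    x ∈ Cut S ∧ (∀ g ∈ H, rk g < rk x.val) ∧
      ∀ y : Pt W, y ∈ Cut S → (∀ g ∈ H, rk g < rk y.val) → y ∉ E → y ∈ V

/-- The topology. -/
instance : TopologicalSpace (Pt W) where
  IsOpen V := (∀ h, fine h ∈ V → FineAt V h) ∧
    ∀ f A hA, coarse f A hA ∈ V → CoarseAt V (coarse f A hA)
  isOpen_univ := by
    refine ⟨fun h _ => ⟨∅, by simp [Cut], fun _ _ _ => trivial⟩, fun f A hA _ =>
      ⟨∅, ∅, ∅, by simp [Cut], by simp, fun _ _ _ _ => trivial⟩⟩
  isOpen_inter := by
    classical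
    rintro V V' ⟨hV1, hV2⟩ ⟨hV1', hV2'⟩
    refine ⟨fun h hh => ?_, fun f A hA hh => ?_⟩
    · obtain ⟨S, hS, hSV⟩ := hV1 h hh.1
      obtain ⟨S', hS', hSV'⟩ := hV1' h hh.2
      refine ⟨S ∪ S', ?_, fun h' hle hc => ?_⟩
      · intro p hp
        rcases Finset.mem_union.1 hp with h1 | h1
        · exact hS p h1
        · exact hS' p h1
      · exact ⟨hSV h' hle (Cut_union hc).1, hSV' h' hle (Cut_union hc).2⟩
    · obtain ⟨S, H, E, hS, hH, hV⟩ := hV2 f A hA hh.1
      obtain ⟨S', H', E', hS', hH', hV'⟩ := hV2' f A hA hh.2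
      refine ⟨S ∪ S', H ∪ H', E ∪ E', ?_, ?_, fun y hc hr hE => ?_⟩
      · intro p hp
        rcases Finset.mem_union.1 hp with h1 | h1
        · exact hS p h1
        · exact hS' p h1
      · intro g hg
        rcases Finset.mem_union.1 hg with h1 | h1
        · exact hH g h1
        · exact hH' g h1
      · rw [Finset.mem_union, not_or] at hE
        exact ⟨hV y (Cut_union hc).1 (fun g hg => hr g (Finset.mem_union_left _ hg)) hE.1,
          hV' y (Cut_union hc).2 (fun g hg => hr g (Finset.mem_union_right _ hg)) hE.2⟩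
  isOpen_sUnion := by
    intro 𝒰 h𝒰
    refine ⟨fun h hh => ?_, fun f A hA hh => ?_⟩
    · obtain ⟨V, hV, hhV⟩ := hh
      obtain ⟨S, hS, hSV⟩ := (h𝒰 V hV).1 h hhV
      exact ⟨S, hS, fun h' h1 h2 => ⟨V, hV, hSV h' h1 h2⟩⟩
    · obtain ⟨V, hV, hhV⟩ := hh
      obtain ⟨S, H, E, hS, hH, hVV⟩ := (h𝒰 V hV).2 f A hA hhV
      exact ⟨S, H, E, hS, hH, fun y h1 h2 h3 => ⟨V, hV, hVV y h1 h2 h3⟩⟩

theorem isOpen_iff' {V : Set (Pt W)} : IsOpen V ↔ (∀ h, fine h ∈ V → FineAt V h) ∧
    ∀ f A hA, coarse f A hA ∈ V → CoarseAt V (coarse f A hA) := Iff.rfl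

instance : T1Space (Pt W) := by
  refine ⟨fun x => ?_⟩
  rw [← isOpen_compl_iff, isOpen_iff']
  refine ⟨fun h hh => ?_, fun f A hA hh => ?_⟩
  · cases x with
    | coarse f A hA => exact ⟨∅, by simp [Cut], fun h' _ _ => by simp⟩
    | fine h0 =>
      have hne : h ≠ h0 := fun e => hh (by rw [e]; rfl)
      by_cases hle : h ≤ h0
      · have : ∃ n, h n < h0 n := by
          by_contra hcon
          push Not at hcon
          exact hne (le_antisymm hle hcon)
        obtain ⟨n, hn⟩ := this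
        refine ⟨{⟨n, h0 n⟩}, ?_, fun h' hle' hc => ?_⟩
        · intro p hp
          rw [Finset.mem_singleton] at hp
          subst hp
          exact ⟨trivial, hn⟩
        · intro e
          have e2 : h' = h0 := by
            simpa using e
          have := (hc ⟨n, h0 n⟩ (Finset.mem_singleton_self _)).2
          rw [e2] at this
          exact lt_irrefl _ this
      · refine ⟨∅, by simp [Cut], fun h' hle' _ => ?_⟩
        intro e
        have e2 : h' = h0 := by
          simpa using e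
        rw [e2] at hle'
        exact hle hle'
  · exact ⟨∅, ∅, {x}, by simp [Cut], by simp, fun y _ _ hy => by simpa using hy⟩

/-- The basic open cover. -/
def UU (n : ℕ) (a : W n) : Set (Pt W) := {y | n ∈ y.dom ∧ y.val n < a}

theorem isOpen_UU (n : ℕ) (a : W n) : IsOpen (UU n a) := by
  rw [isOpen_iff']
  refine ⟨fun h hh => ⟨{⟨n, a⟩}, ?_, fun h' _ hc => ?_⟩, fun f A hA hh =>
    ⟨{⟨n, a⟩}, ∅, ∅, ?_, by simp, fun y hc _ _ => ?_⟩⟩
  · intro p hp
    rw [Finset.mem_singleton] at hp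
    subst hp
    exact hh
  · exact hc ⟨n, a⟩ (Finset.mem_singleton_self _)
  · intro p hp
    rw [Finset.mem_singleton] at hp
    subst hp
    exact hh
  · exact hc ⟨n, a⟩ (Finset.mem_singleton_self _)

/-- The cone above a function. -/
def OO (g : ∀ n, W n) : Set (Pt W) := {y | ∃ h, g ≤ h ∧ y = fine h}

theorem isOpen_OO (g : ∀ n, W n) : IsOpen (OO g) := by
  rw [isOpen_iff']
  refine ⟨fun h hh => ⟨∅, by simp [Cut], fun h' hle _ => ?_⟩, fun f A hA hh => ?_⟩
  · obtain ⟨h0, h1, h2⟩ := hh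
    have : h = h0 := by simpa using h2
    subst this
    exact ⟨h', h1.trans hle, rfl⟩
  · obtain ⟨h0, h1, h2⟩ := hh
    exact absurd h2 (by simp)

/-- The levels. -/
def JJ (g : ∀ n, W n) : Set (Pt W) := {y | rk y.val ≤ rk g}

theorem isClosed_JJ (g : ∀ n, W n) : IsClosed (JJ g) := by
  rw [← isOpen_compl_iff, isOpen_iff']
  refine ⟨fun h hh => ⟨∅, by simp [Cut], fun h' hle _ => ?_⟩, fun f A hA hh =>
    ⟨∅, {g}, ∅, by simp [Cut], ?_, fun y _ hr _ => ?_⟩⟩
  · have h1 : rk g < rk h := not_le.1 hh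
    exact not_le.2 (h1.trans_le (rk_mono (leU_of_le hle)))
  · intro g' hg'
    rw [Finset.mem_singleton] at hg'
    subst hg'
    exact not_le.1 hh
  · exact not_le.2 (hr g (Finset.mem_singleton_self _))

theorem isLindelof_JJ (g : ∀ n, W n) : IsLindelof (JJ g) := by
  classical
  induction hξ : rk g using WellFoundedLT.induction generalizing g with
  | ind ξ ih =>
    obtain ⟨f, hf, htop⟩ := exists_top g
    apply isLindelof_of_countable_subcover
    intro ι U hU hcov
    -- coarse points of the top level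
    have h1 : ∀ B : {A : Set ℕ // A ∈ (hyperfilter ℕ : Filter ℕ)}, ∃ (i : ι)
        (S : Finset (Σ n, W n)) (H : Finset (∀ n, W n)) (E : Finset (Pt W)),
        coarse f B.1 B.2 ∈ Cut S ∧ (∀ g ∈ H, rk g < rk f) ∧
        ∀ y : Pt W, y ∈ Cut S → (∀ g ∈ H, rk g < rk y.val) → y ∉ E → y ∈ U i := by
      intro B
      have hmem : coarse f B.1 B.2 ∈ JJ g := hf.le
      obtain ⟨i, hi⟩ := mem_iUnion.1 (hcov hmem)
      obtain ⟨S, H, E, h1, h2, h3⟩ := (hU i).2 f B.1 B.2 hi
      exact ⟨i, S, H, E, h1, h2, h3⟩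
    choose i S H E hS hH hV using h1
    let t : {A : Set ℕ // A ∈ (hyperfilter ℕ : Filter ℕ)} → Finset ℕ := fun B =>
      (S B).image Sigma.fst
    have hsec : ∀ b : range t, ∃ B, t B = b.1 := fun b => b.2
    choose sec hsec' using hsec
    -- the exceptional part
    let Q : Set (Pt W) := ⋃ b : range t, ((⋃ g' ∈ H (sec b), JJ g') ∪ (E (sec b) : Set (Pt W)))
    have hQ : IsLindelof Q := by
      apply isLindelof_iUnion
      intro b
      apply IsLindelof.union
      · apply Finset.isLindelof_biUnion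
        intro g' hg'
        have : rk g' < ξ := by
          rw [← hξ, ← hf]
          exact hH _ g' hg'
        exact ih _ this g' rfl
      · exact (Finset.finite_toSet _).isLindelof
    have hQ' : IsLindelof (Q ∩ JJ g) := hQ.inter_right (isClosed_JJ g)
    obtain ⟨r, hr, hrc⟩ := hQ'.elim_countable_subcover U hU (inter_subset_right.trans hcov)
    refine ⟨r ∪ range (fun b : range t => i (sec b)), hr.union (countable_range _), ?_⟩
    intro x hx
    -- the set on which x is below f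
    let B : Set ℕ := {n | n ∈ x.dom ∧ x.val n ≤ f n}
    have hB : B ∈ (hyperfilter ℕ : Filter ℕ) := by
      have h2 : leU x.val f := htop _ hx
      exact inter_mem x.dom_mem h2
    let b : range t := ⟨t ⟨B, hB⟩, ⟨_, rfl⟩⟩
    have hcut : x ∈ Cut (S (sec b)) := by
      intro p hp
      have h2 : p.1 ∈ t (sec b) := Finset.mem_image_of_mem _ hp
      rw [hsec' b] at h2
      obtain ⟨q, hq, hqp⟩ := Finset.mem_image.1 h2
      have h3 := (hS ⟨B, hB⟩ q hq).1
      rw [hqp] at h3
      have h4 : p.1 ∈ x.dom ∧ x.val p.1 ≤ f p.1 := h3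
      exact ⟨h4.1, h4.2.trans_lt (hS (sec b) p hp).2⟩
    by_cases hxQ : x ∈ Q
    · have h2 := hrc ⟨hxQ, hx⟩
      rw [mem_iUnion₂] at h2 ⊢
      obtain ⟨j, hj, hxj⟩ := h2
      exact ⟨j, Or.inl hj, hxj⟩
    · rw [mem_iUnion₂]
      refine ⟨i (sec b), Or.inr ⟨b, rfl⟩, hV (sec b) x hcut ?_ ?_⟩
      · intro g' hg'
        by_contra hlt
        apply hxQ
        exact mem_iUnion.2 ⟨b, Or.inl (mem_iUnion₂.2 ⟨g', hg', not_lt.1 hlt⟩)⟩
      · intro hxE
        apply hxQ
        exact mem_iUnion.2 ⟨b, Or.inr hxE⟩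

end Pool.Agent.H88
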