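import Mathlib
import Pool.Agent.H88.Space

open Cardinal Set Filter

namespace Pool.Agent.H88

open Pt

variable {W : ℕ → Type} [∀ n, LinearOrder (W n)]

/-- What discreteness gives at a point. -/
def Sep (D : Set (Pt W)) (S : Finset (Σ n, W n)) (d : Pt W) : Prop :=
  d ∈ Cut S ∧ ((∃ h, d = fine h ∧ ∀ h' : ∀ n, W n, h ≤ h' → fine h' ∈ Cut S → fine h' ∈ D → h' = h) ∨
    ((∀ h, d ≠ fine h) ∧ ∃ (H : Finset (∀ n, W n)) (E : Finset (Pt W)), (∀ g ∈ H, rk g < rk d.val) ∧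
      ∀ y ∈ D, y ∈ Cut S → (∀ g ∈ H, rk g < rk y.val) → y ∉ E → y = d))

theorem exists_sep (D : Set (Pt W)) (hD : IsDiscrete D) (d : Pt W) (hd : d ∈ D) :
    ∃ S, Sep D S d := by
  obtain ⟨V, hV, hVD⟩ := isOpen_inter_eq_singleton_of_mem_discrete hD hd
  have hdV : d ∈ V := by
    have : d ∈ V ∩ D := by rw [hVD]; rfl
    exact this.1
  have key : ∀ y ∈ V, y ∈ D → y = d := by
    intro y h1 h2
    have : y ∈ V ∩ D := ⟨h1, h2⟩
    rw [hVD] at this
    exact this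
  cases d with
  | coarse f A hA =>
    obtain ⟨S, H, E, h1, h2, h3⟩ := hV.2 f A hA hdV
    exact ⟨S, h1, Or.inr ⟨by simp, H, E, h2, fun y hy hc hr hE => key y (h3 y hc hr hE) hy⟩⟩
  | fine h =>
    obtain ⟨S, h1, h2⟩ := hV.1 h hdV
    refine ⟨S, h1, Or.inl ⟨h, rfl, fun h' hle hc hD' => ?_⟩⟩
    have := key _ (h2 h' hle hc) hD'
    simpa using this

theorem card_discrete_le [∀ n, WellFoundedLT (W n)] (hc : 𝔠 ≤ #(Σ n, W n))
    (D : Set (Pt W)) (hD : IsDiscrete D) : #D ≤ #(Σ n, W n) := by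
  classical
  choose S hS using exists_sep D hD
  have hinf : Infinite (Σ n, W n) := by
    rw [Cardinal.infinite_iff]
    exact aleph0_le_continuum.trans hc
  let F : D → Finset (Σ n, W n) := fun d => S d.1 d.2
  have hfib : ∀ s, #(F ⁻¹' {s}) ≤ 𝔠 := by
    intro s
    -- fine part
    let D1 : Set (∀ n, W n) := {h | ∃ hh : fine h ∈ D, S (fine h) hh = s}
    have hD1 : #D1 ≤ 𝔠 := by
      by_contra hlt
      rw [not_le] at hlt
      obtain ⟨m, ⟨hmD, hmS⟩, hinf⟩ := exists_infinite_above D1 hlt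
      have h1 := hS (fine m) hmD
      rw [hmS] at h1
      obtain ⟨hm1, hm2⟩ := h1
      rcases hm2 with ⟨h0, e0, hm3⟩ | ⟨hne, _⟩
      · have e1 : m = h0 := by simpa using e0
        subst e1
        apply hinf
        apply (Set.finite_singleton m).subset
        rintro h ⟨⟨hhD, hhS⟩, hle⟩
        have h2 := (hS (fine h) hhD).1
        rw [hhS] at h2
        exact hm3 h hle h2 hhD
      · exact hne m rfl
    -- coarse part
    let D2 : Set (Pt W) := {x | (∀ h, x ≠ fine h) ∧ ∃ hx : x ∈ D, S x hx = s}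
    have hD2 : D2.Finite := by
      by_cases hne : D2.Nonempty
      · obtain ⟨d0, hd0, hmin⟩ := (InvImage.wf (fun x : Pt W => rk x.val)
          (wellFounded_lt (α := Ordinal))).has_min D2 hne
        obtain ⟨hd1, hdD, hdS⟩ := hd0
        have h1 := hS d0 hdD
        rw [hdS] at h1
        obtain ⟨-, h2⟩ := h1
        rcases h2 with ⟨h0, e0, _⟩ | ⟨_, H, E, hH, hE⟩
        · exact absurd e0 (hd1 h0)
        · apply ((Finset.finite_toSet E).union (Set.finite_singleton d0)).subset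
          rintro y ⟨hy1, hyD, hyS⟩
          by_cases hyE : y ∈ E
          · exact Or.inl hyE
          · right
            have h3 := (hS y hyD).1
            rw [hyS] at h3
            refine hE y hyD h3 (fun g hg => ?_) hyE
            exact (hH g hg).trans_le (not_lt.1 (hmin y ⟨hy1, hyD, hyS⟩))
      · rw [Set.not_nonempty_iff_eq_empty] at hne
        rw [hne]
        exact Set.finite_empty
    have hsub : (Subtype.val '' (F ⁻¹' {s})) ⊆ fine '' D1 ∪ D2 := by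
      rintro x ⟨⟨x, hx⟩, hxs, rfl⟩
      cases x with
      | coarse f A hA => exact Or.inr ⟨by simp, hx, hxs⟩
      | fine h => exact Or.inl ⟨h, ⟨hx, hxs⟩, rfl⟩
    calc #(F ⁻¹' {s}) = #(Subtype.val '' (F ⁻¹' {s})) :=
          (Cardinal.mk_image_eq Subtype.val_injective).symm
      _ ≤ #(fine '' D1 ∪ D2 : Set (Pt W)) := Cardinal.mk_le_mk_of_subset hsub
      _ ≤ #(fine '' D1) + #D2 := Cardinal.mk_union_le _ _
      _ ≤ 𝔠 + 𝔠 := add_le_add (Cardinal.mk_image_le.trans hD1)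
          ((hD2.lt_aleph0).le.trans aleph0_le_continuum)
      _ = 𝔠 := by simp
  calc #D ≤ #(Finset (Σ n, W n)) * 𝔠 := Cardinal.mk_le_mk_mul_of_mk_preimage_le F hfib
    _ = #(Σ n, W n) * 𝔠 := by rw [Cardinal.mk_finset_of_infinite]
    _ ≤ #(Σ n, W n) * #(Σ n, W n) := mul_le_mul' le_rfl hc
    _ = #(Σ n, W n) := Cardinal.mul_eq_self (Cardinal.infinite_iff.1 hinf)

theorem discrete_bounded [∀ n, WellFoundedLT (W n)] [∀ n, Nonempty (W n)]
    (hc : 𝔠 ≤ #(Σ n, W n))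
    (hb : ∀ m n, m < n → ∀ s : Set (W n), #s ≤ #(W m) → BddAbove s)
    (D : Set (Pt W)) (hD : IsDiscrete D) : ∃ b, D ⊆ JJ b := by
  obtain ⟨b, hb⟩ := exists_bound hb (val '' D) (Cardinal.mk_image_le.trans (card_discrete_le hc D hD))
  exact ⟨b, fun x hx => rk_mono (hb _ ⟨x, hx, rfl⟩)⟩

theorem closure_lindelof [∀ n, WellFoundedLT (W n)] [∀ n, Nonempty (W n)]
    (hc : 𝔠 ≤ #(Σ n, W n))
    (hb : ∀ m n, m < n → ∀ s : Set (W n), #s ≤ #(W m) → BddAbove s)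
    (D : Set (Pt W)) (hD : IsDiscrete D) : IsLindelof (closure D) := by
  obtain ⟨b, hb⟩ := discrete_bounded hc hb D hD
  exact (isLindelof_JJ b).of_isClosed_subset isClosed_closure
    (closure_minimal hb (isClosed_JJ b))

theorem not_weakly_lindelof [∀ n, NoMaxOrder (W n)] [∀ n, Nonempty (W n)]
    (hb0 : ∀ n, ∀ s : Set (W n), s.Countable → BddAbove s) :
    ∃ 𝒰 : Set (Set (Pt W)), (∀ U ∈ 𝒰, IsOpen U) ∧ ⋃₀ 𝒰 = Set.univ ∧
      ∀ 𝒱 ⊆ 𝒰, 𝒱.Countable → ¬ Dense (⋃₀ 𝒱) := by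
  refine ⟨{V | ∃ n a, V = UU n a}, ?_, ?_, ?_⟩
  · rintro _ ⟨n, a, rfl⟩
    exact isOpen_UU n a
  · rw [Set.sUnion_eq_univ_iff]
    intro x
    obtain ⟨n, hn⟩ : x.dom.Nonempty := nonempty_of_mem x.dom_mem
    obtain ⟨a, ha⟩ := exists_gt (x.val n)
    exact ⟨UU n a, ⟨n, a, rfl⟩, hn, ha⟩
  · intro 𝒱 h𝒱 hcount hdense
    have h1 : ∀ V : 𝒱, ∃ n a, V.1 = UU n a := fun V => h𝒱 V.2
    choose N a hVa using h1
    have : Countable 𝒱 := hcount
    have h2 : ∀ n, ∃ c : W n, ∀ V : 𝒱, ∀ e : N V = n, (e ▸ a V) ≤ c := by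
      intro n
      have h3 : BddAbove {x : W n | ∃ V : 𝒱, ∃ e : N V = n, e ▸ a V = x} := by
        apply hb0
        have : {x : W n | ∃ V : 𝒱, ∃ e : N V = n, e ▸ a V = x} ⊆
            range (fun V : {V : 𝒱 // N V = n} => V.2 ▸ a V.1) := by
          rintro x ⟨V, e, rfl⟩
          exact ⟨⟨V, e⟩, rfl⟩
        exact (countable_range _).mono this
      obtain ⟨c, hc⟩ := h3
      exact ⟨c, fun V e => hc ⟨V, e, rfl⟩⟩
    choose g hg using h2
    have h4 : (OO g).Nonempty := ⟨fine g, g, le_rfl, rfl⟩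
    obtain ⟨x, ⟨h, hgh, rfl⟩, ⟨V, hV, hxV⟩⟩ := hdense.inter_open_nonempty _ (isOpen_OO g) h4
    have h5 := hVa ⟨V, hV⟩
    simp only at h5
    rw [h5] at hxV
    have h6 : a ⟨V, hV⟩ ≤ g (N ⟨V, hV⟩) := hg _ ⟨V, hV⟩ rfl
    exact absurd (hxV.2) (not_lt.2 (h6.trans (hgh _)))

end Pool.Agent.H88
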