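import Mathlib
import Pool.Agent.H88.Discrete

open Cardinal Set Filter

namespace Pool.Agent.H88

/-- The cardinals. -/
noncomputable def kap : ℕ → Cardinal.{0}
  | 0 => Order.succ 𝔠
  | n + 1 => Order.succ (kap n)

theorem continuum_lt_kap (n : ℕ) : 𝔠 < kap n := by
  induction n with
  | zero => exact Order.lt_succ _
  | succ n ih => exact ih.trans (Order.lt_succ _)

theorem kap_reg (n : ℕ) : (kap n).IsRegular := by
  cases n with
  | zero => exact isRegular_succ aleph0_le_continuum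
  | succ n => exact isRegular_succ (aleph0_le_continuum.trans (continuum_lt_kap n).le)

theorem kap_strictMono : StrictMono kap :=
  strictMono_nat_of_lt_succ fun _ => Order.lt_succ _

/-- The well-orders. -/
abbrev WW (n : ℕ) : Type := (kap n).ord.ToType

theorem mk_WW (n : ℕ) : #(WW n) = kap n := by simp [WW]

theorem cof_WW (n : ℕ) : Order.cof (WW n) = kap n := by
  rw [Ordinal.cof_toType, (kap_reg n).cof_ord]

instance (n : ℕ) : Nonempty (WW n) := by
  rw [← Cardinal.mk_ne_zero_iff, mk_WW]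
  exact (kap_reg n).ne_zero

instance (n : ℕ) : NoMaxOrder (WW n) := by
  have h1 : 1 < Order.cof (WW n) := by
    rw [cof_WW]
    exact one_lt_aleph0.trans_le (kap_reg n).aleph0_le
  rw [Order.one_lt_cof_iff] at h1
  exact NoTopOrder.to_noMaxOrder _

theorem bdd_WW (n : ℕ) (s : Set (WW n)) (hs : #s < kap n) : BddAbove s := by
  apply BddAbove.of_not_isCofinal
  intro hcof
  have := Order.cof_le hcof
  rw [cof_WW] at this
  exact absurd hs (not_lt.2 this)

theorem main1 : ∃ (X : Type) (_ : TopologicalSpace X), T1Space X ∧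
    (∀ D : Set X, IsDiscrete D → IsLindelof (closure D)) ∧
    ∃ 𝒰 : Set (Set X), (∀ U ∈ 𝒰, IsOpen U) ∧ ⋃₀ 𝒰 = Set.univ ∧
      ∀ 𝒱 ⊆ 𝒰, 𝒱.Countable → ¬ Dense (⋃₀ 𝒱) := by
  have hc : 𝔠 ≤ #(Σ n, WW n) := by
    rw [Cardinal.mk_sigma]
    calc 𝔠 ≤ #(WW 0) := by rw [mk_WW]; exact (continuum_lt_kap 0).le
      _ ≤ _ := Cardinal.le_sum (fun n => #(WW n)) 0
  refine ⟨Pt WW, inferInstance, inferInstance, fun D hD => closure_lindelof hc ?_ D hD,
    not_weakly_lindelof ?_⟩
  · intro m n hmn s hs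
    apply bdd_WW
    rw [mk_WW] at hs
    exact hs.trans_lt (kap_strictMono hmn)
  · intro n s hs
    apply bdd_WW
    exact (hs.le_aleph0).trans_lt (aleph0_le_continuum.trans_lt (continuum_lt_kap n))

end Pool.Agent.H88
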