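import Pool.Agent.H88.KSDefs

open Topology Filter Set

universe u v

set_option linter.unusedSectionVars false
set_option linter.unusedVariables false

namespace Pool.Agent.H88.KS

lemma IsKSpace.closed {X : Type*} [TopologicalSpace X] (h : IsKSpace X) {C : Set X}
    (hC : ∀ K, IsCompact K → IsClosed (C ∩ K)) : IsClosed C := by
  apply h C
  intro K hK
  have : (Subtype.val : K → X) ⁻¹' C = (Subtype.val : K → X) ⁻¹' (C ∩ K) := by
    ext x; simp
  rw [this]
  exact (hC K hK).preimage continuous_subtype_val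

section
variable {X : Type u} [TopologicalSpace X] {V : Type u} [AddCommGroup V] [Module ℝ V]
  [TopologicalSpace V] {i : X → V}

lemma ext_real (hV : IsFreeTVS i) (φ : X → ℝ) (hφ : Continuous φ) :
    ∃ Φ : V →L[ℝ] ℝ, ∀ x, Φ (i x) = φ x := by
  obtain ⟨_, _, _, _, hu⟩ := hV
  obtain ⟨L, hL, -⟩ := hu (PUnit.{u+1} → ℝ) (fun x _ => φ x) (by fun_prop)
  refine ⟨(ContinuousLinearMap.proj (R := ℝ) (φ := fun _ : PUnit.{u+1} => ℝ) PUnit.unit).comp L, ?_⟩
  intro x
  simp [hL x]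

lemma span_top (hV : IsFreeTVS i) : Submodule.span ℝ (Set.range i) = ⊤ := by
  obtain ⟨h1, h2, h3, hi, hu⟩ := hV
  let S := Submodule.span ℝ (Set.range i)
  have hmem : ∀ x, i x ∈ S := fun x => Submodule.subset_span ⟨x, rfl⟩
  obtain ⟨L, hL, -⟩ := hu S (fun x => (⟨i x, hmem x⟩ : S)) (by fun_prop)
  obtain ⟨L', -, hL'⟩ := hu V i hi
  have e1 := hL' (ContinuousLinearMap.id ℝ V) (by intro x; rfl)
  have e2 := hL' (S.subtypeL.comp L) (by intro x; simp [hL x])
  rw [eq_top_iff]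
  intro v _
  have : (S.subtypeL.comp L) v = v := by rw [e2, ← e1]; rfl
  rw [← this]
  exact (L v).2

lemma exists_rep (hV : IsFreeTVS i) (v : V) : ∃ c : X →₀ ℝ, (c.sum fun x a => a • i x) = v := by
  rw [← Finsupp.mem_span_range_iff_exists_finsupp, span_top hV]
  trivial

/-- sum of coefficients -/
lemma exists_one (hV : IsFreeTVS i) : ∃ Φ : V →L[ℝ] ℝ, ∀ x, Φ (i x) = 1 :=
  ext_real hV (fun _ => 1) continuous_const

end

/-- separating functions -/
lemma sepfun {X : Type u} [TopologicalSpace X] [T35Space X] (F : Finset X) (U : X → Set X)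
    (hU : ∀ z ∈ F, U z ∈ 𝓝 z) :
    ∃ φ : X → ℝ, Continuous φ ∧ (∀ x, φ x ∈ Set.Icc (0:ℝ) 1) ∧ (∀ z ∈ F, φ z = 0) ∧
      ∀ x, (∀ z ∈ F, x ∉ U z) → φ x = 1 := by
  classical
  have key : ∀ z : X, ∃ f : X → ℝ, z ∈ F → (Continuous f ∧ (∀ x, f x ∈ Set.Icc (0:ℝ) 1) ∧ f z = 0 ∧
      ∀ x, x ∉ U z → f x = 1) := by
    intro z
    by_cases hz : z ∈ F
    · obtain ⟨W, hWU, hW, hzW⟩ := mem_nhds_iff.1 (hU z hz)
      obtain ⟨f, hf, hfz, hf1⟩ := CompletelyRegularSpace.completely_regular z Wᶜ hW.isClosed_compl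
        (by simpa using hzW)
      refine ⟨fun x => (f x : ℝ), fun _ => ⟨by fun_prop, fun x => (f x).2, by simp [hfz], ?_⟩⟩
      intro x hx
      have : x ∈ Wᶜ := fun h => hx (hWU h)
      have := hf1 this
      simp only [Pi.one_apply] at this
      simp [this]
    · exact ⟨fun _ => 0, fun h => absurd h hz⟩
  choose f hf using key
  refine ⟨fun x => ∏ z ∈ F, f z x, ?_, ?_, ?_, ?_⟩
  · exact continuous_finsetProd _ fun z hz => (hf z hz).1
  · intro x
    exact ⟨Finset.prod_nonneg fun z hz => ((hf z hz).2.1 x).1,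
      Finset.prod_le_one (fun z hz => ((hf z hz).2.1 x).1) (fun z hz => ((hf z hz).2.1 x).2)⟩
  · intro z hz
    exact Finset.prod_eq_zero hz (hf z hz).2.2.1
  · intro x hx
    exact Finset.prod_eq_one fun z hz => (hf z hz).2.2.2 x (hx z hz)

section
variable {X : Type u} [TopologicalSpace X] [T35Space X] {V : Type u} [AddCommGroup V] [Module ℝ V]
  [TopologicalSpace V] {i : X → V}

lemma map_sum_eq {φ : X → ℝ} {Φ : V →L[ℝ] ℝ} (h : ∀ x, Φ (i x) = φ x) (c : X →₀ ℝ) :
    Φ (c.sum fun x a => a • i x) = c.sum fun x a => a * φ x := by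
  simp [Finsupp.sum, map_sum, h]

/-- B1 -/
lemma cluster (hV : IsFreeTVS i) {T : Type*} (l : Ultrafilter T) (a : T → ℝ) (ha : ∀ t, 0 ≤ a t)
    (y x : T → X) (v : V) (h : Tendsto (fun t => a t • i (y t) + i (x t)) l (𝓝 v)) :
    ∃ x0, Tendsto x l (𝓝 x0) := by
  classical
  by_contra hcon
  push Not at hcon
  obtain ⟨c, rfl⟩ := exists_rep hV v
  have hz : ∀ z : X, ∃ U ∈ 𝓝 z, ∀ᶠ t in (l : Filter T), x t ∉ U := by
    intro z
    have := hcon z
    rw [Tendsto, Filter.le_def] at this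
    push Not at this
    obtain ⟨U, hU, hU'⟩ := this
    refine ⟨U, hU, ?_⟩
    rw [Filter.mem_map] at hU'
    exact Ultrafilter.compl_mem_iff_notMem.2 hU'
  choose U hU hU' using hz
  obtain ⟨φ, hφ, hφ01, hφF, hφ1⟩ := sepfun c.support U (fun z _ => hU z)
  obtain ⟨Φ, hΦ⟩ := ext_real hV φ hφ
  have h0 : Φ (c.sum fun x a => a • i x) = 0 := by
    rw [map_sum_eq hΦ]
    apply Finset.sum_eq_zero
    intro z hz
    simp [hφF z hz]
  have h1 : Tendsto (fun t => Φ (a t • i (y t) + i (x t))) l (𝓝 0) := by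
    rw [← h0]
    exact (Φ.continuous.tendsto _).comp h
  have h2 : ∀ᶠ t in (l : Filter T), ∀ z ∈ c.support, x t ∉ U z := by
    rw [Filter.eventually_all_finset]
    exact fun z _ => hU' z
  have h3 : ∀ᶠ t in (l : Filter T), (1:ℝ) ≤ Φ (a t • i (y t) + i (x t)) := by
    filter_upwards [h2] with t ht
    rw [map_add, map_smul, hΦ, hΦ, hφ1 _ ht]
    have := mul_nonneg (ha t) (hφ01 (y t)).1
    simp only [smul_eq_mul]
    linarith
  have := ge_of_tendsto h1 h3
  linarith

/-- B2 -/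
lemma cluster2 (hV : IsFreeTVS i) {T : Type*} (l : Ultrafilter T) (a : T → ℝ)
    (ha : ∀ t, a t ∈ Set.Icc (0:ℝ) (1/2))
    (y : T → X) (w : V) (h : Tendsto (fun t => a t • i (y t)) l (𝓝 w)) :
    ∃ b ∈ Set.Icc (0:ℝ) (1/2), ∃ y0, w = b • i y0 := by
  classical
  obtain ⟨_, _, _, hi, _⟩ := id hV
  have hne : Nonempty T := by
    have : (l : Filter T).NeBot := inferInstance
    exact Filter.nonempty_of_neBot (l : Filter T)
  obtain ⟨t0⟩ := hne
  -- a converges
  obtain ⟨b, hb, hab⟩ : ∃ b ∈ Set.Icc (0:ℝ) (1/2), Tendsto a l (𝓝 b) := by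
    have := isCompact_iff_ultrafilter_le_nhds.1 (isCompact_Icc (a := (0:ℝ)) (b := 1/2)) (l.map a)
      (by
        rw [Filter.le_principal_iff]
        exact Filter.mem_map.2 (Filter.Eventually.of_forall ha))
    exact this
  by_cases hy : ∃ y0, Tendsto y l (𝓝 y0)
  · obtain ⟨y0, hy0⟩ := hy
    refine ⟨b, hb, y0, ?_⟩
    exact tendsto_nhds_unique h (hab.smul ((hi.tendsto _).comp hy0))
  push Not at hy
  refine ⟨0, by norm_num, y t0, ?_⟩
  rw [zero_smul]
  obtain ⟨c, rfl⟩ := exists_rep hV w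
  have hz : ∀ z : X, ∃ U ∈ 𝓝 z, ∀ᶠ t in (l : Filter T), y t ∉ U := by
    intro z
    have := hy z
    rw [Tendsto, Filter.le_def] at this
    push Not at this
    obtain ⟨U, hU, hU'⟩ := this
    refine ⟨U, hU, ?_⟩
    rw [Filter.mem_map] at hU'
    exact Ultrafilter.compl_mem_iff_notMem.2 hU'
  choose U hU hU' using hz
  obtain ⟨φ, hφ, hφ01, hφF, hφ1⟩ := sepfun c.support U (fun z _ => hU z)
  obtain ⟨Φ, hΦ⟩ := ext_real hV φ hφ
  have h0 : Φ (c.sum fun x a => a • i x) = 0 := by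
    rw [map_sum_eq hΦ]
    apply Finset.sum_eq_zero
    intro z hz
    simp [hφF z hz]
  have h1 : Tendsto (fun t => Φ (a t • i (y t))) l (𝓝 0) := by
    rw [← h0]
    exact (Φ.continuous.tendsto _).comp h
  have h2 : ∀ᶠ t in (l : Filter T), ∀ z ∈ c.support, y t ∉ U z := by
    rw [Filter.eventually_all_finset]
    exact fun z _ => hU' z
  have h3 : Tendsto a l (𝓝 0) := by
    refine Tendsto.congr' ?_ h1
    filter_upwards [h2] with t ht
    rw [map_smul, hΦ, hφ1 _ ht]
    simp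
  -- every bounded functional vanishes on w
  have h4 : ∀ ψ : X → ℝ, Continuous ψ → (∀ x, ψ x ∈ Set.Icc (0:ℝ) 1) →
      (c.sum fun x a => a * ψ x) = 0 := by
    intro ψ hψ hψ1
    obtain ⟨Ψ, hΨ⟩ := ext_real hV ψ hψ
    have e1 : Tendsto (fun t => Ψ (a t • i (y t))) l (𝓝 (c.sum fun x a => a * ψ x)) := by
      rw [← map_sum_eq hΨ]
      exact (Ψ.continuous.tendsto _).comp h
    have e2 : Tendsto (fun t => Ψ (a t • i (y t))) l (𝓝 0) := by
      refine squeeze_zero (f := fun t => Ψ (a t • i (y t))) (g := a) ?_ ?_ h3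
      · intro t
        rw [map_smul, hΨ]
        exact mul_nonneg (ha t).1 (hψ1 _).1
      · intro t
        rw [map_smul, hΨ]
        exact mul_le_of_le_one_right (ha t).1 (hψ1 _).2
    exact tendsto_nhds_unique e1 e2
  have h5 : c = 0 := by
    ext z0
    by_contra hz0
    have hz0' : z0 ∈ c.support := by simpa using hz0
    obtain ⟨ψ, hψ, hψ01, hψF, hψ1⟩ := sepfun (c.support.erase z0) (fun _ => {z0}ᶜ) (by
      intro z hz
      exact isOpen_compl_singleton.mem_nhds (by simpa using Finset.ne_of_mem_erase hz))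
    have := h4 ψ hψ hψ01
    rw [Finsupp.sum, ← Finset.add_sum_erase _ _ hz0', Finset.sum_eq_zero, add_zero, hψ1, mul_one]
      at this
    · exact hz0 (by simpa using this)
    · intro z hz; simp
    · intro z hz
      simp [hψF z hz]
  simp [h5]

/-- the points of `X` occurring with coefficient one -/
lemma compactK' (hV : IsFreeTVS i) {K : Set V} (hK : IsCompact K) :
    IsCompact {x : X | ∃ a ∈ Set.Icc (0:ℝ) (1/2), ∃ y, a • i y + i x ∈ K} := by
  classical
  obtain ⟨_, _, _, hi, _⟩ := id hV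
  rw [isCompact_iff_ultrafilter_le_nhds]
  intro l hl
  rw [Filter.le_principal_iff] at hl
  set K' : Set X := {x : X | ∃ a ∈ Set.Icc (0:ℝ) (1/2), ∃ y, a • i y + i x ∈ K} with hK'
  have hex : ∀ x : X, ∃ a ∈ Set.Icc (0:ℝ) (1/2), ∃ y, x ∈ K' → a • i y + i x ∈ K := by
    intro x
    by_cases hx : x ∈ K'
    · obtain ⟨a, ha, y, hy⟩ := hx
      exact ⟨a, ha, y, fun _ => hy⟩
    · exact ⟨0, by norm_num, x, fun h => absurd h hx⟩
  choose a ha y hy using hex
  obtain ⟨v, hv, hlv⟩ := isCompact_iff_ultrafilter_le_nhds.1 hK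
    (l.map (fun x => a x • i (y x) + i x)) (by
      rw [Filter.le_principal_iff]
      refine Filter.mem_map.2 ?_
      filter_upwards [hl] with x hx
      exact hy x hx)
  have hlv' : Tendsto (fun x => a x • i (y x) + i x) l (𝓝 v) := hlv
  obtain ⟨x0, hx0⟩ := cluster hV l a (fun t => (ha t).1) y (fun x => x) v hlv'
  refine ⟨x0, ?_, hx0⟩
  have h2 : Tendsto (fun x => a x • i (y x)) l (𝓝 (v - i x0)) := by
    have := hlv'.sub ((hi.tendsto _).comp hx0)
    simpa using this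
  obtain ⟨b, hb, y0, hby⟩ := cluster2 hV l a ha y _ h2
  refine ⟨b, hb, y0, ?_⟩
  rw [← hby]
  simpa using hv

lemma compact_preimage (hV : IsFreeTVS i) {K : Set V} (hK : IsCompact K) :
    IsCompact (i ⁻¹' K) := by
  obtain ⟨_, _, _, hi, _⟩ := id hV
  rw [isCompact_iff_ultrafilter_le_nhds]
  intro l hl
  rw [Filter.le_principal_iff] at hl
  obtain ⟨v, hv, hlv⟩ := isCompact_iff_ultrafilter_le_nhds.1 hK
    (l.map i) (by
      rw [Filter.le_principal_iff]
      exact Filter.mem_map.2 hl)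
  have hlv'' : Tendsto i l (𝓝 v) := hlv
  have hlv' : Tendsto (fun x => (0:ℝ) • i x + i x) l (𝓝 v) := by
    simpa using hlv''
  obtain ⟨x0, hx0⟩ := cluster hV l (fun _ => 0) (fun t => le_rfl) (fun x => x) (fun x => x) v hlv'
  refine ⟨x0, ?_, hx0⟩
  have : v = i x0 := tendsto_nhds_unique (hlv : Tendsto i l (𝓝 v)) ((hi.tendsto _).comp hx0)
  show i x0 ∈ K
  rw [← this]; exact hv

lemma inj (hV : IsFreeTVS i) : Function.Injective i := by
  intro x y hxy
  by_contra hne
  obtain ⟨φ, hφ, -, hφF, hφ1⟩ := sepfun {x} (fun _ => {y}ᶜ) (by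
      intro z hz
      simp only [Finset.mem_singleton] at hz
      subst hz
      exact isOpen_compl_singleton.mem_nhds (by simpa using hne))
  obtain ⟨Φ, hΦ⟩ := ext_real hV φ hφ
  have h1 := hφF x (by simp)
  have h2 := hφ1 y (by intro z _; simp)
  have := hΦ x
  rw [hxy, hΦ y] at this
  linarith

/-- the criterion -/
lemma crit (hV : IsFreeTVS i) (h2 : IsKSpace (sp i 2)) {Z : Set V} (hZ : Z ⊆ sp i 2)
    (hZK : ∀ K : Set V, IsCompact K → IsClosed (Z ∩ K)) {v : V} (hv : v ∈ sp i 2)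
    (hvZ : v ∈ closure Z) : v ∈ Z := by
  have hcl : IsClosed ((Subtype.val : sp i 2 → V) ⁻¹' Z) := by
    apply h2.closed
    intro K hK
    have e : ((Subtype.val : sp i 2 → V) ⁻¹' Z) ∩ K
        = (Subtype.val : sp i 2 → V) ⁻¹' (Z ∩ (Subtype.val '' K)) := by
      ext x
      simp
    rw [e]
    exact (hZK _ (hK.image continuous_subtype_val)).preimage continuous_subtype_val
  have e2 : (Subtype.val : sp i 2 → V) '' ((Subtype.val : sp i 2 → V) ⁻¹' Z) = Z := by
    rw [Set.image_preimage_eq_iff]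
    intro z hz
    exact ⟨⟨z, hZ hz⟩, rfl⟩
  have : (⟨v, hv⟩ : sp i 2) ∈ closure ((Subtype.val : sp i 2 → V) ⁻¹' Z) := by
    rw [closure_subtype, e2]
    exact hvZ
  rw [hcl.closure_eq] at this
  exact this

lemma mem_sp {a b : ℝ} (ha : a ∈ Set.Icc (0:ℝ) 1) (hb : b ∈ Set.Icc (0:ℝ) 1) (x y : X) :
    a • i x + b • i y ∈ sp i 2 := by
  refine ⟨![a, b], ![x, y], ?_, ?_⟩
  · intro j
    fin_cases j
    · simp only [Set.mem_Icc] at *
      simp
      constructor <;> linarith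
    · simp only [Set.mem_Icc] at *
      simp
      constructor <;> linarith
  · simp [Fin.sum_univ_two]

lemma mem_sp' {a : ℝ} (ha : a ∈ Set.Icc (0:ℝ) 1) (x y : X) :
    a • i x + i y ∈ sp i 2 := by
  have := mem_sp (i := i) ha (b := 1) (by norm_num) x y
  simpa using this

lemma mem_sp_one (x : X) : i x ∈ sp i 2 := by
  have := mem_sp' (i := i) (a := 0) (by norm_num) x x
  simpa using this

/-- C1 -/
lemma isKSpace_X (hV : IsFreeTVS i) (h2 : IsKSpace (sp i 2)) {B : Set X}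
    (hB : ∀ K, IsCompact K → IsClosed (B ∩ K)) : IsClosed B := by
  obtain ⟨_, _, _, hi, _⟩ := id hV
  have hsub : i '' B ⊆ sp i 2 := by
    rintro _ ⟨x, _, rfl⟩
    exact mem_sp_one x
  have hK : ∀ K : Set V, IsCompact K → IsClosed (i '' B ∩ K) := by
    intro K hK
    have hc := compact_preimage hV hK
    have hc2 : IsCompact (B ∩ i ⁻¹' K) := by
      have := hc.inter_right (hB _ hc)
      rwa [Set.inter_comm, Set.inter_assoc, Set.inter_self] at this
    have := (hc2.image hi).isClosed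
    rwa [Set.image_inter_preimage] at this
  rw [← closure_subset_iff_isClosed]
  intro x hx
  have h3 : i x ∈ closure (i '' B) := image_closure_subset_closure_image hi ⟨x, hx, rfl⟩
  obtain ⟨y, hy, hyx⟩ := crit hV h2 hsub hK (mem_sp_one x) h3
  rwa [← inj hV hyx]

end

end Pool.Agent.H88.KS
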