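import Pool.Agent.H88.KSStar

open Topology Filter Set Pointwise

universe u v

set_option linter.unusedSectionVars false
set_option linter.unusedVariables false

namespace Pool.Agent.H88.KS

section
variable {X : Type u} [TopologicalSpace X] [T35Space X] {V : Type u} [AddCommGroup V] [Module ℝ V]
  [TopologicalSpace V] {i : X → V} {M : Type v} [MetricSpace M] {f : M → X} {s : X → M}

lemma countable_iff_lt_aleph_one {X : Type u} (D : Set X) :
    D.Countable ↔ Cardinal.mk D < Cardinal.aleph 1 := by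
  rw [← Cardinal.le_aleph0_iff_set_countable, ← Cardinal.succ_aleph0, Order.lt_succ_iff]

lemma exists_aleph_one {X : Type u} {D : Set X} (hD : ¬ D.Countable) :
    ∃ D1 : Set X, D1 ⊆ D ∧ ¬ D1.Countable ∧ ∃ r : D1 → (ℕ → Bool), Function.Injective r := by
  have h1 : Cardinal.aleph 1 ≤ Cardinal.mk D := by
    rw [← not_lt, ← countable_iff_lt_aleph_one]
    exact hD
  obtain ⟨D1, hD1, hc⟩ := Cardinal.le_mk_iff_exists_subset.1 h1
  refine ⟨D1, hD1, ?_, ?_⟩
  · rw [countable_iff_lt_aleph_one, hc]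
    exact lt_irrefl _
  · have h2 : Cardinal.lift.{0} (Cardinal.mk D1) ≤ Cardinal.lift.{u} (Cardinal.mk (ℕ → Bool)) := by
      rw [hc]
      simp only [Cardinal.mk_pi, Cardinal.mk_bool, Cardinal.prod_const, Cardinal.lift_id,
        Cardinal.mk_nat, Cardinal.lift_ofNat, Cardinal.lift_aleph0, Cardinal.lift_power]
      simp only [Cardinal.two_power_aleph0]
      simpa using Cardinal.aleph_one_le_continuum
    obtain ⟨r⟩ := Cardinal.lift_mk_le'.1 h2
    exact ⟨r, r.injective⟩

/-- I -/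
lemma lemI (hV : IsFreeTVS i) (h2 : IsKSpace (sp i 2)) (hf : Continuous f)
    (hfs : ∀ x, f (s x) = x) (hs : ∀ K : Set X, IsCompact K → IsCompact (closure (s '' K)))
    {D : Set X} (hD : ∀ K, IsCompact K → (D ∩ K).Finite) : D.Countable := by
  classical
  obtain ⟨hg, hm, ht, hi, -⟩ := id hV
  by_contra hcon
  obtain ⟨D1, hD1, hunc, r, hr⟩ := exists_aleph_one hcon
  let n : D1 → D1 → ℕ := fun a b => PiNat.firstDiff (r a) (r b)
  let z : D1 → D1 → V := fun a b => ((1:ℝ)/(n a b + 1)) • (i a + i b)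
  let A : Set V := {v | ∃ a b : D1, a ≠ b ∧ v = z a b}
  have hDne : Nonempty D1 := by
    by_contra hne
    rw [not_nonempty_iff] at hne
    exact hunc (Set.countable_coe_iff.1 inferInstance)
  obtain ⟨a0⟩ := hDne
  have hzero : (0:V) ∈ sp i 2 := by
    have := mem_sp (i := i) (a := 0) (b := 0) (by norm_num) (by norm_num) (a0 : X) (a0 : X)
    simpa using this
  have hAsub : A ⊆ sp i 2 := by
    rintro _ ⟨a, b, -, rfl⟩
    simp only [z, smul_add]
    have h1 : (1:ℝ)/(n a b + 1) ∈ Set.Icc (0:ℝ) 1 := by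
      refine ⟨by positivity, ?_⟩
      rw [div_le_one (by positivity)]
      have : (0:ℝ) ≤ (n a b : ℝ) := Nat.cast_nonneg _
      linarith
    exact mem_sp h1 h1 _ _
  have hAcl : (0:V) ∈ closure A := by
    rw [mem_closure_iff_nhds]
    intro W hW
    obtain ⟨W', hW', hWW⟩ := exists_nhds_zero_half hW
    have hk : ∀ a : D1, ∃ k : ℕ, ∀ n ≥ k, ((1:ℝ)/((n:ℝ)+1)) • i a ∈ W' := by
      intro a
      have e1 : Tendsto (fun n : ℕ => ((1:ℝ)/(n+1)) • i (a : X)) atTop (𝓝 0) := by
        have := (tendsto_one_div_add_atTop_nhds_zero_nat (𝕜 := ℝ)).smul_const (i (a:X))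
        simpa using this
      exact eventually_atTop.1 (e1 hW')
    choose k hk using hk
    have hex : ∃ k0, {a | k a = k0}.Infinite := by
      by_contra hcon
      push Not at hcon
      apply hunc
      rw [← Set.countable_coe_iff, ← Set.countable_univ_iff]
      have : (Set.univ : Set D1) = ⋃ k0, {a | k a = k0} := by
        ext a; simp
      rw [this]
      refine Set.countable_iUnion fun k0 => (hcon k0).countable
    obtain ⟨k0, hk0⟩ := hex
    obtain ⟨a, ha, b, hb, hab, hrab⟩ := hk0.exists_ne_map_eq_of_mapsTo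
      (f := fun a => fun m : Fin k0 => r a m) (t := Set.univ) (fun _ _ => Set.mem_univ _)
      (Set.finite_univ)
    refine ⟨z a b, ?_, a, b, hab, rfl⟩
    have hn : k0 ≤ n a b := by
      by_contra hlt
      push Not at hlt
      have hne : r a ≠ r b := fun h => hab (hr h)
      have h1 := PiNat.apply_firstDiff_ne hne
      exact h1 (congrFun hrab ⟨_, hlt⟩)
    simp only [z, smul_add]
    apply hWW
    · exact hk a _ (by rw [show k a = k0 from ha]; exact hn)
    · exact hk b _ (by rw [show k b = k0 from hb]; exact hn)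
  have hAK : ∀ K : Set V, IsCompact K → IsClosed (A ∩ K) := by
    intro K hK
    apply Set.Finite.isClosed
    by_contra hinf
    let D2 : Set D1 := {a | ∃ b, a ≠ b ∧ z a b ∈ K}
    have hD2 : D2.Infinite := by
      intro hfin
      apply hinf
      refine ((hfin.prod hfin).image (fun p => z p.1 p.2)).subset ?_
      rintro _ ⟨⟨a, b, hab, rfl⟩, hK'⟩
      refine ⟨(a, b), ⟨⟨b, hab, hK'⟩, ⟨a, hab.symm, ?_⟩⟩, rfl⟩
      have : z b a = z a b := by
        simp only [z, n]
        rw [PiNat.firstDiff_comm, add_comm (i (b:X))]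
      rw [this]
      exact hK'
    let w : ℕ → D1 := fun k => (hD2.natEmbedding _ k : D2)
    have hwinj : Function.Injective w := by
      intro a b hab
      exact (hD2.natEmbedding _).injective (Subtype.ext hab)
    have hwD2 : ∀ k, w k ∈ D2 := fun k => (hD2.natEmbedding _ k).2
    choose b hwb hbK using hwD2
    have hwfin : KFin (fun k => (w k : X)) := by
      intro K' hK'
      have h1 := hD K' hK'
      have h3 : Function.Injective (fun k => (w k : X)) := fun a b h => hwinj (Subtype.ext h)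
      refine (h1.preimage (h3.injOn)).subset ?_
      intro k hk
      exact ⟨hD1 (w k).2, hk⟩
    obtain ⟨φ, hφ, hφ0, hφinf⟩ := lemS hV h2 hf hfs hs hwfin
      (fun k => (k:ℝ) * ((n (w k) (b k) : ℝ) + 1))
    obtain ⟨Φ, hΦ⟩ := ext_real hV φ hφ
    obtain ⟨C, hC⟩ := (hK.image Φ.continuous).bddAbove
    obtain ⟨N, hN⟩ := exists_nat_gt C
    obtain ⟨k, hk, hkN⟩ := hφinf.exists_gt N
    have h4 : Φ (z (w k) (b k)) ≤ C := hC ⟨_, hbK k, rfl⟩
    simp only [z, map_smul, map_add, hΦ, smul_eq_mul] at h4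
    have h5 : (k:ℝ) * ((n (w k) (b k) : ℝ) + 1) ≤ φ (w k) := hk
    have h6 := hφ0 (b k)
    have h7 : (k:ℝ) ≤ 1 / ((n (w k) (b k) : ℝ) + 1) * (φ (w k) + φ (b k)) := by
      rw [one_div, inv_mul_eq_div, le_div_iff₀ (by positivity)]
      linarith
    have h8 : (N:ℝ) < k := by exact_mod_cast hkN
    linarith
  have h0A := crit hV h2 hAsub hAK hzero hAcl
  obtain ⟨a, b, hab, h0⟩ := h0A
  obtain ⟨Φ, hΦ⟩ := exists_one hV
  have := congrArg Φ h0
  simp only [z, map_smul, map_add, hΦ, map_zero, smul_eq_mul] at this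
  have hpos : (0:ℝ) < 1/((n a b:ℝ)+1) * (1 + 1) := by positivity
  linarith

/-- J -/
lemma lemJ (hV : IsFreeTVS i) (h2 : IsKSpace (sp i 2)) (hf : Continuous f)
    (hfs : ∀ x, f (s x) = x) (hs : ∀ K : Set X, IsCompact K → IsCompact (closure (s '' K))) :
    ∃ t ⊆ range s, t.Countable ∧ range s ⊆ closure t := by
  apply UniformSpace.subset_countable_closure_of_almost_dense_set
  intro U hU
  obtain ⟨ε, hε, hεU⟩ := Metric.mem_uniformity_dist.1 hU
  let P : Set (Set M) := {T | T ⊆ range s ∧ ∀ a ∈ T, ∀ b ∈ T, a ≠ b → ε ≤ dist a b}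
  obtain ⟨T, hT⟩ := zorn_subset P (by
    intro c hc hchain
    refine ⟨⋃₀ c, ⟨?_, ?_⟩, fun T hT => Set.subset_sUnion_of_mem hT⟩
    · exact Set.sUnion_subset fun T hT => (hc hT).1
    · rintro a ⟨T1, hT1, ha⟩ b ⟨T2, hT2, hb⟩ hab
      rcases hchain.total hT1 hT2 with h | h
      · exact (hc hT2).2 a (h ha) b hb hab
      · exact (hc hT1).2 a ha b (h hb) hab)
  refine ⟨T, ?_, ?_⟩
  · have hTs : T = s '' (s ⁻¹' T) := by
      rw [Set.image_preimage_eq_iff.2 hT.prop.1]
    rw [hTs]
    apply Set.Countable.image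
    apply lemI hV h2 hf hfs hs
    intro K hK
    by_contra hinf
    have hinf' : (s ⁻¹' T ∩ K).Infinite := hinf
    let w : ℕ → X := fun k => (hinf'.natEmbedding _ k : (s ⁻¹' T ∩ K : Set X))
    have hwinj : Function.Injective w := by
      intro a b hab
      exact (hinf'.natEmbedding _).injective (Subtype.ext hab)
    have hw : ∀ k, w k ∈ s ⁻¹' T ∩ K := fun k => (hinf'.natEmbedding _ k).2
    obtain ⟨b, hb, τ, hτ, hlimb⟩ := (hs K hK).tendsto_subseq
        (x := fun n => s (w n)) (fun n => subset_closure ⟨_, (hw n).2, rfl⟩)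
    have hcau := hlimb.cauchySeq
    obtain ⟨N, hN⟩ := Metric.cauchySeq_iff.1 hcau ε hε
    have h1 := hN N le_rfl (N+1) (by omega)
    have h3 : s (w (τ N)) ≠ s (w (τ (N+1))) := by
      intro h
      have := congrArg f h
      rw [hfs, hfs] at this
      have := hτ.injective (hwinj this)
      omega
    have h4 := hT.prop.2 _ (hw (τ N)).1 _ (hw (τ (N+1))).1 h3
    simp only [Function.comp] at h1
    linarith
  · intro y hy
    by_contra hcon
    have hcon : ∀ a ∈ T, ε ≤ dist a y := by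
      intro a ha
      by_contra h
      push Not at h
      apply hcon
      simp only [Set.mem_iUnion]
      exact ⟨a, ha, hεU h⟩
    have hyT : y ∉ T := by
      intro h
      have := hcon y h
      rw [dist_self] at this
      linarith
    have hins : insert y T ∈ P := by
      refine ⟨Set.insert_subset hy hT.prop.1, ?_⟩
      rintro a (rfl | ha) b (rfl | hb) hab
      · exact absurd rfl hab
      · rw [dist_comm]; exact hcon b hb
      · exact hcon a ha
      · exact hT.prop.2 a ha b hb hab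
    exact hyT (hT.le_of_ge hins (Set.subset_insert _ _) (Set.mem_insert _ _))

/-- TT -/
lemma lemTT (hV : IsFreeTVS i) (h2 : IsKSpace (sp i 2)) (hf : Continuous f)
    (hfs : ∀ x, f (s x) = x) (hs : ∀ K : Set X, IsCompact K → IsCompact (closure (s '' K)))
    {K : Set X} (hK : IsCompact K) {e : ℕ → ℕ → X} (he : ∀ j, KFin (e j))
    (hU : ∀ U, IsOpen U → K ⊆ U → ∃ j0, ∀ j ≥ j0, ∀ l, e j l ∈ U) : False := by
  classical
  obtain ⟨hg, hm, ht, hi, -⟩ := id hV
  let x : ℕ → X := fun j => e 0 j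
  let z : ℕ × ℕ → V := fun p => ((1:ℝ)/(p.2+2)) • i (x p.1) + i (e p.1 p.2)
  have hsub : Set.range z ⊆ sp i 2 := by
    rintro _ ⟨⟨j, l⟩, rfl⟩
    refine mem_sp' ⟨by positivity, ?_⟩ _ _
    rw [div_le_one (by positivity)]
    have : (0:ℝ) ≤ l := Nat.cast_nonneg l
    linarith
  have hfin : ∀ K : Set V, IsCompact K → IsClosed (Set.range z ∩ K) := by
    intro K hK
    apply Set.Finite.isClosed
    have hK' := compactK' hV hK
    set K' := {x : X | ∃ a ∈ Set.Icc (0:ℝ) (1/2), ∃ y, a • i y + i x ∈ K} with hK'def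
    have hmem : ∀ j l : ℕ, z (j, l) ∈ K → e j l ∈ K' := by
      intro j l h
      refine ⟨(1:ℝ)/(l+2), ⟨by positivity, ?_⟩, x j, h⟩
      rw [div_le_div_iff₀ (by positivity) (by norm_num)]
      have : (0:ℝ) ≤ l := Nat.cast_nonneg l
      linarith
    have hJ : {j | ∃ l, z (j, l) ∈ K}.Finite := by
      by_contra hinf
      have hinf' : {j | ∃ l, z (j, l) ∈ K}.Infinite := hinf
      obtain ⟨σ, hσ, hσK⟩ := Filter.extraction_of_frequently_atTop
        (Nat.frequently_atTop_iff_infinite.2 hinf')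
      choose l hl using hσK
      have hwfin : KFin (fun k => x (σ k)) := by
        intro K' hK'
        exact Set.Finite.preimage (f := σ) hσ.injective.injOn (he 0 K' hK')
      obtain ⟨φ, hφ, hφ0, hφinf⟩ := lemS hV h2 hf hfs hs hwfin
        (fun k => (k:ℝ) * ((l k : ℝ) + 2))
      obtain ⟨Φ, hΦ⟩ := ext_real hV φ hφ
      obtain ⟨C, hC⟩ := (hK.image Φ.continuous).bddAbove
      obtain ⟨N, hN⟩ := exists_nat_gt C
      obtain ⟨k, hk, hkN⟩ := hφinf.exists_gt N
      have h4 : Φ (z (σ k, l k)) ≤ C := hC ⟨_, hl k, rfl⟩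
      simp only [z, map_smul, map_add, hΦ, smul_eq_mul] at h4
      have h5 : (k:ℝ) * ((l k : ℝ) + 2) ≤ φ (x (σ k)) := hk
      have h6 := hφ0 (e (σ k) (l k))
      have h7 : (k:ℝ) ≤ 1 / ((l k : ℝ) + 2) * φ (x (σ k)) := by
        rw [one_div, inv_mul_eq_div, le_div_iff₀ (by positivity)]
        linarith
      have h8 : (N:ℝ) < k := by exact_mod_cast hkN
      linarith
    have hp : {p | z p ∈ K}.Finite := by
      refine (hJ.biUnion fun j _ => ((he j K' hK').image (fun l => (j, l)))).subset ?_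
      rintro ⟨j, l⟩ hjl
      simp only [Set.mem_iUnion]
      exact ⟨j, ⟨l, hjl⟩, l, hmem j l hjl, rfl⟩
    refine (hp.image z).subset ?_
    rintro _ ⟨⟨p, rfl⟩, hp⟩
    exact ⟨p, hp, rfl⟩
  have hcl : ∃ q ∈ K, i q ∈ closure (Set.range z) := by
    by_contra hcon
    push Not at hcon
    have hKU : i '' K ⊆ (closure (Set.range z))ᶜ := by
      rintro _ ⟨q, hq, rfl⟩
      exact hcon q hq
    obtain ⟨W, hW, hKW⟩ := compact_open_separated_add_right (hK.image hi)
      isClosed_closure.isOpen_compl hKU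
    obtain ⟨W', hW'o, hW', hWW⟩ := exists_open_nhds_zero_half hW
    obtain ⟨j0, hj0⟩ := hU (i ⁻¹' (i '' K + W')) ((hW'o.add_left).preimage hi) (by
      intro q hq
      exact Set.mem_add.2 ⟨i q, ⟨q, hq, rfl⟩, 0, hW', add_zero _⟩)
    have e1 : Tendsto (fun l : ℕ => ((1:ℝ)/(l+2)) • i (x j0)) atTop (𝓝 0) := by
      have h1 : Tendsto (fun l : ℕ => (1:ℝ)/(l+2)) atTop (𝓝 0) := by
        have := (tendsto_one_div_add_atTop_nhds_zero_nat (𝕜 := ℝ)).comp (tendsto_add_atTop_nat 1)
        refine this.congr ?_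
        intro l
        simp only [Function.comp]
        push_cast
        ring_nf
      have := h1.smul_const (i (x j0))
      simpa using this
    obtain ⟨l, hl⟩ := (e1.eventually (hW'o.mem_nhds hW')).exists
    obtain ⟨_, ⟨q, hq, rfl⟩, w, hw, hqw⟩ := Set.mem_add.1 (hj0 j0 le_rfl l)
    have h3 : z (j0, l) ∈ i '' K + W := by
      refine Set.mem_add.2 ⟨i q, ⟨q, hq, rfl⟩, w + ((1:ℝ)/(l+2)) • i (x j0), hWW _ hw _ hl, ?_⟩
      simp only [z]
      rw [← add_assoc, hqw]
      abel
    exact hKW h3 (subset_closure ⟨_, rfl⟩)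
  obtain ⟨q, hq, hqcl⟩ := hcl
  obtain ⟨⟨j, l⟩, hjl⟩ := crit hV h2 hsub hfin (mem_sp_one q) hqcl
  obtain ⟨Φ, hΦ⟩ := exists_one hV
  have := congrArg Φ hjl
  simp only [z, map_add, map_smul, hΦ, smul_eq_mul, mul_one] at this
  have hpos : (0:ℝ) < 1/((l:ℝ)+2) := by positivity
  linarith

end

end Pool.Agent.H88.KS
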