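import Mathlib

open Topology Filter Set

universe u v

namespace Pool.Agent.H88.KS

/-- `X` is a `k`-space: a set is closed as soon as its trace on every compact set `K`
is closed in `K`. -/
def IsKSpace (X : Type*) [TopologicalSpace X] : Prop :=
  ∀ C : Set X, (∀ K : Set X, IsCompact K → IsClosed ((Subtype.val : K → X) ⁻¹' C)) → IsClosed C

/-- `X` is a `k_ω`-space: there are countably many compact sets `K 0, K 1, ...` such that a set
is closed as soon as its trace on every `K n` is closed in `K n`. -/
def IsKOmegaSpace (X : Type*) [TopologicalSpace X] : Prop :=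
  ∃ K : ℕ → Set X, (∀ n, IsCompact (K n)) ∧
    ∀ F : Set X, (∀ n, IsClosed ((Subtype.val : K n → X) ⁻¹' F)) → IsClosed F

/-- `X` is `k^*`-metrizable: it is Hausdorff and there are a metrizable space `M`, a continuous
surjection `f : M → X` and a map `s : X → M` with `f ∘ s = id` such that `s(K)` has compact closure
in `M` for every compact `K ⊆ X`. -/
def IsKStarMetrizable (X : Type u) [TopologicalSpace X] : Prop :=
  T2Space X ∧ ∃ (M : Type v) (_ : TopologicalSpace M) (f : M → X) (s : X → M),
    TopologicalSpace.MetrizableSpace M ∧ Continuous f ∧ Function.Surjective f ∧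
      (∀ x, f (s x) = x) ∧ ∀ K : Set X, IsCompact K → IsCompact (closure (s '' K))

/-- `(V, i)` is the free topological vector space over `X`: `V` is a Hausdorff real topological
vector space, `i : X → V` is continuous and every continuous map `g` of `X` to a Hausdorff real
topological vector space `E` is `L ∘ i` for a unique continuous linear `L : V → E`. -/
def IsFreeTVS {X : Type u} [TopologicalSpace X] {V : Type u} [AddCommGroup V] [Module ℝ V]
    [TopologicalSpace V] (i : X → V) : Prop :=
  IsTopologicalAddGroup V ∧ ContinuousSMul ℝ V ∧ T2Space V ∧ Continuous i ∧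
    ∀ (E : Type u) [AddCommGroup E] [Module ℝ E] [TopologicalSpace E] [IsTopologicalAddGroup E]
      [ContinuousSMul ℝ E] [T2Space E] (g : X → E), Continuous g →
        ∃! L : V →L[ℝ] E, ∀ x, L (i x) = g x

/-- `sp_n(X) = {λ₁ x₁ + ⋯ + λₙ xₙ : λⱼ ∈ [-n, n], xⱼ ∈ X} ⊆ V(X)`. -/
def sp {X V : Type*} [AddCommGroup V] [Module ℝ V] (i : X → V) (n : ℕ) : Set V :=
  {v | ∃ (c : Fin n → ℝ) (x : Fin n → X), (∀ j, c j ∈ Set.Icc (-(n : ℝ)) n) ∧
    v = ∑ j, c j • i (x j)}

end Pool.Agent.H88.KS
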