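import Pool.Agent.H88.KSBasic

open Topology Filter Set

universe u v

namespace Pool.Agent.H88.KS

/-- sanity check: free topological vector spaces over Tychonoff spaces exist -/
theorem exists_free (X : Type u) [TopologicalSpace X] [T35Space X] :
    ∃ (V : Type u) (_ : AddCommGroup V) (_ : Module ℝ V) (_ : TopologicalSpace V) (i : X → V),
      IsFreeTVS i := by
  classical
  let V := X →₀ ℝ
  let i : X → V := fun x => Finsupp.single x 1
  let T : Set (TopologicalSpace V) :=
    {t | @IsTopologicalAddGroup V t _ ∧ @ContinuousSMul ℝ V _ _ t ∧ @Continuous X V _ t i}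
  -- topologies induced by linear maps
  have key : ∀ (E : Type u) [AddCommGroup E] [Module ℝ E] [tE : TopologicalSpace E]
      [IsTopologicalAddGroup E] [ContinuousSMul ℝ E] (g : X → E), Continuous g →
      TopologicalSpace.induced (Finsupp.linearCombination ℝ g) tE ∈ T := by
    intro E _ _ tE _ _ g hg
    refine ⟨topologicalAddGroup_induced _, continuousSMul_induced _, ?_⟩
    rw [continuous_induced_rng]
    have : (⇑(Finsupp.linearCombination ℝ g) ∘ i) = g := by
      ext x
      simp [i]
    rw [this]
    exact hg
  let τ : TopologicalSpace V := sInf T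
  have h1 : @IsTopologicalAddGroup V τ _ := topologicalAddGroup_sInf fun t ht => ht.1
  have h2 : @ContinuousSMul ℝ V _ _ τ := continuousSMul_sInf fun t ht => ht.2.1
  have h3 : @Continuous X V _ τ i := continuous_sInf_rng.2 fun t ht => ht.2.2
  have hcont : ∀ (E : Type u) [AddCommGroup E] [Module ℝ E] [tE : TopologicalSpace E]
      [IsTopologicalAddGroup E] [ContinuousSMul ℝ E] (g : X → E), Continuous g →
      @Continuous V E τ tE (Finsupp.linearCombination ℝ g) := by
    intro E _ _ tE _ _ g hg
    rw [continuous_iff_le_induced]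
    exact sInf_le (key E g hg)
  have h4 : @T2Space V τ := by
    refine ⟨?_⟩
    intro v w hvw
    have hc : v - w ≠ 0 := sub_ne_zero.2 hvw
    obtain ⟨z0, hz0⟩ := Finsupp.ne_iff.1 hc
    simp only [Finsupp.coe_zero, Pi.zero_apply] at hz0
    obtain ⟨φ, hφ, -, hφF, hφ1⟩ := sepfun ((v - w).support.erase z0) (fun _ => {z0}ᶜ) (by
      intro z hz
      exact isOpen_compl_singleton.mem_nhds (by simpa using Finset.ne_of_mem_erase hz))
    have h5 := hcont (PUnit.{u+1} → ℝ) (fun x _ => φ x) (by fun_prop)
    refine @separated_by_continuous V (PUnit.{u+1} → ℝ) τ _ _ _ h5 v w ?_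
    intro heq
    have h6 : Finsupp.linearCombination ℝ (fun x (_ : PUnit.{u+1}) => φ x) (v - w) = 0 := by
      rw [map_sub, heq, sub_self]
    have h7 := congrFun h6 PUnit.unit
    rw [Finsupp.linearCombination_apply, Finsupp.sum,
      ← Finset.add_sum_erase _ _ (Finsupp.mem_support_iff.2 hz0), Finset.sum_eq_zero, add_zero] at h7
    · have h8 : φ z0 = 1 := hφ1 z0 (by intro z _; simp)
      simp only [Pi.smul_apply, smul_eq_mul, h8, mul_one, Pi.zero_apply] at h7
      exact hz0 h7
    · intro z hz
      ext
      simp [hφF z hz]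
  refine ⟨V, inferInstance, inferInstance, τ, i, h1, h2, h4, h3, ?_⟩
  intro E _ _ _ _ _ _ g hg
  refine ⟨⟨Finsupp.linearCombination ℝ g, hcont E g hg⟩, ?_, ?_⟩
  · intro x
    show Finsupp.linearCombination ℝ g (Finsupp.single x 1) = g x
    rw [Finsupp.linearCombination_single, one_smul]
  · intro L hL
    have h9 : (L : V →ₗ[ℝ] E) = Finsupp.linearCombination ℝ g := by
      apply Finsupp.lhom_ext
      intro x b
      have h10 : (Finsupp.single x b : V) = b • i x := by
        show Finsupp.single x b = b • (Finsupp.single x 1 : X →₀ ℝ)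
        rw [Finsupp.smul_single, smul_eq_mul, mul_one]
      rw [h10, map_smul, map_smul]
      congr 1
      show L (i x) = Finsupp.linearCombination ℝ g (Finsupp.single x 1)
      rw [hL x, Finsupp.linearCombination_single, one_smul]
    apply ContinuousLinearMap.coe_injective
    exact h9

end Pool.Agent.H88.KS
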