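import Pool.Agent.H88.KSBasic

open Topology Filter Set Pointwise

universe u v

set_option linter.unusedSectionVars false
set_option linter.unusedVariables false

namespace Pool.Agent.H88.KS

/-- open in the final topology with respect to a sequence of subsets -/
def KOpen {Y : Type*} [TopologicalSpace Y] (K : ℕ → Set Y) (U : Set Y) : Prop :=
  ∀ n, ∀ p ∈ U, p ∈ K n → U ∈ 𝓝[K n] p

section prod

variable {Y Z : Type*} [TopologicalSpace Y] [T2Space Y] [TopologicalSpace Z] [T2Space Z]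

lemma enlarge {A K G : Set Y} (hA : IsCompact A) (hK : IsCompact K) (hAK : A ⊆ K) (hG : IsOpen G)
    (hAG : A ⊆ G) : ∃ A', IsCompact A' ∧ A' ⊆ K ∧ A' ⊆ G ∧ ∀ p ∈ A, A' ∈ 𝓝[K] p := by
  have hc : IsCompact (K \ G) := hK.diff hG
  have hd : Disjoint A (K \ G) := by
    rw [Set.disjoint_left]
    intro x hx hx'
    exact hx'.2 (hAG hx)
  obtain ⟨G1, G2, hG1, hG2, hAG1, hKG2, hdis⟩ :=
    SeparatedNhds.of_isCompact_isCompact hA hc hd
  refine ⟨K \ G2, hK.diff hG2, Set.sdiff_subset, ?_, ?_⟩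
  · rintro x ⟨hx, hx2⟩
    by_contra h
    exact hx2 (hKG2 ⟨hx, h⟩)
  · intro p hp
    have h1 : G1 ∈ 𝓝 p := hG1.mem_nhds (hAG1 hp)
    rw [mem_nhdsWithin_iff_exists_mem_nhds_inter]
    refine ⟨G1, h1, ?_⟩
    rintro x ⟨hx1, hx2⟩
    exact ⟨hx2, fun h => Set.disjoint_left.1 hdis hx1 h⟩

lemma prod_step {A K K' : Set Y} {B L L' : Set Z} (hA : IsCompact A) (hB : IsCompact B)
    (hAK : A ⊆ K') (hBL : B ⊆ L') (hK : IsCompact K') (hL : IsCompact L') {W : Set (Y × Z)}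
    (hW : ∀ q ∈ W, q ∈ K' ×ˢ L' → W ∈ 𝓝[K' ×ˢ L'] q) (hAB : A ×ˢ B ⊆ W) :
    ∃ A' B', IsCompact A' ∧ IsCompact B' ∧ A' ⊆ K' ∧ B' ⊆ L' ∧ A' ×ˢ B' ⊆ W ∧
      (∀ p ∈ A, A' ∈ 𝓝[K'] p) ∧ (∀ p ∈ B, B' ∈ 𝓝[L'] p) := by
  let N : Set (Y × Z) := interior (W ∪ (K' ×ˢ L')ᶜ)
  have hAN : A ×ˢ B ⊆ N := by
    intro q hq
    have hqK : q ∈ K' ×ˢ L' := ⟨hAK hq.1, hBL hq.2⟩
    have := hW q (hAB hq) hqK
    rw [mem_nhdsWithin_iff_exists_mem_nhds_inter] at this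
    obtain ⟨G, hG, hGW⟩ := this
    rw [mem_interior_iff_mem_nhds]
    filter_upwards [hG] with r hr
    by_cases hrK : r ∈ K' ×ˢ L'
    · exact Or.inl (hGW ⟨hr, hrK⟩)
    · exact Or.inr hrK
  obtain ⟨G, H, hG, hH, hAG, hBH, hGH⟩ := generalized_tube_lemma hA hB isOpen_interior hAN
  obtain ⟨A', hA', hA'K, hA'G, hA'n⟩ := enlarge hA hK hAK hG hAG
  obtain ⟨B', hB', hB'L, hB'H, hB'n⟩ := enlarge hB hL hBL hH hBH
  refine ⟨A', B', hA', hB', hA'K, hB'L, ?_, hA'n, hB'n⟩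
  intro q hq
  have h1 : q ∈ N := hGH ⟨hA'G hq.1, hB'H hq.2⟩
  rcases interior_subset h1 with h | h
  · exact h
  · exact absurd ⟨hA'K hq.1, hB'L hq.2⟩ h

/-- stage of the construction -/
structure Stage (K : Set Y) (L : Set Z) (W : Set (Y × Z)) where
  A : Set Y
  B : Set Z
  hA : IsCompact A
  hB : IsCompact B
  hAK : A ⊆ K
  hBL : B ⊆ L
  hAB : A ×ˢ B ⊆ W

lemma exists_next {K : ℕ → Set Y} {L : ℕ → Set Z} (hK : ∀ n, IsCompact (K n))
    (hL : ∀ n, IsCompact (L n)) (hKm : ∀ n, K n ⊆ K (n+1)) (hLm : ∀ n, L n ⊆ L (n+1))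
    {W : Set (Y × Z)} (hW : ∀ n, ∀ q ∈ W, q ∈ K n ×ˢ L n → W ∈ 𝓝[K n ×ˢ L n] q)
    (n : ℕ) (S : Stage (K n) (L n) W) : ∃ S' : Stage (K (n+1)) (L (n+1)) W,
      (∀ p ∈ S.A, S'.A ∈ 𝓝[K (n+1)] p) ∧ (∀ p ∈ S.B, S'.B ∈ 𝓝[L (n+1)] p) := by
  obtain ⟨A', B', h1, h2, h3, h4, h5, h6, h7⟩ := prod_step (K := K n) (L := L n) S.hA S.hB
    (S.hAK.trans (hKm n)) (S.hBL.trans (hLm n)) (hK (n+1)) (hL (n+1)) (hW (n+1)) S.hAB
  exact ⟨⟨A', B', h1, h2, h3, h4, h5⟩, h6, h7⟩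

lemma kopen_union {K : ℕ → Set Y} (hKm : ∀ n, K n ⊆ K (n+1)) {A : ℕ → Set Y} {n0 : ℕ}
    (hA : ∀ n, ∀ p ∈ A n, A (n+1) ∈ 𝓝[K (n0 + n+1)] p) (hAK : ∀ n, A n ⊆ K (n0 + n)) :
    KOpen K (⋃ n, A n) := by
  have hmono : Monotone K := monotone_nat_of_le_succ hKm
  have hAm : ∀ n, A n ⊆ A (n+1) := fun n p hp =>
    mem_of_mem_nhdsWithin (hKm _ (hAK n hp)) (hA n p hp)
  have hAmono : Monotone A := monotone_nat_of_le_succ hAm
  intro m p hp hpm
  obtain ⟨n, hn⟩ := Set.mem_iUnion.1 hp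
  have h1 : p ∈ A (max n m) := hAmono (le_max_left _ _) hn
  have h2 := hA (max n m) p h1
  have h3 : K m ⊆ K (n0 + max n m + 1) := hmono (by have := le_max_right n m; omega)
  exact mem_of_superset (nhdsWithin_mono _ h3 h2) (Set.subset_iUnion _ _)

lemma kopen_prod {K : ℕ → Set Y} {L : ℕ → Set Z} (hK : ∀ n, IsCompact (K n))
    (hL : ∀ n, IsCompact (L n)) (hKm : ∀ n, K n ⊆ K (n+1)) (hLm : ∀ n, L n ⊆ L (n+1))
    (hKu : ∀ y, ∃ n, y ∈ K n) (hLu : ∀ y, ∃ n, y ∈ L n)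
    {W : Set (Y × Z)} (hW : ∀ n, ∀ q ∈ W, q ∈ K n ×ˢ L n → W ∈ 𝓝[K n ×ˢ L n] q)
    {y : Y} {z : Z} (hyz : (y, z) ∈ W) :
    ∃ U U', KOpen K U ∧ KOpen L U' ∧ y ∈ U ∧ z ∈ U' ∧ U ×ˢ U' ⊆ W := by
  have hKmono : Monotone K := monotone_nat_of_le_succ hKm
  have hLmono : Monotone L := monotone_nat_of_le_succ hLm
  obtain ⟨n1, hn1⟩ := hKu y
  obtain ⟨n2, hn2⟩ := hLu z
  let n0 := max n1 n2
  let S0 : Stage (K n0) (L n0) W :=
    { A := {y}
      B := {z}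
      hA := isCompact_singleton
      hB := isCompact_singleton
      hAK := by
        rw [Set.singleton_subset_iff]
        exact hKmono (le_max_left _ _) hn1
      hBL := by
        rw [Set.singleton_subset_iff]
        exact hLmono (le_max_right _ _) hn2
      hAB := by
        rintro ⟨a, b⟩ ⟨ha, hb⟩
        simp only [Set.mem_singleton_iff] at ha hb
        subst ha hb
        exact hyz }
  choose next hnext using fun n => exists_next hK hL hKm hLm hW (n0 + n)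
  let S : ∀ n, Stage (K (n0 + n)) (L (n0 + n)) W := fun n => Nat.rec S0 (fun n S => next n S) n
  have hS : ∀ n, S (n+1) = next n (S n) := fun n => rfl
  have h1 : ∀ n, ∀ p ∈ (S n).A, (S (n+1)).A ∈ 𝓝[K (n0 + n + 1)] p := by
    intro n p hp
    rw [hS n]
    exact (hnext n (S n)).1 p hp
  have h2 : ∀ n, ∀ p ∈ (S n).B, (S (n+1)).B ∈ 𝓝[L (n0 + n + 1)] p := by
    intro n p hp
    rw [hS n]
    exact (hnext n (S n)).2 p hp
  have hAm : Monotone (fun n => (S n).A) := monotone_nat_of_le_succ fun n p hp =>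
    mem_of_mem_nhdsWithin (hKm _ ((S n).hAK hp)) (h1 n p hp)
  have hBm : Monotone (fun n => (S n).B) := monotone_nat_of_le_succ fun n p hp =>
    mem_of_mem_nhdsWithin (hLm _ ((S n).hBL hp)) (h2 n p hp)
  refine ⟨⋃ n, (S n).A, ⋃ n, (S n).B, kopen_union hKm h1 (fun n => (S n).hAK),
    kopen_union hLm h2 (fun n => (S n).hBL), ?_, ?_, ?_⟩
  · exact Set.mem_iUnion.2 ⟨0, rfl⟩
  · exact Set.mem_iUnion.2 ⟨0, rfl⟩
  · rintro ⟨a, b⟩ ⟨ha, hb⟩
    obtain ⟨n, hn⟩ := Set.mem_iUnion.1 ha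
    obtain ⟨m, hm⟩ := Set.mem_iUnion.1 hb
    exact (S (max n m)).hAB ⟨hAm (le_max_left _ _) hn, hBm (le_max_right _ _) hm⟩

end prod

/-- `V` retopologised by a sequence of subsets -/
def KV {V : Type u} (K : ℕ → Set V) : Type u := V

section KV

variable {V : Type u} [AddCommGroup V] [Module ℝ V] [TopologicalSpace V] (K : ℕ → Set V)

instance : AddCommGroup (KV K) := inferInstanceAs (AddCommGroup V)
instance : Module ℝ (KV K) := inferInstanceAs (Module ℝ V)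

instance : TopologicalSpace (KV K) where
  IsOpen U := KOpen (Y := V) K U
  isOpen_univ := fun n p _ _ => Filter.univ_mem
  isOpen_inter := fun s t hs ht n p hp hpn => Filter.inter_mem (hs n p hp.1 hpn) (ht n p hp.2 hpn)
  isOpen_sUnion := by
    intro S hS n p hp hpn
    obtain ⟨U, hU, hpU⟩ := hp
    exact mem_of_superset (hS U hU n p hpU hpn) (Set.subset_sUnion_of_mem hU)

lemma isOpen_KV (U : Set (KV K)) : IsOpen U ↔ KOpen (Y := V) K U := Iff.rfl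

/-- the identity map -/
def toVfun : KV K → V := fun v => v

/-- the identity map from the fine topology to the original one -/
def toV : KV K →L[ℝ] V where
  toFun := toVfun K
  map_add' := fun _ _ => rfl
  map_smul' := fun _ _ => rfl
  cont := by
    refine continuous_def.2 ?_
    intro U hU n p hp _
    exact mem_nhdsWithin_of_mem_nhds (hU.mem_nhds hp)

variable {K}

lemma isTopologicalAddGroup_KV [IsTopologicalAddGroup V] [T2Space V]
    (hK : ∀ n, IsCompact (K n)) (hKm : ∀ n, K n ⊆ K (n+1)) (hKu : ∀ v, ∃ n, v ∈ K n)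
    (hadd : ∀ n, ∀ a ∈ K n, ∀ b ∈ K n, a + b ∈ K (n+1))
    (hneg : ∀ n, ∀ a ∈ K n, -a ∈ K (n+1)) : IsTopologicalAddGroup (KV K) := by
  have : ContinuousAdd (KV K) := by
    refine ⟨?_⟩
    rw [continuous_def]
    intro O hO
    rw [isOpen_prod_iff]
    intro a b hab
    obtain ⟨U, U', hU, hU', ha, hb, hUU⟩ := kopen_prod (Y := V) (Z := V) (K := K) (L := K)
      (W := (fun p : V × V => p.1 + p.2) ⁻¹' O) hK hK hKm hKm hKu hKu (by
        intro n q hq hqn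
        have h1 : O ∈ 𝓝[K (n+1)] (q.1 + q.2) := hO (n+1) _ hq (hadd n _ hqn.1 _ hqn.2)
        have h2 : Tendsto (fun p : V × V => p.1 + p.2) (𝓝[K n ×ˢ K n] q)
            (𝓝[K (n+1)] (q.1 + q.2)) := by
          refine (continuous_add.continuousAt.continuousWithinAt).tendsto_nhdsWithin ?_
          intro p hp
          exact hadd n _ hp.1 _ hp.2
        exact h2 h1) hab
    exact ⟨U, U', hU, hU', ha, hb, hUU⟩
  refine { this with continuous_neg := ?_ }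
  rw [continuous_def]
  intro O hO n p hp hpn
  have h1 : O ∈ 𝓝[K (n+1)] (-p : V) := hO (n+1) _ hp (hneg n _ hpn)
  have h2 : Tendsto (fun p : V => -p) (𝓝[K n] p) (𝓝[K (n+1)] (-p)) := by
    refine (continuous_neg.continuousAt.continuousWithinAt).tendsto_nhdsWithin ?_
    intro q hq
    exact hneg n _ hq
  exact h2 h1

lemma continuousSMul_KV [ContinuousSMul ℝ V] [T2Space V]
    (hK : ∀ n, IsCompact (K n)) (hKm : ∀ n, K n ⊆ K (n+1)) (hKu : ∀ v, ∃ n, v ∈ K n)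
    (hsmul : ∀ n : ℕ, ∀ r ∈ Set.Icc (-((n:ℝ)+1)) (n+1), ∀ a ∈ K n, r • a ∈ K (n+1)) :
    ContinuousSMul ℝ (KV K) := by
  refine ⟨?_⟩
  rw [continuous_def]
  intro O hO
  rw [isOpen_prod_iff]
  intro a b hab
  have hIu : ∀ r : ℝ, ∃ n : ℕ, r ∈ Set.Ioo (-((n:ℝ)+1)) (n+1) := by
    intro r
    obtain ⟨n, hn⟩ := exists_nat_gt |r|
    refine ⟨n, ?_⟩
    rw [abs_lt] at hn
    constructor <;> linarith
  obtain ⟨U, U', hU, hU', ha, hb, hUU⟩ := kopen_prod (Y := ℝ) (Z := V)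
    (K := fun n : ℕ => Set.Icc (-((n:ℝ)+1)) (n+1)) (L := K)
    (W := (fun p : ℝ × V => p.1 • p.2) ⁻¹' O) (fun n => isCompact_Icc) hK (by
      intro n
      apply Set.Icc_subset_Icc <;> push_cast <;> linarith) hKm (fun r => by
        obtain ⟨n, hn⟩ := hIu r
        exact ⟨n, Set.Ioo_subset_Icc_self hn⟩) hKu (by
      intro n q hq hqn
      have h1 : O ∈ 𝓝[K (n+1)] (q.1 • q.2) := hO (n+1) _ hq (hsmul n _ hqn.1 _ hqn.2)
      have h2 : Tendsto (fun p : ℝ × V => p.1 • p.2) (𝓝[Set.Icc (-((n:ℝ)+1)) (n+1) ×ˢ K n] q)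
          (𝓝[K (n+1)] (q.1 • q.2)) := by
        refine (continuous_smul.continuousAt.continuousWithinAt).tendsto_nhdsWithin ?_
        intro p hp
        exact hsmul n _ hp.1 _ hp.2
      exact h2 h1) hab
  refine ⟨U, U', ?_, hU', ha, hb, hUU⟩
  rw [isOpen_iff_mem_nhds]
  intro r hr
  obtain ⟨n, hn⟩ := hIu r
  have h1 := hU n r hr (Set.Ioo_subset_Icc_self hn)
  rwa [nhdsWithin_eq_nhds.2 (Icc_mem_nhds hn.1 hn.2)] at h1

lemma t2_KV [T2Space V] : T2Space (KV K) :=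
  T2Space.of_injective_continuous (f := toV K) (fun _ _ h => h) (toV K).continuous

end KV

end Pool.Agent.H88.KS
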