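import Pool.Agent.H88.KSHemi
import Pool.Agent.H88.KSOmega

open Topology Filter Set Pointwise

universe u v

set_option linter.unusedSectionVars false
set_option linter.unusedVariables false

namespace Pool.Agent.H88.KS

section
variable {X : Type u} [TopologicalSpace X] {V : Type u} [AddCommGroup V] [Module ℝ V]
  [TopologicalSpace V]

/-- the exhausting sequence of `V(X)` -/
def Kseq (i : X → V) (L : ℕ → Set X) : ℕ → Set V := fun n => Nat.rec {0} (fun n K =>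
  ((K + K) ∪ ((fun p : ℝ × V => p.1 • p.2) '' (Set.Icc (-((n:ℝ)+1)) (n+1) ×ˢ K))) ∪ i '' L n) n

lemma Kseq_zero (i : X → V) (L : ℕ → Set X) : Kseq i L 0 = {0} := rfl

lemma Kseq_succ (i : X → V) (L : ℕ → Set X) (n : ℕ) : Kseq i L (n+1) =
    ((Kseq i L n + Kseq i L n) ∪
      ((fun p : ℝ × V => p.1 • p.2) '' (Set.Icc (-((n:ℝ)+1)) (n+1) ×ˢ Kseq i L n))) ∪ i '' L n := rfl

variable {i : X → V} {L : ℕ → Set X}

lemma zero_mem_Kseq (n : ℕ) : (0:V) ∈ Kseq i L n := by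
  induction n with
  | zero => rw [Kseq_zero]; rfl
  | succ n ih =>
    rw [Kseq_succ]
    exact Or.inl (Or.inl (Set.mem_add.2 ⟨0, ih, 0, ih, add_zero 0⟩))

lemma Kseq_mono (n : ℕ) : Kseq i L n ⊆ Kseq i L (n+1) := by
  intro v hv
  rw [Kseq_succ]
  exact Or.inl (Or.inl (Set.mem_add.2 ⟨v, hv, 0, zero_mem_Kseq n, add_zero v⟩))

lemma Kseq_add (n : ℕ) : ∀ a ∈ Kseq i L n, ∀ b ∈ Kseq i L n, a + b ∈ Kseq i L (n+1) := by
  intro a ha b hb
  rw [Kseq_succ]
  exact Or.inl (Or.inl (Set.mem_add.2 ⟨a, ha, b, hb, rfl⟩))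

lemma Kseq_smul (n : ℕ) : ∀ r ∈ Set.Icc (-((n:ℝ)+1)) (n+1), ∀ a ∈ Kseq i L n,
    r • a ∈ Kseq i L (n+1) := by
  intro r hr a ha
  rw [Kseq_succ]
  exact Or.inl (Or.inr ⟨(r, a), ⟨hr, ha⟩, rfl⟩)

lemma Kseq_neg (n : ℕ) : ∀ a ∈ Kseq i L n, -a ∈ Kseq i L (n+1) := by
  intro a ha
  have := Kseq_smul (i := i) (L := L) n (-1) (by
    have : (0:ℝ) ≤ n := Nat.cast_nonneg n
    constructor <;> linarith) a ha
  simpa using this

lemma Kseq_i (n : ℕ) : ∀ x ∈ L n, i x ∈ Kseq i L (n+1) := by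
  intro x hx
  rw [Kseq_succ]
  exact Or.inr ⟨x, hx, rfl⟩

lemma Kseq_compact [ContinuousAdd V] [ContinuousSMul ℝ V] (hi : Continuous i)
    (hL : ∀ n, IsCompact (L n)) (n : ℕ) : IsCompact (Kseq i L n) := by
  induction n with
  | zero => rw [Kseq_zero]; exact isCompact_singleton
  | succ n ih =>
    rw [Kseq_succ]
    exact ((ih.add ih).union ((isCompact_Icc.prod ih).image continuous_smul)).union
      ((hL n).image hi)

lemma Kseq_cover (hspan : Submodule.span ℝ (Set.range i) = ⊤) (hcov : ∀ x, ∃ n, x ∈ L n) (v : V) :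
    ∃ n, v ∈ Kseq i L n := by
  have hmono : Monotone (Kseq i L) := monotone_nat_of_le_succ Kseq_mono
  have hv : v ∈ Submodule.span ℝ (Set.range i) := by rw [hspan]; trivial
  induction hv using Submodule.span_induction with
  | mem x h =>
    obtain ⟨x, rfl⟩ := h
    obtain ⟨n, hn⟩ := hcov x
    exact ⟨n+1, Kseq_i n x hn⟩
  | zero => exact ⟨0, zero_mem_Kseq 0⟩
  | add x y _ _ hx hy =>
    obtain ⟨n, hn⟩ := hx
    obtain ⟨m, hm⟩ := hy
    exact ⟨max n m + 1, Kseq_add _ _ (hmono (le_max_left _ _) hn) _ (hmono (le_max_right _ _) hm)⟩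
  | smul r x _ hx =>
    obtain ⟨n, hn⟩ := hx
    obtain ⟨m, hm⟩ := exists_nat_gt |r|
    refine ⟨max n m + 1, Kseq_smul _ r ?_ _ (hmono (le_max_left _ _) hn)⟩
    have h1 : (m:ℝ) ≤ ((max n m : ℕ) : ℝ) := by exact_mod_cast le_max_right n m
    rw [abs_lt] at hm
    constructor <;> linarith

end

section
variable {X : Type u} [TopologicalSpace X] [T35Space X] {V : Type u} [AddCommGroup V] [Module ℝ V]
  [TopologicalSpace V] {i : X → V}

/-- in a hemicompact `k`-space, openness can be tested on the exhausting sequence -/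
lemma isOpen_of_hemi (hX : ∀ B : Set X, (∀ K, IsCompact K → IsClosed (B ∩ K)) → IsClosed B)
    {L : ℕ → Set X} (hL : ∀ n, IsCompact (L n)) (hLK : ∀ K : Set X, IsCompact K → ∃ n, K ⊆ L n)
    {U : Set X} (hU : ∀ n, ∀ x ∈ U, x ∈ L n → U ∈ 𝓝[L n] x) : IsOpen U := by
  rw [← isClosed_compl_iff]
  apply hX
  intro K hK
  obtain ⟨n, hn⟩ := hLK K hK
  rw [← isOpen_compl_iff, isOpen_iff_mem_nhds]
  intro x hx
  by_cases hxK : x ∈ K
  · have hxU : x ∈ U := by
      by_contra h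
      exact hx ⟨h, hxK⟩
    have h1 := hU n x hxU (hn hxK)
    rw [mem_nhdsWithin_iff_exists_mem_nhds_inter] at h1
    obtain ⟨G, hG, hGU⟩ := h1
    filter_upwards [hG] with y hy
    rintro ⟨hyU, hyK⟩
    exact hyU (hGU ⟨hy, hn hyK⟩)
  · filter_upwards [hK.isClosed.isOpen_compl.mem_nhds hxK] with y hy
    exact fun h => hy h.2

theorem vKOmega (hV : IsFreeTVS i)
    (hX : ∀ B : Set X, (∀ K, IsCompact K → IsClosed (B ∩ K)) → IsClosed B)
    {L : ℕ → Set X} (hL : ∀ n, IsCompact (L n)) (hLK : ∀ K : Set X, IsCompact K → ∃ n, K ⊆ L n) :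
    IsKOmegaSpace V := by
  obtain ⟨hg, hm, ht, hi, hu⟩ := id hV
  have hcov : ∀ x, ∃ n, x ∈ L n := by
    intro x
    obtain ⟨n, hn⟩ := hLK {x} isCompact_singleton
    exact ⟨n, hn rfl⟩
  have hK : ∀ n, IsCompact (Kseq i L n) := Kseq_compact hi hL
  have hKu : ∀ v, ∃ n, v ∈ Kseq i L n := Kseq_cover (span_top hV) hcov
  have i1 : IsTopologicalAddGroup (KV (Kseq i L)) :=
    isTopologicalAddGroup_KV hK Kseq_mono hKu Kseq_add Kseq_neg
  have i2 : ContinuousSMul ℝ (KV (Kseq i L)) := continuousSMul_KV hK Kseq_mono hKu Kseq_smul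
  have i3 : T2Space (KV (Kseq i L)) := t2_KV
  let i' : X → KV (Kseq i L) := i
  have hi' : Continuous i' := by
    refine continuous_def.2 ?_
    intro O hO
    apply isOpen_of_hemi hX hL hLK
    intro n x hx hxn
    have h1 : O ∈ 𝓝[Kseq i L (n+1)] (i x) := hO (n+1) _ hx (Kseq_i n x hxn)
    have h2 : Tendsto i (𝓝[L n] x) (𝓝[Kseq i L (n+1)] (i x)) := by
      refine (hi.continuousAt.continuousWithinAt).tendsto_nhdsWithin ?_
      intro y hy
      exact Kseq_i n y hy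
    exact h2 h1
  obtain ⟨T, hT, -⟩ := hu (KV (Kseq i L)) i' hi'
  obtain ⟨T0, -, hT0⟩ := hu V i hi
  have e1 := hT0 (ContinuousLinearMap.id ℝ V) (by intro x; rfl)
  have e2 := hT0 ((toV (Kseq i L)).comp T) (by
    intro x
    show toV (Kseq i L) (T (i x)) = i x
    rw [hT x]
    rfl)
  have hTid : ∀ v : V, T v = (show KV (Kseq i L) from v) := by
    intro v
    have : ((toV (Kseq i L)).comp T) v = v := by rw [e2, ← e1]; rfl
    exact this
  refine ⟨Kseq i L, hK, ?_⟩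
  intro F hF
  have hopen : KOpen (Kseq i L) Fᶜ := by
    intro n p hp hpn
    have h1 : IsOpen ((Subtype.val : Kseq i L n → V) ⁻¹' Fᶜ) := by
      rw [Set.preimage_compl]
      exact (hF n).isOpen_compl
    have h2 := h1.mem_nhds (show (⟨p, hpn⟩ : Kseq i L n) ∈ _ from hp)
    exact preimage_coe_mem_nhds_subtype.1 h2
  have h3 : IsOpen (T ⁻¹' (show Set (KV (Kseq i L)) from Fᶜ)) := by
    apply IsOpen.preimage T.continuous
    exact hopen
  have h4 : T ⁻¹' (show Set (KV (Kseq i L)) from Fᶜ) = Fᶜ := by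
    ext v
    show T v ∈ (show Set (KV (Kseq i L)) from Fᶜ) ↔ v ∈ Fᶜ
    rw [hTid v]
    rfl
  rw [h4] at h3
  exact isOpen_compl_iff.1 h3

lemma IsKOmegaSpace.isKSpace {Y : Type*} [TopologicalSpace Y] (h : IsKOmegaSpace Y) :
    IsKSpace Y := by
  obtain ⟨K, hK, h⟩ := h
  intro C hC
  exact h C fun n => hC _ (hK n)

lemma xKOmega (hX : ∀ B : Set X, (∀ K, IsCompact K → IsClosed (B ∩ K)) → IsClosed B)
    {L : ℕ → Set X} (hL : ∀ n, IsCompact (L n)) (hLK : ∀ K : Set X, IsCompact K → ∃ n, K ⊆ L n) :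
    IsKOmegaSpace X := by
  refine ⟨L, hL, ?_⟩
  intro F hF
  rw [← isOpen_compl_iff]
  apply isOpen_of_hemi hX hL hLK
  intro n p hp hpn
  have h1 : IsOpen ((Subtype.val : L n → X) ⁻¹' Fᶜ) := by
    rw [Set.preimage_compl]
    exact (hF n).isOpen_compl
  have h2 := h1.mem_nhds (show (⟨p, hpn⟩ : L n) ∈ _ from hp)
  exact preimage_coe_mem_nhds_subtype.1 h2

theorem main (hX : IsKStarMetrizable.{u, v} X) (hV : IsFreeTVS i) (h2 : IsKSpace (sp i 2)) :
    IsKOmegaSpace X ∧ IsKOmegaSpace V ∧ IsKSpace V := by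
  obtain ⟨-, M, tM, f, s, hM, hf, -, hfs, hs⟩ := hX
  let _ : MetricSpace M := TopologicalSpace.metrizableSpaceMetric M
  obtain ⟨L, hL, hLK⟩ := lemK hV h2 hf hfs hs
  have hXk : ∀ B : Set X, (∀ K, IsCompact K → IsClosed (B ∩ K)) → IsClosed B :=
    fun B hB => isKSpace_X hV h2 hB
  have h3 := vKOmega hV hXk hL hLK
  exact ⟨xKOmega hXk hL hLK, h3, h3.isKSpace⟩

end

end Pool.Agent.H88.KS
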