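import Pool.Agent.H88.KSBasic

open Topology Filter Set Pointwise

universe u v

set_option linter.unusedSectionVars false
set_option linter.unusedVariables false

namespace Pool.Agent.H88.KS

/-- sequences with finitely many indices in each compact set -/
def KFin {X : Type*} [TopologicalSpace X] (x : ℕ → X) : Prop :=
  ∀ K : Set X, IsCompact K → {l | x l ∈ K}.Finite

/-- functionally bounded sequences -/
def FnBdd {X : Type*} [TopologicalSpace X] (x : ℕ → X) : Prop :=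
  ∀ g : X → ℝ, Continuous g → BddAbove (Set.range (g ∘ x))

lemma summable_half : Summable (fun n : ℕ => (1/2:ℝ)^(n+1)) :=
    (summable_nat_add_iff 1).2 summable_geometric_two

lemma tsum_tail_le (t : ℕ → ℝ) (h0 : ∀ n, 0 ≤ t n) (h1 : ∀ n, t n ≤ (1/2:ℝ)^(n+1)) (k : ℕ)
    (hz : ∀ n < k, t n = 0) : ∑' n, t n ≤ (1/2:ℝ)^k := by
  have hts : Summable t := Summable.of_nonneg_of_le h0 h1 summable_half
  have e1 := hts.sum_add_tsum_nat_add k
  rw [Finset.sum_eq_zero (fun n hn => hz n (Finset.mem_range.1 hn)), zero_add] at e1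
  rw [← e1]
  have e2 : ∀ n : ℕ, t (n + k) ≤ (1/2:ℝ)^(k+1) * (1/2:ℝ)^n := by
    intro n
    refine (h1 _).trans (le_of_eq ?_)
    ring
  calc ∑' n, t (n + k) ≤ ∑' n : ℕ, (1/2:ℝ)^(k+1) * (1/2:ℝ)^n :=
        Summable.tsum_le_tsum e2 ((summable_nat_add_iff k).2 hts)
          (summable_geometric_two.mul_left _)
    _ = (1/2:ℝ)^k := by
        rw [tsum_mul_left, tsum_geometric_two]
        ring

section
variable {X : Type u} [TopologicalSpace X] [T35Space X] {V : Type u} [AddCommGroup V] [Module ℝ V]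
  [TopologicalSpace V] {i : X → V}

/-- E -/
lemma bdd_absorb (hV : IsFreeTVS i) {x : ℕ → X} (hx : FnBdd x) {W : Set V}
    (hW : W ∈ 𝓝 (0:V)) : ∃ m : ℕ, ∀ j ≥ m, ∀ l, ((1:ℝ)/(j+2)) • i (x l) ∈ W := by
  obtain ⟨hg, hm, ht, hi, -⟩ := id hV
  let _ : UniformSpace V := IsTopologicalAddGroup.rightUniformSpace V
  have hB : balancedCore ℝ W ∈ 𝓝 (0:V) := balancedCore_mem_nhds_zero hW
  obtain ⟨W0, hW0, hW0o, h0⟩ := mem_nhds_iff.1 hB
  obtain ⟨h, hh, hh0, hh1⟩ := CompletelyRegularSpace.completely_regular (0:V) W0ᶜ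
    hW0o.isClosed_compl (by simpa using h0)
  -- h = 0 at 0 and 1 off W0
  let t : ℕ → X → ℝ := fun n y => (1/2:ℝ)^(n+1) * (1 - (h (((1:ℝ)/(n+1)) • i y) : ℝ))
  have ht0 : ∀ n y, 0 ≤ t n y := by
    intro n y
    have := (h (((1:ℝ)/(n+1)) • i y)).2.2
    simp only [t]
    apply mul_nonneg (by positivity)
    linarith
  have ht1 : ∀ n y, t n y ≤ (1/2:ℝ)^(n+1) := by
    intro n y
    have := (h (((1:ℝ)/(n+1)) • i y)).2.1
    simp only [t]
    apply mul_le_of_le_one_right (by positivity)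
    linarith
  have hts : ∀ y, Summable (fun n => t n y) := fun y =>
    Summable.of_nonneg_of_le (fun n => ht0 n y) (fun n => ht1 n y) summable_half
  let I : X → ℝ := fun y => ∑' n, t n y
  have hI : Continuous I := by
    refine continuous_tsum (u := fun n : ℕ => (1/2:ℝ)^(n+1)) ?_ summable_half ?_
    · intro n
      simp only [t]
      fun_prop
    · intro n y
      rw [Real.norm_of_nonneg (ht0 n y)]
      exact ht1 n y
  have hIpos : ∀ y, 0 < I y := by
    intro y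
    have hlim : Tendsto (fun n : ℕ => (h (((1:ℝ)/(n+1)) • i y) : ℝ)) atTop (𝓝 0) := by
      have e1 : Tendsto (fun n : ℕ => ((1:ℝ)/(n+1)) • i y) atTop (𝓝 0) := by
        have := (tendsto_one_div_add_atTop_nhds_zero_nat (𝕜 := ℝ)).smul_const (i y)
        simpa using this
      have e2 : Tendsto (fun v : V => (h v : ℝ)) (𝓝 0) (𝓝 (h 0 : ℝ)) :=
        (continuous_subtype_val.comp hh).tendsto _
      rw [hh0] at e2
      exact e2.comp e1
    obtain ⟨n, hn⟩ := (hlim.eventually (gt_mem_nhds (show (0:ℝ) < 1 by norm_num))).exists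
    refine (hts y).tsum_pos (fun n => ht0 n y) n ?_
    simp only [t]
    apply mul_pos (by positivity)
    linarith
  obtain ⟨C, hC⟩ := hx (fun y => (I y)⁻¹) (hI.inv₀ (fun y => (hIpos y).ne'))
  have hC' : ∀ l, (I (x l))⁻¹ ≤ max C 1 := fun l => le_max_of_le_left (hC ⟨l, rfl⟩)
  have hCpos : 0 < max C 1 := lt_max_of_lt_right one_pos
  obtain ⟨m, hm'⟩ := exists_pow_lt_of_lt_one (inv_pos.2 hCpos) (show (1/2:ℝ) < 1 by norm_num)
  refine ⟨m, ?_⟩
  intro j hj l
  by_contra hcon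
  have hnB : ((1:ℝ)/(j+2)) • i (x l) ∉ balancedCore ℝ W := fun h =>
    hcon (balancedCore_subset W h)
  have hz : ∀ n < j + 2, t n (x l) = 0 := by
    intro n hn
    have hn' : ((1:ℝ)/(n+1)) • i (x l) ∉ balancedCore ℝ W := by
      intro hmem
      apply hnB
      have e : ((1:ℝ)/(j+2)) • i (x l) = (((n:ℝ)+1)/(j+2)) • (((1:ℝ)/(n+1)) • i (x l)) := by
        rw [smul_smul]
        congr 1
        field_simp
      rw [e]
      refine (balancedCore_balanced W).smul_mem ?_ hmem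
      rw [Real.norm_of_nonneg (by positivity), div_le_one (by positivity)]
      have : (n:ℝ) + 1 ≤ (j:ℝ) + 2 := by exact_mod_cast hn
      exact this
    have hn0 : ((1:ℝ)/(n+1)) • i (x l) ∈ W0ᶜ := fun h => hn' (hW0 h)
    have := hh1 hn0
    simp only [Pi.one_apply] at this
    simp only [t, this]
    simp
  have hIle : I (x l) ≤ (1/2:ℝ)^(j+2) :=
    tsum_tail_le (fun n => t n (x l)) (fun n => ht0 n _) (fun n => ht1 n _) (j+2) hz
  have h1 := hC' l
  have h2 : (max C 1)⁻¹ ≤ I (x l) := by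
    rw [inv_le_comm₀ hCpos (hIpos _)]
    exact h1
  have h3 : (1/2:ℝ)^(j+2) ≤ (1/2:ℝ)^m :=
    pow_le_pow_of_le_one (by norm_num) (by norm_num) (by omega)
  linarith

/-- finiteness of `Z ∩ K` -/
lemma finite_pairs (hV : IsFreeTVS i) {x : ℕ → X} (hx : KFin x) {e : ℕ → ℕ → X}
    (he : ∀ K : Set X, IsCompact K → {j | ∃ l, e j l ∈ K}.Finite) {K : Set V} (hK : IsCompact K) :
    {p : ℕ × ℕ | ((1:ℝ)/(p.1+2)) • i (x p.2) + i (e p.1 p.2) ∈ K}.Finite := by
  obtain ⟨hg, hm, ht, hi, -⟩ := id hV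
  have hK' := compactK' hV hK
  set K' := {x : X | ∃ a ∈ Set.Icc (0:ℝ) (1/2), ∃ y, a • i y + i x ∈ K} with hK'def
  have hmem : ∀ j l : ℕ, ((1:ℝ)/(j+2)) • i (x l) + i (e j l) ∈ K → e j l ∈ K' := by
    intro j l h
    refine ⟨(1:ℝ)/(j+2), ⟨by positivity, ?_⟩, x l, h⟩
    rw [div_le_div_iff₀ (by positivity) (by norm_num)]
    have : (0:ℝ) ≤ j := Nat.cast_nonneg j
    linarith
  have hl : ∀ j : ℕ, {l | ((1:ℝ)/(j+2)) • i (x l) + i (e j l) ∈ K}.Finite := by
    intro j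
    have hc : IsCompact ((fun v : V => ((j:ℝ)+2) • v) '' (K - i '' K')) :=
      ((sub_eq_add_neg K (i '' K')) ▸ hK.add (hK'.image hi).neg : IsCompact (K - i '' K')).image
        (by fun_prop)
    refine (hx _ (compact_preimage hV hc)).subset ?_
    intro l hl
    simp only [Set.mem_ofPred_eq] at hl ⊢
    refine ⟨((1:ℝ)/(j+2)) • i (x l), ?_, ?_⟩
    · rw [Set.mem_sub]
      exact ⟨_, hl, _, ⟨_, hmem j l hl, rfl⟩, by abel⟩
    · simp only [smul_smul]
      rw [mul_one_div_cancel (by positivity), one_smul]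
  refine ((he K' hK').biUnion fun j _ => ((hl j).image (fun l => (j, l)))).subset ?_
  rintro ⟨j, l⟩ hjl
  simp only [Set.mem_ofPred_eq] at hjl
  simp only [Set.mem_iUnion]
  exact ⟨j, ⟨l, hmem j l hjl⟩, l, hjl, rfl⟩

/-- F -/
lemma lemF (hV : IsFreeTVS i) (h2 : IsKSpace (sp i 2)) {x : ℕ → X} (hx : KFin x) (hb : FnBdd x)
    {e : ℕ → ℕ → X} (he : ∀ K : Set X, IsCompact K → {j | ∃ l, e j l ∈ K}.Finite) (p : X) :
    ∃ m, p ∉ closure {y | ∃ j ≥ m, ∃ l, y = e j l} := by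
  obtain ⟨hg, hm, ht, hi, -⟩ := id hV
  by_contra hcon
  push Not at hcon
  let z : ℕ × ℕ → V := fun p => ((1:ℝ)/(p.1+2)) • i (x p.2) + i (e p.1 p.2)
  have hsub : Set.range z ⊆ sp i 2 := by
    rintro _ ⟨⟨j, l⟩, rfl⟩
    refine mem_sp' ⟨by positivity, ?_⟩ _ _
    rw [div_le_one (by positivity)]
    have : (0:ℝ) ≤ j := Nat.cast_nonneg j
    linarith
  have hfin : ∀ K : Set V, IsCompact K → IsClosed (Set.range z ∩ K) := by
    intro K hK
    apply Set.Finite.isClosed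
    refine ((finite_pairs hV hx he hK).image z).subset ?_
    rintro _ ⟨⟨p, rfl⟩, hp⟩
    exact ⟨p, hp, rfl⟩
  have hcl : i p ∈ closure (Set.range z) := by
    rw [mem_closure_iff_nhds_zero]
    intro W hW
    obtain ⟨W', hW', hWW⟩ := exists_nhds_zero_half hW
    obtain ⟨m, hm⟩ := bdd_absorb hV hb hW'
    have hpre : i ⁻¹' {v | v - i p ∈ W'} ∈ 𝓝 p := by
      apply hi.continuousAt.preimage_mem_nhds
      have : Tendsto (fun v : V => v - i p) (𝓝 (i p)) (𝓝 (i p - i p)) := by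
        exact (continuous_id.sub continuous_const).tendsto _
      rw [sub_self] at this
      exact this hW'
    obtain ⟨y, hy1, j, hj, l, rfl⟩ := mem_closure_iff_nhds.1 (hcon m) _ hpre
    refine ⟨z (j, l), ⟨_, rfl⟩, ?_⟩
    have := hWW _ (hm j hj l) _ hy1
    convert this using 1
    simp only [z]
    abel
  obtain ⟨⟨j, l⟩, hjl⟩ := crit hV h2 hsub hfin (mem_sp_one p) hcl
  obtain ⟨Φ, hΦ⟩ := exists_one hV
  have := congrArg Φ hjl
  simp only [z, map_add, map_smul, hΦ, smul_eq_mul, mul_one] at this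
  have hpos : (0:ℝ) < 1/((j:ℝ)+2) := by positivity
  linarith

end

end Pool.Agent.H88.KS
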