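import Pool.Agent.H88.KSCount

open Topology Filter Set Pointwise

universe u v

set_option linter.unusedSectionVars false
set_option linter.unusedVariables false

namespace Pool.Agent.H88.KS

section
variable {X : Type u} [TopologicalSpace X] [T35Space X] {V : Type u} [AddCommGroup V] [Module ℝ V]
  [TopologicalSpace V] {i : X → V} {M : Type v} [MetricSpace M] {f : M → X} {s : X → M}

/-- a set all of whose sequences have convergent subsequences is relatively compact -/
lemma compact_closure_of_seq {A : Set M}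
    (h : ∀ a : ℕ → M, (∀ n, a n ∈ A) → ∃ (b : M) (σ : ℕ → ℕ), StrictMono σ ∧
      Tendsto (a ∘ σ) atTop (𝓝 b)) : IsCompact (closure A) := by
  apply IsSeqCompact.isCompact
  intro y hy
  have hex : ∀ n : ℕ, ∃ a ∈ A, dist (y n) a < 1/((n:ℝ)+1) := fun n =>
    Metric.mem_closure_iff.1 (hy n) _ (by positivity)
  choose a haA hda using hex
  obtain ⟨b, σ, hσ, hb⟩ := h a haA
  have hd0 : Tendsto (fun n => dist (y (σ n)) (a (σ n))) atTop (𝓝 0) := by
    refine squeeze_zero (g := fun n => 1/((σ n : ℝ)+1)) (fun n => dist_nonneg)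
      (fun n => (hda _).le) ?_
    exact (tendsto_one_div_add_atTop_nhds_zero_nat (𝕜 := ℝ)).comp hσ.tendsto_atTop
  have hlim : Tendsto (fun n => y (σ n)) atTop (𝓝 b) := by
    rw [tendsto_iff_dist_tendsto_zero] at hb ⊢
    refine squeeze_zero (g := fun n => dist (y (σ n)) (a (σ n)) + dist (a (σ n)) b)
      (fun n => dist_nonneg) (fun n => dist_triangle _ _ _) ?_
    simpa using hd0.add hb
  exact ⟨b, isClosed_closure.mem_of_tendsto hlim (Eventually.of_forall fun n => hy _), σ, hσ, hlim⟩

/-- K -/
lemma lemK (hV : IsFreeTVS i) (h2 : IsKSpace (sp i 2)) (hf : Continuous f)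
    (hfs : ∀ x, f (s x) = x) (hs : ∀ K : Set X, IsCompact K → IsCompact (closure (s '' K))) :
    ∃ L : ℕ → Set X, (∀ n, IsCompact (L n)) ∧ ∀ K : Set X, IsCompact K → ∃ n, K ⊆ L n := by
  classical
  obtain ⟨t, hts, htc, hdense⟩ := lemJ hV h2 hf hfs hs
  have : Countable t := htc.to_subtype
  let P : Finset (t × ℕ) → Set X := fun F => {x | ∃ q ∈ F, dist (s x) (q.1 : M) < 1/((q.2:ℝ)+1)}
  let good : Finset (t × ℕ) → Prop := fun F => ∀ e : ℕ → X, (∀ l, e l ∈ P F) → ¬ KFin e
  have hgood : ∀ K : Set X, IsCompact K → ∃ F, K ⊆ P F ∧ good F := by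
    intro K hK
    by_contra hcon
    push Not at hcon
    have hN := hs K hK
    set N := closure (s '' K) with hNdef
    have hcover : ∀ j : ℕ, ∃ F : Finset (t × ℕ), (∀ y ∈ N, ∃ q ∈ F, dist y (q.1 : M) < 1/((q.2:ℝ)+1)) ∧
        ∀ y : M, (∃ q ∈ F, dist y (q.1 : M) < 1/((q.2:ℝ)+1)) →
          y ∈ Metric.thickening (2/((j:ℝ)+1)) N := by
      intro j
      let U : t → Set M := fun q => if (Metric.ball (q:M) (1/((j:ℝ)+1)) ∩ N).Nonempty then
        Metric.ball (q:M) (1/((j:ℝ)+1)) else ∅
      obtain ⟨F, hF⟩ := hN.elim_finite_subcover U (by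
        intro q
        simp only [U]
        split_ifs
        · exact Metric.isOpen_ball
        · exact isOpen_empty) (by
        intro y hy
        have hy' : y ∈ closure t := by
          have h1 : N ⊆ closure (range s) := closure_mono (image_subset_range _ _)
          exact (closure_minimal hdense isClosed_closure) (h1 hy)
        obtain ⟨q, hq, hd⟩ := Metric.mem_closure_iff.1 hy' (1/((j:ℝ)+1)) (by positivity)
        rw [Set.mem_iUnion]
        refine ⟨⟨q, hq⟩, ?_⟩
        simp only [U]
        rw [if_pos]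
        · exact hd
        · exact ⟨y, hd, hy⟩)
      refine ⟨(F.filter (fun q : t => (Metric.ball (q:M) (1/((j:ℝ)+1)) ∩ N).Nonempty)).image
        (fun q => (q, j)), ?_, ?_⟩
      · intro y hy
        have := hF hy
        simp only [Set.mem_iUnion] at this
        obtain ⟨q, hq, hqy⟩ := this
        simp only [U] at hqy
        split_ifs at hqy with hne
        · refine ⟨(q, j), ?_, hqy⟩
          rw [Finset.mem_image]
          exact ⟨q, Finset.mem_filter.2 ⟨hq, hne⟩, rfl⟩
        · exact absurd hqy (Set.notMem_empty _)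
      · rintro y ⟨q, hq, hd⟩
        rw [Finset.mem_image] at hq
        obtain ⟨q', hq', rfl⟩ := hq
        obtain ⟨z, hz, hzN⟩ := (Finset.mem_filter.1 hq').2
        rw [Metric.mem_thickening_iff]
        refine ⟨z, hzN, ?_⟩
        rw [Metric.mem_ball, dist_comm] at hz
        calc dist y z ≤ dist y q' + dist (q' : M) z := dist_triangle _ _ _
          _ < 1/((j:ℝ)+1) + 1/((j:ℝ)+1) := add_lt_add hd hz
          _ = 2/((j:ℝ)+1) := by ring
    choose F hFN hFt using hcover
    have hKP : ∀ j, K ⊆ P (F j) := fun j x hx => hFN j _ (subset_closure ⟨x, hx, rfl⟩)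
    have hbad : ∀ j, ∃ e : ℕ → X, (∀ l, e l ∈ P (F j)) ∧ KFin e := by
      intro j
      have := hcon (F j) (hKP j)
      simp only [good] at this
      push Not at this
      exact this
    choose e heP hek using hbad
    refine lemTT hV h2 hf hfs hs (hN.image hf) hek ?_
    intro U hU hNU
    obtain ⟨δ, hδ, hδU⟩ := hN.exists_thickening_subset_open (hU.preimage hf)
      (Set.image_subset_iff.1 hNU)
    have hlim : Tendsto (fun j : ℕ => 2/((j:ℝ)+1)) atTop (𝓝 0) := by
      have := (tendsto_one_div_add_atTop_nhds_zero_nat (𝕜 := ℝ)).const_mul 2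
      simp only [mul_zero] at this
      refine this.congr ?_
      intro j; ring
    obtain ⟨j0, hj0⟩ := eventually_atTop.1 (hlim.eventually (gt_mem_nhds hδ))
    refine ⟨j0, fun j hj l => ?_⟩
    have h1 := hFt j _ (heP j l)
    have h3 := hδU (Metric.thickening_mono (hj0 j hj).le N h1)
    have h4 : f (s (e j l)) ∈ U := h3
    rwa [hfs] at h4
  have hcomp : ∀ F, good F → IsCompact (f '' closure (s '' P F)) := by
    intro F hF
    apply IsCompact.image _ hf
    apply compact_closure_of_seq
    intro a ha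
    choose e he1 he2 using ha
    have := hF e he1
    unfold KFin at this
    push Not at this
    obtain ⟨K, hK, hinf⟩ := this
    obtain ⟨σ, hσ, hσK⟩ := Filter.extraction_of_frequently_atTop
        (Nat.frequently_atTop_iff_infinite.2 hinf)
    obtain ⟨b, hb, τ, hτ, hlimb⟩ := (hs K hK).tendsto_subseq
        (x := fun n => s (e (σ n))) (fun n => subset_closure ⟨_, hσK n, rfl⟩)
    refine ⟨b, σ ∘ τ, hσ.comp hτ, ?_⟩
    refine hlimb.congr ?_
    intro n
    simp [he2]
  obtain ⟨enum, henum⟩ := exists_surjective_nat (Finset (t × ℕ))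
  refine ⟨fun n => if good (enum n) then f '' closure (s '' P (enum n)) else ∅, ?_, ?_⟩
  · intro n
    by_cases h : good (enum n)
    · simp only [h, if_true]
      exact hcomp _ h
    · simp only [h, if_false]
      exact isCompact_empty
  · intro K hK
    obtain ⟨F, hKF, hF⟩ := hgood K hK
    obtain ⟨n, rfl⟩ := henum F
    refine ⟨n, ?_⟩
    simp only [hF, if_true]
    intro x hx
    exact ⟨s x, subset_closure ⟨x, hKF hx, rfl⟩, hfs x⟩

end

end Pool.Agent.H88.KS
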