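import Pool.Agent.H88.KSFun

open Topology Filter Set Pointwise

universe u v

set_option linter.unusedSectionVars false
set_option linter.unusedVariables false

namespace Pool.Agent.H88.KS

section
variable {X : Type u} [TopologicalSpace X] [T35Space X] {V : Type u} [AddCommGroup V] [Module ℝ V]
  [TopologicalSpace V] {i : X → V} {M : Type v} [MetricSpace M] {f : M → X} {s : X → M}

/-- D -/
lemma quotD (hV : IsFreeTVS i) (h2 : IsKSpace (sp i 2)) (hf : Continuous f)
    (hfs : ∀ x, f (s x) = x) (hs : ∀ K : Set X, IsCompact K → IsCompact (closure (s '' K)))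
    {B : Set X} (hB : IsClosed (f ⁻¹' B)) : IsClosed B := by
  apply isKSpace_X hV h2
  intro K hK
  have e : B ∩ K = f '' (f ⁻¹' B ∩ closure (s '' K)) ∩ K := by
    ext x
    constructor
    · rintro ⟨hx, hxK⟩
      refine ⟨⟨s x, ⟨?_, subset_closure ⟨x, hxK, rfl⟩⟩, hfs x⟩, hxK⟩
      simpa [hfs] using hx
    · rintro ⟨⟨m, ⟨hm, -⟩, rfl⟩, hxK⟩
      exact ⟨hm, hxK⟩
  rw [e]
  exact (((hs K hK).inter_left hB).image hf).isClosed.inter hK.isClosed

/-- G -/
lemma lemG (hV : IsFreeTVS i) (h2 : IsKSpace (sp i 2)) (hf : Continuous f)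
    (hfs : ∀ x, f (s x) = x) (hs : ∀ K : Set X, IsCompact K → IsCompact (closure (s '' K)))
    {x : ℕ → X} (hx : KFin x) (hb : FnBdd x) (B : Set X) :
    closure B ⊆ f '' closure (s '' B) := by
  have hcl : IsClosed (f '' closure (s '' B)) := by
    apply quotD hV h2 hf hfs hs
    apply IsSeqClosed.isClosed
    intro m' m hm' hlim
    have hex : ∀ n, ∃ q ∈ closure (s '' B), f q = f (m' n) := fun n => hm' n
    choose q hq hfq using hex
    by_contra hcon
    have hcon' : f m ∉ f '' closure (s '' B) := hcon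
    have hfm : Tendsto (fun n => f (q n)) atTop (𝓝 (f m)) := by
      simp_rw [hfq]
      exact (hf.tendsto m).comp hlim
    -- no subsequence of q converges
    have hno : ∀ (σ : ℕ → ℕ) (b : M), StrictMono σ → ¬ Tendsto (q ∘ σ) atTop (𝓝 b) := by
      intro σ b hσ hlimb
      apply hcon'
      refine ⟨b, ?_, ?_⟩
      · exact isClosed_closure.mem_of_tendsto hlimb (Eventually.of_forall fun n => hq _)
      · exact tendsto_nhds_unique ((hf.tendsto b).comp hlimb) (hfm.comp hσ.tendsto_atTop)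
    have hch : ∀ n l : ℕ, ∃ y ∈ B, dist (q n) (s y) < 1/((n:ℝ)+1) * (1/((l:ℝ)+1)) := by
      intro n l
      obtain ⟨_, ⟨y, hy, rfl⟩, hd⟩ := Metric.mem_closure_iff.1 (hq n) (1/((n:ℝ)+1) * (1/((l:ℝ)+1)))
        (by positivity)
      exact ⟨y, hy, hd⟩
    choose e heB hed using hch
    have hcf : ∀ K : Set X, IsCompact K → {j | ∃ l, e j l ∈ K}.Finite := by
      intro K hK
      by_contra hinf
      have hinf' : {j | ∃ l, e j l ∈ K}.Infinite := hinf
      obtain ⟨σ, hσ, hσK⟩ := Filter.extraction_of_frequently_atTop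
        (Nat.frequently_atTop_iff_infinite.2 hinf')
      choose l hl using hσK
      obtain ⟨b, hb, τ, hτ, hlimb⟩ := (hs K hK).tendsto_subseq
        (x := fun n => s (e (σ n) (l n))) (fun n => subset_closure ⟨_, hl n, rfl⟩)
      apply hno (σ ∘ τ) b (hσ.comp hτ)
      have hd0 : Tendsto (fun n => dist (q (σ (τ n))) (s (e (σ (τ n)) (l (τ n))))) atTop (𝓝 0) := by
        refine squeeze_zero (g := fun n => 1/((σ (τ n) : ℝ)+1)) (fun n => dist_nonneg) ?_ ?_
        · intro n
          refine (hed _ _).le.trans ?_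
          apply mul_le_of_le_one_right (by positivity)
          rw [div_le_one (by positivity)]
          have : (0:ℝ) ≤ (l (τ n) : ℝ) := Nat.cast_nonneg _
          linarith
        · exact (tendsto_one_div_add_atTop_nhds_zero_nat (𝕜 := ℝ)).comp
            ((hσ.comp hτ).tendsto_atTop)
      rw [tendsto_iff_dist_tendsto_zero] at hlimb ⊢
      refine squeeze_zero (g := fun n => dist (q (σ (τ n))) (s (e (σ (τ n)) (l (τ n))))
        + dist (s (e (σ (τ n)) (l (τ n)))) b) (fun n => dist_nonneg) ?_ ?_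
      · intro n
        exact dist_triangle _ _ _
      · simpa using hd0.add hlimb
    obtain ⟨m0, hm0⟩ := lemF hV h2 hx hb hcf (f m)
    apply hm0
    refine isClosed_closure.mem_of_tendsto hfm ?_
    filter_upwards [eventually_ge_atTop m0] with n hn
    -- f (q n) = lim e n l
    have hlimq : Tendsto (fun l => s (e n l)) atTop (𝓝 (q n)) := by
      rw [tendsto_iff_dist_tendsto_zero]
      refine squeeze_zero (g := fun l : ℕ => 1/((n:ℝ)+1) * (1/((l:ℝ)+1))) (fun _ => dist_nonneg)
        ?_ ?_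
      · intro l
        rw [dist_comm]
        exact (hed n l).le
      · have := (tendsto_one_div_add_atTop_nhds_zero_nat (𝕜 := ℝ)).const_mul (1/((n:ℝ)+1))
        simpa using this
    have hlimf : Tendsto (fun l => e n l) atTop (𝓝 (f (q n))) := by
      have := (hf.tendsto (q n)).comp hlimq
      simpa [Function.comp_def, hfs] using this
    exact mem_closure_of_tendsto hlimf (Eventually.of_forall fun l => ⟨n, hn, l, rfl⟩)
  apply closure_minimal _ hcl
  intro y hy
  exact ⟨s y, subset_closure ⟨y, hy, rfl⟩, hfs y⟩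

/-- H -/
lemma lemH (hV : IsFreeTVS i) (h2 : IsKSpace (sp i 2)) (hf : Continuous f)
    (hfs : ∀ x, f (s x) = x) (hs : ∀ K : Set X, IsCompact K → IsCompact (closure (s '' K)))
    {x : ℕ → X} (hx : KFin x) (hb : FnBdd x) : False := by
  classical
  have hG := lemG hV h2 hf hfs hs hx hb
  let Bd : ℕ → Set X := fun l => {y | s y ∉ Metric.thickening (1/((l:ℝ)+1)) (f ⁻¹' {x l})}
  have hxB : ∀ l, x l ∉ closure (Bd l) := by
    intro l hxl
    obtain ⟨m, hm, hfm⟩ := hG (Bd l) hxl
    have h1 : closure (s '' Bd l) ⊆ (Metric.thickening (1/((l:ℝ)+1)) (f ⁻¹' {x l}))ᶜ := by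
      apply closure_minimal _ Metric.isOpen_thickening.isClosed_compl
      rintro _ ⟨y, hy, rfl⟩
      exact hy
    apply h1 hm
    exact Metric.self_subset_thickening (by positivity) _ hfm
  have hex : ∀ l, ∃ φ : X → ℝ, Continuous φ ∧ (∀ y, 0 ≤ φ y) ∧ φ (x l) = 1 ∧
      ∀ y ∈ closure (Bd l), φ y = 0 := by
    intro l
    obtain ⟨φ, hφ, hφ0, hφ1⟩ := CompletelyRegularSpace.completely_regular (x l) (closure (Bd l))
      isClosed_closure (hxB l)
    refine ⟨fun y => 1 - (φ y : ℝ), by fun_prop, ?_, by simp [hφ0], ?_⟩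
    · intro y
      have := (φ y).2.2
      linarith
    · intro y hy
      have := hφ1 hy
      simp only [Pi.one_apply] at this
      simp [this]
  choose φ hφc hφ0 hφx hφB using hex
  -- compact-finite supports
  have hcf : ∀ K : Set X, IsCompact K → {l | ∃ y ∈ K, φ l y ≠ 0}.Finite := by
    intro K hK
    by_contra hinf
    have hinf' : {l | ∃ y ∈ K, φ l y ≠ 0}.Infinite := hinf
    obtain ⟨σ, hσ, hσK⟩ := Filter.extraction_of_frequently_atTop
        (Nat.frequently_atTop_iff_infinite.2 hinf')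
    choose y hyK hy using hσK
    have hys : ∀ n, ∃ m, f m = x (σ n) ∧ dist (s (y n)) m < 1/((σ n:ℝ)+1) := by
      intro n
      have h1 : y n ∉ closure (Bd (σ n)) := fun h => hy n (hφB _ _ h)
      have h2 : y n ∉ Bd (σ n) := fun h => h1 (subset_closure h)
      have h3 : s (y n) ∈ Metric.thickening (1/((σ n:ℝ)+1)) (f ⁻¹' {x (σ n)}) := by
        by_contra h; exact h2 h
      obtain ⟨m, hm, hd⟩ := Metric.mem_thickening_iff.1 h3
      exact ⟨m, hm, hd⟩
    choose m hm hd using hys
    obtain ⟨b, hb, τ, hτ, hlimb⟩ := (hs K hK).tendsto_subseq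
        (x := fun n => s (y n)) (fun n => subset_closure ⟨_, hyK n, rfl⟩)
    have hd0 : Tendsto (fun n => dist (m (τ n)) (s (y (τ n)))) atTop (𝓝 0) := by
      refine squeeze_zero (g := fun n => 1/((σ (τ n) : ℝ)+1)) (fun n => dist_nonneg) ?_ ?_
      · intro n
        rw [dist_comm]
        exact (hd _).le
      · exact (tendsto_one_div_add_atTop_nhds_zero_nat (𝕜 := ℝ)).comp
            ((hσ.comp hτ).tendsto_atTop)
    have hlimm : Tendsto (fun n => m (τ n)) atTop (𝓝 b) := by
      rw [tendsto_iff_dist_tendsto_zero] at hlimb ⊢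
      refine squeeze_zero (g := fun n => dist (m (τ n)) (s (y (τ n)))
        + dist (s (y (τ n))) b) (fun n => dist_nonneg) ?_ ?_
      · intro n
        exact dist_triangle _ _ _
      · simpa using hd0.add hlimb
    have hlimx : Tendsto (fun n => x (σ (τ n))) atTop (𝓝 (f b)) := by
      have := (hf.tendsto b).comp hlimm
      simpa [Function.comp_def, hm] using this
    have hc := hlimx.isCompact_insert_range
    have hfin := hx _ hc
    have hinj : Function.Injective (fun n => σ (τ n)) := (hσ.comp hτ).injective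
    have : (Set.range (fun n => σ (τ n))) ⊆ {l | x l ∈ insert (f b) (range fun n => x (σ (τ n)))} := by
      rintro _ ⟨n, rfl⟩
      exact Set.mem_insert_of_mem _ ⟨n, rfl⟩
    exact (Set.infinite_range_of_injective hinj) (hfin.subset this)
  let g : X → ℝ := fun y => ∑ l ∈ (hcf {y} isCompact_singleton).toFinset, (l:ℝ) * φ l y
  have hgK : ∀ K (hK : IsCompact K), ∀ y ∈ K, g y = ∑ l ∈ (hcf K hK).toFinset, (l:ℝ) * φ l y := by
    intro K hK y hy
    apply Finset.sum_subset
    · intro l hl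
      simp only [Set.Finite.mem_toFinset, Set.mem_ofPred_eq] at hl ⊢
      obtain ⟨y', hy', h⟩ := hl
      rw [Set.mem_singleton_iff] at hy'
      subst hy'
      exact ⟨y', hy, h⟩
    · intro l _ hl
      simp only [Set.Finite.mem_toFinset, Set.mem_ofPred_eq] at hl
      push Not at hl
      rw [hl y rfl, mul_zero]
  have hg : Continuous g := by
    rw [continuous_iff_isClosed]
    intro C hC
    apply isKSpace_X hV h2
    intro K hK
    have e : g ⁻¹' C ∩ K = (fun y => ∑ l ∈ (hcf K hK).toFinset, (l:ℝ) * φ l y) ⁻¹' C ∩ K := by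
      ext y
      simp only [Set.mem_inter_iff, Set.mem_preimage]
      constructor
      · rintro ⟨h1, h2⟩
        rw [hgK K hK y h2] at h1
        exact ⟨h1, h2⟩
      · rintro ⟨h1, h2⟩
        rw [← hgK K hK y h2] at h1
        exact ⟨h1, h2⟩
    rw [e]
    exact (hC.preimage (by fun_prop)).inter hK.isClosed
  obtain ⟨C, hC⟩ := hb g hg
  obtain ⟨n, hn⟩ := exists_nat_gt C
  have h1 : g (x n) ≤ C := hC ⟨n, rfl⟩
  have h2' : (n:ℝ) ≤ g (x n) := by
    have hmem : n ∈ (hcf {x n} isCompact_singleton).toFinset := by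
      simp [hφx]
    have := Finset.single_le_sum (f := fun l : ℕ => (l:ℝ) * φ l (x n))
      (fun l _ => mul_nonneg (Nat.cast_nonneg l) (hφ0 l _)) hmem
    simp only [hφx, mul_one] at this
    exact this
  linarith

/-- S -/
lemma lemS (hV : IsFreeTVS i) (h2 : IsKSpace (sp i 2)) (hf : Continuous f)
    (hfs : ∀ x, f (s x) = x) (hs : ∀ K : Set X, IsCompact K → IsCompact (closure (s '' K)))
    {w : ℕ → X} (hw : KFin w) (c : ℕ → ℝ) :
    ∃ φ : X → ℝ, Continuous φ ∧ (∀ y, 0 ≤ φ y) ∧ {k | c k ≤ φ (w k)}.Infinite := by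
  classical
  have hnb : ¬ FnBdd w := fun hb => lemH hV h2 hf hfs hs hw hb
  unfold FnBdd at hnb
  push Not at hnb
  obtain ⟨ψ, hψ, hψu⟩ := hnb
  have hex : ∀ n : ℕ, ∃ k, (n:ℝ) + 1 ≤ ψ (w k) := by
    intro n
    rw [not_bddAbove_iff] at hψu
    obtain ⟨_, ⟨k, rfl⟩, hk⟩ := hψu ((n:ℝ)+1)
    exact ⟨k, hk.le⟩
  choose k hk using hex
  let b : ℕ → ℝ := fun n => ∑ m ∈ Finset.range (n+1), |c (k m)|
  have hbmono : Monotone b := by
    intro m n hmn
    exact Finset.sum_le_sum_of_subset_of_nonneg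
      (Finset.range_mono (by omega)) (fun _ _ _ => abs_nonneg _)
  obtain ⟨θ, hθ⟩ := exists_continuous_forall_mem_convex_of_local_const
    (t := fun r : ℝ => {v : ℝ | b ⌊r⌋₊ ≤ v}) (fun r => convex_Ici _) (by
      intro r
      refine ⟨b ⌊r+1⌋₊, ?_⟩
      have : ∀ᶠ y in 𝓝 r, y < r + 1 := gt_mem_nhds (by linarith)
      filter_upwards [this] with y hy
      exact hbmono (Nat.floor_mono hy.le))
  have hb0 : ∀ n, 0 ≤ b n := fun n => Finset.sum_nonneg fun _ _ => abs_nonneg _
  refine ⟨fun y => θ (ψ y), by fun_prop, fun y => (hb0 _).trans (hθ _), ?_⟩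
  have hkk : ∀ n, c (k n) ≤ θ (ψ (w (k n))) := by
    intro n
    refine le_trans ?_ (hθ _)
    show c (k n) ≤ b ⌊ψ (w (k n))⌋₊
    have h1 : n ≤ ⌊ψ (w (k n))⌋₊ := by
      apply Nat.le_floor
      have := hk n
      linarith
    refine le_trans ?_ (hbmono h1)
    refine (le_abs_self _).trans ?_
    exact Finset.single_le_sum (f := fun m => |c (k m)|) (fun _ _ => abs_nonneg _)
      (Finset.mem_range.2 (Nat.lt_succ_self n))
  have hsub : Set.range k ⊆ {k | c k ≤ θ (ψ (w k))} := by
    rintro _ ⟨n, rfl⟩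
    exact hkk n
  refine Set.Infinite.mono hsub ?_
  intro hfin
  obtain ⟨C, hC⟩ := (hfin.image (fun k => ψ (w k))).bddAbove
  obtain ⟨n, hn⟩ := exists_nat_gt C
  have := hC ⟨k n, ⟨n, rfl⟩, rfl⟩
  have h3 := hk n
  simp only at this
  linarith

end

end Pool.Agent.H88.KS
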