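import Mathlib
import Pool.Agent.H88.Closure

open Cardinal Set Filter

namespace Pool.Agent.H88

/-- Bounding hypotheses on a sequence of well-orders. -/
structure Good (W : ℕ → Type) [∀ n, LinearOrder (W n)] : Prop where
  nomax : ∀ n, NoMaxOrder (W n)
  nonempty : ∀ n, Nonempty (W n)
  small : ∀ m n, m < n → ∀ s : Set (W n), #s ≤ #(W m) → BddAbove s
  cont : ∀ n, ∀ s : Set (W n), #s ≤ 𝔠 → BddAbove s
  large : 𝔠 ≤ #(Σ n, W n)

section

variable {W : ℕ → Type} [∀ n, LinearOrder (W n)]

/-- Small families are bounded. -/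
theorem Good.exists_bound (hW : Good W)
    (T : Set (∀ n, W n)) (hT : #T ≤ #(Σ n, W n)) :
    ∃ b : ∀ n, W n, ∀ h ∈ T, ∀ᶠ n in atTop, h n ≤ b n := by
  classical
  have := hW.nonempty
  obtain ⟨i⟩ : Nonempty (T ↪ Σ n, W n) := hT
  have h1 : ∀ m : ℕ, ∀ n : Fin m, ∃ c : W m, ∀ h : T, (i h).1 = n → h.1 m ≤ c := by
    intro m n
    let s : Set (W m) := {x | ∃ h : T, (i h).1 = n ∧ h.1 m = x}
    have hs : BddAbove s := by
      apply hW.small n m n.2
      let g : s → W n := fun x => (congrArg W x.2.choose_spec.1) ▸ (i x.2.choose).2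
      have hg : Function.Injective g := by
        intro x y hxy
        have hx := x.2.choose_spec
        have hy := y.2.choose_spec
        have hi : i x.2.choose = i y.2.choose := by
          apply Sigma.ext
          · rw [hx.1, hy.1]
          · have e1 : HEq (g x) (i x.2.choose).2 := by
              simp [g]
            have e2 : HEq (g y) (i y.2.choose).2 := by
              simp [g]
            rw [hxy] at e1
            exact e1.symm.trans e2
        have hi2 := i.injective hi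
        apply Subtype.ext
        rw [← hx.2, ← hy.2, hi2]
      exact Cardinal.mk_le_of_injective hg
    obtain ⟨c, hc⟩ := hs
    exact ⟨c, fun h hh => hc ⟨h, hh, rfl⟩⟩
  choose c hc using h1
  have h2 : ∀ m : ℕ, ∃ b : W m, ∀ n : Fin m, c m n ≤ b := by
    intro m
    obtain ⟨b, hb⟩ := (Set.finite_range (c m)).bddAbove
    exact ⟨b, fun n => hb ⟨n, rfl⟩⟩
  choose b hb using h2
  refine ⟨b, fun h hh => ?_⟩
  filter_upwards [eventually_gt_atTop (i ⟨h, hh⟩).1] with n hn
  exact (hc n ⟨_, hn⟩ ⟨h, hh⟩ rfl).trans (hb n _)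

/-- A strictly increasing unbounded transfinite sequence modulo finite. -/
theorem Good.exists_unbounded (hW : Good W) :
    ∃ (i0 : Ordinal.{0}) (F : Ordinal.{0} → ∀ n, W n),
      (∀ i < i0, ∀ j < i, ∀ᶠ n in atTop, F j n < F i n) ∧
      ∀ g : ∀ n, W n, ∃ j < i0, ¬ ∀ᶠ n in atTop, F j n < g n := by
  classical
  have := hW.nonempty
  let step : ∀ i : Ordinal.{0}, (∀ j : Ordinal.{0}, j < i → ∀ n, W n) → ∀ n, W n := fun i ih =>
    if h : ∃ g : ∀ n, W n, ∀ j (hj : j < i), ∀ᶠ n in atTop, ih j hj n < g n then h.choose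
    else fun n => Classical.arbitrary _
  let F : Ordinal.{0} → ∀ n, W n := (wellFounded_lt (α := Ordinal.{0})).fix step
  have hF : ∀ i, F i = step i fun j _ => F j := fun i => WellFounded.fix_eq _ _ _
  let Q : Ordinal.{0} → Prop := fun i => ∃ g : ∀ n, W n, ∀ j < i, ∀ᶠ n in atTop, F j n < g n
  have hQ : ∀ i, Q i → ∀ j < i, ∀ᶠ n in atTop, F j n < F i n := by
    intro i hi
    have h1 : F i = hi.choose := by
      rw [hF i]
      exact dif_pos hi
    rw [h1]
    exact hi.choose_spec
  have hnot : ∃ i, ¬ Q i := by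
    by_contra hcon
    push Not at hcon
    apply not_injective_of_ordinal F
    intro i j hij
    rcases lt_trichotomy i j with h | h | h
    · have h1 := hQ j (hcon j) i h
      rw [hij] at h1
      obtain ⟨n, hn⟩ := h1.exists
      exact absurd hn (lt_irrefl _)
    · exact h
    · have h1 := hQ i (hcon i) j h
      rw [hij] at h1
      obtain ⟨n, hn⟩ := h1.exists
      exact absurd hn (lt_irrefl _)
  let i0 := sInf {i | ¬ Q i}
  have hi0 : ¬ Q i0 := csInf_mem hnot
  have hlt : ∀ i < i0, Q i := by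
    intro i hi
    by_contra h
    exact absurd (csInf_le' (show i ∈ {i | ¬ Q i} from h)) (not_le.2 hi)
  refine ⟨i0, F, fun i hi => hQ i (hlt i hi), fun g => ?_⟩
  by_contra hcon
  push Not at hcon
  exact hi0 ⟨g, fun j hj => hcon j hj⟩

/-- The arities used in the second closure argument. -/
abbrev Arity2 : Bool → Type
  | false => PEmpty
  | true => ℕ

theorem card_wtype2_le : #(WType Arity2) ≤ 𝔠 := by
  apply WType.cardinalMk_le_of_le
  have h1 : ∀ a : Bool, (𝔠 : Cardinal.{0}) ^ #(Arity2 a) ≤ 𝔠 := by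
    intro a
    cases a with
    | false => simp [Arity2, Cardinal.one_le_iff_ne_zero, Cardinal.continuum_ne_zero]
    | true => simp [Arity2]
  calc (sum fun a : Bool => (𝔠 : Cardinal.{0}) ^ #(Arity2 a))
      ≤ sum fun _ : Bool => (𝔠 : Cardinal.{0}) := sum_le_sum _ _ h1
    _ = #Bool * 𝔠 := by rw [sum_const']
    _ ≤ 𝔠 := by
        have h2 : #Bool ≤ 𝔠 := Cardinal.mk_le_aleph0.trans aleph0_le_continuum
        calc #Bool * 𝔠 ≤ 𝔠 * 𝔠 := mul_le_mul' h2 le_rfl
          _ = 𝔠 := Cardinal.continuum_mul_self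

/-- There is an infinite set of coordinates on which the unbounded sequence is cofinal. -/
theorem Good.exists_cofinal [∀ n, WellFoundedLT (W n)] (hW : Good W) (i0 : Ordinal.{0})
    (F : Ordinal.{0} → ∀ n, W n)
    (hF : ∀ i < i0, ∀ j < i, ∀ᶠ n in atTop, F j n < F i n)
    (hunb : ∀ g : ∀ n, W n, ∃ j < i0, ¬ ∀ᶠ n in atTop, F j n < g n) :
    ∃ B : Set ℕ, B.Infinite ∧ ∀ g : ∀ n, W n, ∃ i < i0, ∀ᶠ n in atTop, n ∈ B → g n ≤ F i n := by
  classical
  have := hW.nonempty
  have := hW.nomax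
  let PT := ∀ n, WithTop (W n)
  let NE : PT → Prop := fun a => ∃ g : ∀ n, W n, (∀ n, (g n : WithTop (W n)) < a n) ∧
    ∀ i < i0, ¬ ∀ᶠ n in atTop, g n ≤ F i n
  let wit : PT → PT := fun a => if h : NE a then fun n => ((h.choose n : W n) : WithTop (W n))
    else fun _ => ⊤
  let op : (Σ a : Bool, Arity2 a → PT) → PT := fun x =>
    match x with
    | ⟨false, _⟩ => fun _ => ⊤
    | ⟨true, e⟩ => wit fun n => e n n
  let ev : WType Arity2 → PT := WType.elim PT op
  let M : Set PT := range ev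
  have hM : #M ≤ 𝔠 := le_trans (Cardinal.mk_range_le) card_wtype2_le
  have hMtop : (fun _ => ⊤ : PT) ∈ M := ⟨WType.mk false (fun x => x.elim), rfl⟩
  have hMwit : ∀ e : ℕ → PT, (∀ n, e n ∈ M) → wit (fun n => e n n) ∈ M := by
    intro e he
    choose w hw using he
    refine ⟨WType.mk true w, ?_⟩
    have : (fun n => ev (w n)) = e := funext hw
    change op ⟨true, fun n => ev (w n)⟩ = _
    rw [this]
  -- minimal elements above
  have hmin : ∀ (i : Ordinal.{0}) (n : ℕ), ∃ t : M, (F i n : WithTop (W n)) < t.1 n ∧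
      ∀ t' : M, (F i n : WithTop (W n)) < t'.1 n → t.1 n ≤ t'.1 n := by
    intro i n
    obtain ⟨t, ht, hmin⟩ := (InvImage.wf (fun t : M => t.1 n)
      (wellFounded_lt (α := WithTop (W n)))).has_min
      {t : M | (F i n : WithTop (W n)) < t.1 n} ⟨⟨_, hMtop⟩, WithTop.coe_lt_top _⟩
    exact ⟨t, ht, fun t' ht' => not_lt.1 (hmin t' ht')⟩
  choose c hc1 hc2 using hmin
  -- pigeonhole
  have hpig : ∃ d : ℕ → M, ∀ j < i0, ∃ i, j ≤ i ∧ i < i0 ∧ c i = d := by
    by_contra hcon
    push Not at hcon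
    choose jj hjj1 hjj2 using hcon
    have hcard : #(range fun d : ℕ → M => F (jj d)) ≤ #(Σ n, W n) := by
      refine (Cardinal.mk_range_le).trans (le_trans ?_ hW.large)
      calc #(ℕ → M) = #M ^ ℵ₀ := by simp
        _ ≤ 𝔠 ^ ℵ₀ := Cardinal.power_le_power_right hM
        _ = 𝔠 := by simp
    obtain ⟨b, hb⟩ := hW.exists_bound _ hcard
    have hb' : ∃ b' : ∀ n, W n, ∀ n, b n < b' n := by
      choose b' hb' using fun n => exists_gt (b n)
      exact ⟨b', hb'⟩
    obtain ⟨b', hb'⟩ := hb'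
    obtain ⟨j, hj, hj2⟩ := hunb b'
    apply hj2
    have h3 : j < jj (c j) := by
      by_contra hlt
      exact hjj2 (c j) j (not_lt.1 hlt) hj rfl
    filter_upwards [hF _ (hjj1 (c j)) j h3, hb _ ⟨c j, rfl⟩] with n h4 h5
    exact h4.trans_le (h5.trans (hb' n).le)
  obtain ⟨d, hd⟩ := hpig
  let a : PT := fun n => (d n).1 n
  have ha1 : ∀ i, c i = d → ∀ n, (F i n : WithTop (W n)) < a n := by
    intro i hi n
    have := hc1 i n
    rw [hi] at this
    exact this
  have ha2 : ∀ i, c i = d → ∀ n, ∀ t' : M, (F i n : WithTop (W n)) < t'.1 n → a n ≤ t'.1 n := by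
    intro i hi n t' ht'
    have := hc2 i n t' ht'
    rw [hi] at this
    exact this
  obtain ⟨j0, hj0, -⟩ := hunb (F 0)
  obtain ⟨i1, -, hi1, hci1⟩ := hd j0 hj0
  have hexact : ¬ NE a := by
    intro hNE
    have hw : wit a ∈ M := hMwit (fun n => (d n).1) (fun n => (d n).2)
    have hwa : wit a = fun n => ((hNE.choose n : W n) : WithTop (W n)) := dif_pos hNE
    rw [hwa] at hw
    have h1 := hNE.choose_spec
    obtain ⟨n, hn⟩ : ∃ n, F i1 n < hNE.choose n := by
      by_contra hcon
      push Not at hcon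
      exact h1.2 i1 hi1 (Eventually.of_forall hcon)
    have h2 := ha2 i1 hci1 n ⟨_, hw⟩ (WithTop.coe_lt_coe.2 hn)
    exact absurd (h1.1 n) (not_lt.2 h2)
  refine ⟨{n | a n = ⊤}, ?_, fun g => ?_⟩
  · intro hfin
    have hg : ∀ n, ∃ w : W n, a n ≠ ⊤ → (w : WithTop (W n)) = a n := by
      intro n
      by_cases h : a n = ⊤
      · exact ⟨Classical.arbitrary _, fun h' => absurd h h'⟩
      · exact ⟨(a n).untop h, fun _ => WithTop.coe_untop _ _⟩
    choose g hg using hg
    obtain ⟨j, hj, hj2⟩ := hunb g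
    apply hj2
    obtain ⟨i, hji, hi, hci⟩ := hd j hj
    have hev : ∀ᶠ n in atTop, a n ≠ ⊤ := by
      have : ∀ᶠ n in cofinite, n ∉ {n | a n = ⊤} := hfin.compl_mem_cofinite
      rw [Nat.cofinite_eq_atTop] at this
      exact this
    have hle : ∀ᶠ n in atTop, F j n ≤ F i n := by
      rcases hji.lt_or_eq with h | h
      · exact (hF i hi j h).mono fun n hn => hn.le
      · rw [h]; exact Eventually.of_forall fun n => le_rfl
    filter_upwards [hev, hle] with n h1 h2
    have h3 := ha1 i hci n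
    rw [← hg n h1] at h3
    exact h2.trans_lt (WithTop.coe_lt_coe.1 h3)
  · let g' : ∀ n, W n := fun n => if a n = ⊤ then g n else F i1 n
    by_contra hcon
    apply hexact
    refine ⟨g', fun n => ?_, fun i hi hev => ?_⟩
    · by_cases h : a n = ⊤
      · rw [h]; exact WithTop.coe_lt_top _
      · simp only [g', h, if_false]
        exact ha1 i1 hci1 n
    · apply hcon
      refine ⟨i, hi, ?_⟩
      filter_upwards [hev] with n hn hnB
      have h1 : a n = ⊤ := hnB
      simp only [g', h1, if_true] at hn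
      exact hn

end

end Pool.Agent.H88
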