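import Mathlib
import Pool.Agent.H88.Scale

open Cardinal Set Filter

namespace Pool.Agent.H88

/-- `v` is the immediate successor of some element. -/
def IsSc {α : Type} [LinearOrder α] (v : α) : Prop := ∃ w, ∀ x, x < v ↔ x ≤ w

theorem exists_sc {α : Type} [LinearOrder α] [WellFoundedLT α] [NoMaxOrder α] (w : α) :
    ∃ v, ∀ x, x < v ↔ x ≤ w := by
  obtain ⟨v, hv, hmin⟩ := (wellFounded_lt (α := α)).has_min {v | w < v} (exists_gt w)
  refine ⟨v, fun x => ⟨fun h => ?_, fun h => h.trans_lt hv⟩⟩
  by_contra hx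
  exact hmin x (not_le.1 hx) h

/-- A scale with successor values. -/
structure Scale (W : ℕ → Type) [∀ n, LinearOrder (W n)] where
  /-- the length -/
  i0 : Ordinal.{0}
  /-- the sequence -/
  f : Ordinal.{0} → ∀ n, W n
  incr : ∀ i < i0, ∀ j < i, ∀ᶠ n in atTop, f j n < f i n
  cof : ∀ g : ∀ n, W n, ∃ i < i0, ∀ᶠ n in atTop, g n ≤ f i n
  sc : ∀ i n, IsSc (f i n)

section

variable {W : ℕ → Type} [∀ n, LinearOrder (W n)]

theorem Good.comp (hW : Good W) {e : ℕ → ℕ} (he : StrictMono e) : Good (fun k => W (e k)) where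
  nomax := fun n => hW.nomax (e n)
  nonempty := fun n => hW.nonempty (e n)
  small := fun m n hmn => hW.small (e m) (e n) (he hmn)
  cont := fun n => hW.cont (e n)
  large := by
    -- the cardinality of `W (e 1)` exceeds the continuum
    rw [Cardinal.mk_sigma]
    refine le_trans ?_ (Cardinal.le_sum (fun k => #(W (e k))) 0)
    by_contra hlt
    rw [not_le] at hlt
    have h1 := hW.cont (e 0) univ (by rw [Cardinal.mk_univ]; exact hlt.le)
    obtain ⟨b, hb⟩ := h1
    have := hW.nomax (e 0)
    obtain ⟨c, hc⟩ := exists_gt b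
    exact absurd (hb (mem_univ c)) (not_le.2 hc)

theorem Good.exists_scale [∀ n, WellFoundedLT (W n)] (hW : Good W) :
    ∃ e : ℕ → ℕ, StrictMono e ∧ Nonempty (Scale (fun k => W (e k))) := by
  classical
  have := hW.nonempty
  have := hW.nomax
  obtain ⟨i0, F, hF, hunb⟩ := hW.exists_unbounded
  obtain ⟨B, hB, hcof⟩ := hW.exists_cofinal i0 F hF hunb
  have hBi : Infinite B := hB.to_subtype
  let e : ℕ → ℕ := fun k => (Nat.Subtype.orderIsoOfNat B k).1
  have he : StrictMono e := fun a b hab => (Nat.Subtype.orderIsoOfNat B).strictMono hab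
  have heB : ∀ k, e k ∈ B := fun k => (Nat.Subtype.orderIsoOfNat B k).2
  have htend : Tendsto e atTop atTop := he.tendsto_atTop
  refine ⟨e, he, ⟨?_⟩⟩
  choose s hs using fun (k : ℕ) (w : W (e k)) => exists_sc w
  refine ⟨i0, fun i k => s k (F i (e k)), fun i hi j hj => ?_, fun g' => ?_, fun i n => ⟨_, hs _ _⟩⟩
  · have h1 := htend.eventually (hF i hi j hj)
    filter_upwards [h1] with k hk
    have h2 : s k (F j (e k)) ≤ F i (e k) := by
      rw [← not_lt, hs]
      exact not_le.2 hk
    exact h2.trans_lt ((hs _ _ _).2 le_rfl)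
  · have hext : ∃ g : ∀ n, W n, ∀ k, g (e k) = g' k := by
      have : ∀ n, ∃ w : W n, ∀ k, ∀ h : e k = n, h ▸ g' k = w := by
        intro n
        by_cases hn : ∃ k, e k = n
        · obtain ⟨k, rfl⟩ := hn
          refine ⟨g' k, fun k' h => ?_⟩
          have hk : k' = k := he.injective h
          subst hk
          rfl
        · exact ⟨Classical.arbitrary _, fun k h => absurd ⟨k, h⟩ hn⟩
      choose g hg using this
      exact ⟨g, fun k => (hg (e k) k rfl).symm⟩
    obtain ⟨g, hg⟩ := hext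
    obtain ⟨i, hi, hgi⟩ := hcof g
    refine ⟨i, hi, ?_⟩
    filter_upwards [htend.eventually hgi] with k hk
    have h1 := hk (heB k)
    rw [hg] at h1
    exact h1.trans ((hs _ _ _).2 le_rfl).le

end

end Pool.Agent.H88
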