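import Mathlib
import Pool.Agent.H88.Scale2

open Cardinal Set Filter

namespace Pool.Agent.H88.T2

variable {W : ℕ → Type} [∀ n, LinearOrder (W n)]

/-- Boxes in the product of the sequence of ordinals with tops. -/
def Box (S T : Finset (Σ n, W n)) : Set (∀ n, WithTop (W n)) :=
  {z | (∀ p ∈ S, z p.1 < (p.2 : WithTop (W p.1))) ∧ ∀ p ∈ T, (p.2 : WithTop (W p.1)) < z p.1}

theorem box_empty (z : ∀ n, WithTop (W n)) : z ∈ Box (W := W) ∅ ∅ := by simp [Box]

theorem mem_box_union [DecidableEq (Σ n, W n)] {S T S' T' : Finset (Σ n, W n)}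
    {z : ∀ n, WithTop (W n)} : z ∈ Box (S ∪ S') (T ∪ T') ↔ z ∈ Box S T ∧ z ∈ Box S' T' := by
  constructor
  · intro h
    exact ⟨⟨fun p hp => h.1 p (Finset.mem_union_left _ hp),
      fun p hp => h.2 p (Finset.mem_union_left _ hp)⟩,
      ⟨fun p hp => h.1 p (Finset.mem_union_right _ hp),
      fun p hp => h.2 p (Finset.mem_union_right _ hp)⟩⟩
  · rintro ⟨h1, h2⟩
    refine ⟨fun p hp => ?_, fun p hp => ?_⟩
    · rcases Finset.mem_union.1 hp with h | h
      · exact h1.1 p h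
      · exact h2.1 p h
    · rcases Finset.mem_union.1 hp with h | h
      · exact h1.2 p h
      · exact h2.2 p h

/-- Eventually below the `i`-th function of the scale. -/
def Below (s : Scale W) (i : Ordinal.{0}) (z : ∀ n, WithTop (W n)) : Prop :=
  ∀ᶠ n in atTop, z n ≤ (s.f i n : WithTop (W n))

/-- The fine functions. -/
def Fine (s : Scale W) (z : ∀ n, WithTop (W n)) : Prop :=
  (∀ n, ∃ v : W n, IsSc v ∧ z n = v) ∧
    ∃ i < s.i0, ∀ᶠ n in atTop, z n = (s.f i n : WithTop (W n))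

/-- The underlying set of the space. -/
def XX (s : Scale W) : Type := {z : ∀ n, WithTop (W n) // ∃ i < s.i0, Below s i z}

variable {s : Scale W}

theorem Below.mono {i j : Ordinal.{0}} {z : ∀ n, WithTop (W n)} (h : Below s i z)
    (hij : i ≤ j) (hj : j < s.i0) : Below s j z := by
  rcases hij.lt_or_eq with h1 | h1
  · filter_upwards [h, s.incr j hj i h1] with n h2 h3
    exact h2.trans (WithTop.coe_le_coe.2 h3.le)
  · rw [← h1]; exact h

/-- The rank of a point. -/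
noncomputable def rank (x : XX s) : Ordinal.{0} := sInf {i | i < s.i0 ∧ Below s i x.1}

theorem rank_spec (x : XX s) : rank x < s.i0 ∧ Below s (rank x) x.1 := by
  obtain ⟨i, hi, hb⟩ := x.2
  exact csInf_mem (s := {i | i < s.i0 ∧ Below s i x.1}) ⟨i, hi, hb⟩

theorem rank_le {x : XX s} {i : Ordinal.{0}} (hi : i < s.i0) (h : Below s i x.1) : rank x ≤ i :=
  csInf_le' ⟨hi, h⟩

theorem rank_mono {x y : XX s} (h : x.1 ≤ y.1) : rank x ≤ rank y := by
  refine rank_le (rank_spec y).1 ?_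
  filter_upwards [(rank_spec y).2] with n hn
  exact (h n).trans hn

theorem fine_eq {x : XX s} (hx : Fine s x.1) :
    ∀ᶠ n in atTop, x.1 n = (s.f (rank x) n : WithTop (W n)) := by
  obtain ⟨-, i, hi, h⟩ := hx
  have h1 : rank x ≤ i := rank_le hi (h.mono fun n hn => hn.le)
  rcases h1.lt_or_eq with h2 | h2
  · obtain ⟨n, h3, h4, h5⟩ := ((h.and ((rank_spec x).2.and (s.incr i hi _ h2)))).exists
    rw [h3] at h4
    exact absurd (WithTop.coe_le_coe.1 h4) (not_le.2 h5)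
  · rw [h2]; exact h

/-- Openness at a fine point. -/
def FineAt (V : Set (XX s)) (x : XX s) : Prop :=
  ∃ S T : Finset (Σ n, W n), x.1 ∈ Box S T ∧
    ∀ y : XX s, Fine s y.1 → x.1 ≤ y.1 → y.1 ∈ Box S T → y ∈ V

/-- Openness at a coarse point. -/
def CoarseAt (V : Set (XX s)) (x : XX s) : Prop :=
  ∃ (S T : Finset (Σ n, W n)) (H : Finset Ordinal.{0}), x.1 ∈ Box S T ∧ (∀ i ∈ H, i < rank x) ∧
    ∀ y : XX s, y.1 ∈ Box S T → (∀ i ∈ H, i < rank y) → y ∈ V

/-- The topology. -/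
instance : TopologicalSpace (XX s) where
  IsOpen V := ∀ x ∈ V, (Fine s x.1 → FineAt V x) ∧ (¬ Fine s x.1 → CoarseAt V x)
  isOpen_univ := fun x _ => ⟨fun _ => ⟨∅, ∅, box_empty _, fun _ _ _ _ => trivial⟩,
    fun _ => ⟨∅, ∅, ∅, box_empty _, by simp, fun _ _ _ => trivial⟩⟩
  isOpen_inter := by
    classical
    intro V V' hV hV' x hx
    refine ⟨fun hf => ?_, fun hf => ?_⟩
    · obtain ⟨S, T, h1, h2⟩ := (hV x hx.1).1 hf
      obtain ⟨S', T', h1', h2'⟩ := (hV' x hx.2).1 hf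
      refine ⟨S ∪ S', T ∪ T', mem_box_union.2 ⟨h1, h1'⟩, fun y hy hle hb => ?_⟩
      exact ⟨h2 y hy hle (mem_box_union.1 hb).1, h2' y hy hle (mem_box_union.1 hb).2⟩
    · obtain ⟨S, T, H, h1, h2, h3⟩ := (hV x hx.1).2 hf
      obtain ⟨S', T', H', h1', h2', h3'⟩ := (hV' x hx.2).2 hf
      refine ⟨S ∪ S', T ∪ T', H ∪ H', mem_box_union.2 ⟨h1, h1'⟩, fun i hi => ?_, fun y hb hr => ?_⟩
      · rcases Finset.mem_union.1 hi with h | h
        · exact h2 i h
        · exact h2' i h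
      · exact ⟨h3 y (mem_box_union.1 hb).1 fun i hi => hr i (Finset.mem_union_left _ hi),
          h3' y (mem_box_union.1 hb).2 fun i hi => hr i (Finset.mem_union_right _ hi)⟩
  isOpen_sUnion := by
    intro 𝒰 h𝒰 x hx
    obtain ⟨V, hV, hxV⟩ := hx
    refine ⟨fun hf => ?_, fun hf => ?_⟩
    · obtain ⟨S, T, h1, h2⟩ := (h𝒰 V hV x hxV).1 hf
      exact ⟨S, T, h1, fun y hy hle hb => ⟨V, hV, h2 y hy hle hb⟩⟩
    · obtain ⟨S, T, H, h1, h2, h3⟩ := (h𝒰 V hV x hxV).2 hf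
      exact ⟨S, T, H, h1, h2, fun y hb hr => ⟨V, hV, h3 y hb hr⟩⟩

theorem isOpen_def {V : Set (XX s)} : IsOpen V ↔
    ∀ x ∈ V, (Fine s x.1 → FineAt V x) ∧ (¬ Fine s x.1 → CoarseAt V x) := Iff.rfl

theorem isOpen_box (S T : Finset (Σ n, W n)) : IsOpen {x : XX s | x.1 ∈ Box S T} := by
  rw [isOpen_def]
  intro x hx
  exact ⟨fun _ => ⟨S, T, hx, fun y _ _ h => h⟩, fun _ => ⟨S, T, ∅, hx, by simp, fun y h _ => h⟩⟩

theorem t2_aux [∀ n, WellFoundedLT (W n)] [∀ n, NoMaxOrder (W n)] (x y : XX s) (n : ℕ)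
    (h : x.1 n < y.1 n) :
    ∃ u v : Set (XX s), IsOpen u ∧ IsOpen v ∧ x ∈ u ∧ y ∈ v ∧ Disjoint u v := by
  obtain ⟨w, hw⟩ := WithTop.ne_top_iff_exists.1 (ne_top_of_lt h)
  obtain ⟨v, hv⟩ := exists_sc w
  refine ⟨_, _, isOpen_box {⟨n, v⟩} ∅, isOpen_box ∅ {⟨n, w⟩}, ?_, ?_, ?_⟩
  · refine ⟨fun p hp => ?_, by simp⟩
    rw [Finset.mem_singleton] at hp
    subst hp
    change x.1 n < _
    rw [← hw]
    exact WithTop.coe_lt_coe.2 ((hv w).2 le_rfl)
  · refine ⟨by simp, fun p hp => ?_⟩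
    rw [Finset.mem_singleton] at hp
    subst hp
    change _ < y.1 n
    rw [← hw] at h
    exact h
  · rw [Set.disjoint_left]
    intro z hz1 hz2
    have h1 : z.1 n < (v : WithTop (W n)) := hz1.1 ⟨n, v⟩ (Finset.mem_singleton_self _)
    have h2 : (w : WithTop (W n)) < z.1 n := hz2.2 ⟨n, w⟩ (Finset.mem_singleton_self _)
    obtain ⟨u, hu⟩ := WithTop.ne_top_iff_exists.1 (ne_top_of_lt h1)
    rw [← hu] at h1 h2
    exact absurd (WithTop.coe_lt_coe.1 h2) (not_lt.2 ((hv u).1 (WithTop.coe_lt_coe.1 h1)))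

theorem t2Space [∀ n, WellFoundedLT (W n)] [∀ n, NoMaxOrder (W n)] : T2Space (XX s) := by
  refine ⟨fun x y hxy => ?_⟩
  have : ∃ n, x.1 n ≠ y.1 n := by
    by_contra hcon
    push Not at hcon
    exact hxy (Subtype.ext (funext hcon))
  obtain ⟨n, hn⟩ := this
  rcases lt_or_gt_of_ne hn with h | h
  · exact t2_aux x y n h
  · obtain ⟨u, v, h1, h2, h3, h4, h5⟩ := t2_aux y x n h
    exact ⟨v, u, h2, h1, h4, h3, h5.symm⟩

/-- The levels. -/
def JJ (s : Scale W) (i : Ordinal.{0}) : Set (XX s) := {x | rank x ≤ i}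

theorem isClosed_JJ (i : Ordinal.{0}) : IsClosed (JJ s i) := by
  rw [← isOpen_compl_iff, isOpen_def]
  intro x hx
  have hx' : i < rank x := not_le.1 hx
  refine ⟨fun _ => ⟨∅, ∅, box_empty _, fun y _ hle _ => ?_⟩,
    fun _ => ⟨∅, ∅, {i}, box_empty _, ?_, fun y _ hr => ?_⟩⟩
  · exact not_le.2 (hx'.trans_le (rank_mono hle))
  · intro j hj
    rw [Finset.mem_singleton] at hj
    subst hj
    exact hx'
  · exact not_le.2 (hr i (Finset.mem_singleton_self _))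

/-- The basic cover. -/
def UU (s : Scale W) (n : ℕ) (a : W n) : Set (XX s) := {x | x.1 n < (a : WithTop (W n))}

theorem isOpen_UU (n : ℕ) (a : W n) : IsOpen (UU s n a) := by
  have : UU s n a = {x : XX s | x.1 ∈ Box {⟨n, a⟩} ∅} := by
    ext x
    constructor
    · intro h
      refine ⟨fun p hp => ?_, by simp⟩
      rw [Finset.mem_singleton] at hp
      subst hp
      exact h
    · intro h
      exact h.1 ⟨n, a⟩ (Finset.mem_singleton_self _)
  rw [this]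
  exact isOpen_box _ _

/-- The cone of fine points above a given one. -/
def OO (x : XX s) : Set (XX s) := {y | Fine s y.1 ∧ x.1 ≤ y.1}

theorem isOpen_OO (x : XX s) : IsOpen (OO x) := by
  rw [isOpen_def]
  intro y hy
  exact ⟨fun _ => ⟨∅, ∅, box_empty _, fun z hz hle _ => ⟨hz, hy.2.trans hle⟩⟩,
    fun h => absurd hy.1 h⟩

theorem not_weakly_lindelof [∀ n, WellFoundedLT (W n)] (hW : Good W) :
    ∃ 𝒰 : Set (Set (XX s)), (∀ U ∈ 𝒰, IsOpen U) ∧ ⋃₀ 𝒰 = Set.univ ∧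
      ∀ 𝒱 ⊆ 𝒰, 𝒱.Countable → ¬ Dense (⋃₀ 𝒱) := by
  classical
  have := hW.nomax
  have := hW.nonempty
  refine ⟨{V | ∃ n a, V = UU s n a}, ?_, ?_, ?_⟩
  · rintro _ ⟨n, a, rfl⟩
    exact isOpen_UU n a
  · rw [Set.sUnion_eq_univ_iff]
    intro x
    obtain ⟨i, hi, hb⟩ := x.2
    obtain ⟨n, hn⟩ := hb.exists
    obtain ⟨a, ha⟩ := exists_gt (s.f i n)
    exact ⟨UU s n a, ⟨n, a, rfl⟩, hn.trans_lt (WithTop.coe_lt_coe.2 ha)⟩
  · intro 𝒱 h𝒱 hcount hdense
    have h1 : ∀ V : 𝒱, ∃ n a, V.1 = UU s n a := fun V => h𝒱 V.2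
    choose N a hVa using h1
    have : Countable 𝒱 := hcount
    have h2 : ∀ n, ∃ c : W n, ∀ V : 𝒱, ∀ e : N V = n, (e ▸ a V) ≤ c := by
      intro n
      have h3 : BddAbove {x : W n | ∃ V : 𝒱, ∃ e : N V = n, e ▸ a V = x} := by
        apply hW.cont
        have h4 : {x : W n | ∃ V : 𝒱, ∃ e : N V = n, e ▸ a V = x} ⊆
            range (fun V : {V : 𝒱 // N V = n} => V.2 ▸ a V.1) := by
          rintro x ⟨V, e, rfl⟩
          exact ⟨⟨V, e⟩, rfl⟩
        exact (((countable_range _).mono h4).le_aleph0).trans aleph0_le_continuum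
      obtain ⟨c, hc⟩ := h3
      exact ⟨c, fun V e => hc ⟨V, e, rfl⟩⟩
    choose g hg using h2
    -- a fine point above `g`
    obtain ⟨i, hi, hgi⟩ := s.cof g
    choose sc hsc using fun n (w : W n) => exists_sc w
    let h : ∀ n, W n := fun n => if g n ≤ s.f i n then s.f i n else sc n (g n)
    have hgh : ∀ n, g n ≤ h n := by
      intro n
      by_cases hn : g n ≤ s.f i n
      · simp only [h, hn, if_true]
      · simp only [h, hn, if_false]
        exact ((hsc n _ _).2 le_rfl).le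
    have hev : ∀ᶠ n in atTop, h n = s.f i n := by
      filter_upwards [hgi] with n hn
      simp only [h, hn, if_true]
    have hfine : Fine s (fun n => (h n : WithTop (W n))) := by
      refine ⟨fun n => ⟨h n, ?_, rfl⟩, i, hi, hev.mono fun n hn => by simp only [hn]⟩
      by_cases hn : g n ≤ s.f i n
      · simp only [h, hn, if_true]
        exact s.sc i n
      · simp only [h, hn, if_false]
        exact ⟨_, hsc n _⟩
    let x : XX s := ⟨fun n => (h n : WithTop (W n)), i, hi, hev.mono fun n hn => by simp [hn]⟩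
    obtain ⟨y, ⟨hy1, hy2⟩, ⟨V, hV, hyV⟩⟩ := hdense.inter_open_nonempty _ (isOpen_OO x)
      ⟨x, hfine, le_rfl⟩
    have h5 := hVa ⟨V, hV⟩
    simp only at h5
    rw [h5] at hyV
    have h6 : a ⟨V, hV⟩ ≤ g (N ⟨V, hV⟩) := hg _ ⟨V, hV⟩ rfl
    have h7 : (h (N ⟨V, hV⟩) : WithTop (W (N ⟨V, hV⟩))) < a ⟨V, hV⟩ :=
      lt_of_le_of_lt (hy2 _) hyV
    exact absurd (WithTop.coe_lt_coe.1 h7) (not_lt.2 (h6.trans (hgh _)))

end Pool.Agent.H88.T2
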