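import Mathlib
import Pool.Agent.H88.T2Space
import Pool.Agent.H88.BaireScale

open Cardinal Set Filter Topology

set_option linter.style.haveILetI false

namespace Pool.Agent.H88.T2

theorem compactSpace_of_wf (Y : Type) [LinearOrder Y] [WellFoundedLT Y] [OrderTop Y]
    [TopologicalSpace Y] [OrderTopology Y] : CompactSpace Y := by
  classical
  obtain ⟨b, -, hb⟩ := (wellFounded_lt (α := Y)).has_min univ ⟨⊤, trivial⟩
  letI : OrderBot Y := { bot := b, bot_le := fun a => not_lt.1 (hb a trivial) }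
  letI := WellFoundedLT.conditionallyCompleteLinearOrderBot Y
  refine ⟨?_⟩
  have : (univ : Set Y) = Icc ⊥ ⊤ := by ext; simp
  rw [this]
  exact isCompact_Icc

variable {W : ℕ → Type} [∀ n, LinearOrder (W n)]

theorem isOpen_singleton_sc {Y : Type} [LinearOrder Y] [WellFoundedLT Y] [NoMaxOrder Y]
    [TopologicalSpace (WithTop Y)] [OrderTopology (WithTop Y)] {v : Y} (hv : IsSc v) :
    IsOpen ({(v : WithTop Y)} : Set (WithTop Y)) := by
  obtain ⟨w, hw⟩ := hv
  obtain ⟨u, hu⟩ := exists_sc v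
  have : ({(v : WithTop Y)} : Set (WithTop Y)) = Ioo (w : WithTop Y) (u : WithTop Y) := by
    ext z
    constructor
    · rintro rfl
      exact ⟨WithTop.coe_lt_coe.2 ((hw w).2 le_rfl), WithTop.coe_lt_coe.2 ((hu v).2 le_rfl)⟩
    · rintro ⟨h1, h2⟩
      obtain ⟨z, rfl⟩ := WithTop.ne_top_iff_exists.1 (ne_top_of_lt h2)
      have h3 : z ≤ v := (hu z).1 (WithTop.coe_lt_coe.1 h2)
      have h4 : v ≤ z := by
        by_contra h5
        exact absurd (WithTop.coe_lt_coe.1 h1) (not_lt.2 ((hw z).1 (not_le.1 h5)))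
      rw [le_antisymm h3 h4]
      rfl
  rw [this]
  exact isOpen_Ioo

theorem sigma_lemma [∀ n, WellFoundedLT (W n)] [∀ n, NoMaxOrder (W n)] (s : Scale W)
    (i : Ordinal.{0}) (k : ℕ) {ι : Type} (S T : ι → Finset (Σ n, W n))
    (hF : ∀ z : ∀ n, WithTop (W n), (∀ n, k ≤ n → z n ≤ (s.f i n : WithTop (W n))) →
      (∀ j, z ∉ Box (S j) (T j)) → Fine s z) :
    {z : ∀ n, WithTop (W n) | (∀ n, k ≤ n → z n ≤ (s.f i n : WithTop (W n))) ∧
      ∀ j, z ∉ Box (S j) (T j)}.Countable ∧
    ∃ c : Set ι, c.Countable ∧ ∀ z : ∀ n, WithTop (W n),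
      (∀ n, k ≤ n → z n ≤ (s.f i n : WithTop (W n))) → (∃ j, z ∈ Box (S j) (T j)) →
        ∃ j ∈ c, z ∈ Box (S j) (T j) := by
  classical
  letI : ∀ n, TopologicalSpace (WithTop (W n)) := fun n => Preorder.topology _
  haveI : ∀ n, OrderTopology (WithTop (W n)) := fun n => ⟨rfl⟩
  haveI : ∀ n, CompactSpace (WithTop (W n)) := fun n => compactSpace_of_wf _
  let K : Set (∀ n, WithTop (W n)) := {z | ∀ n, k ≤ n → z n ≤ (s.f i n : WithTop (W n))}
  have hK : IsClosed K := by
    have e : K = ⋂ n : ℕ, ⋂ _ : k ≤ n, {z | z n ≤ (s.f i n : WithTop (W n))} := by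
      ext z; simp [K]
    rw [e]
    exact isClosed_iInter fun n => isClosed_iInter fun _ =>
      isClosed_le (continuous_apply n) continuous_const
  have hbox : ∀ j, IsOpen (Box (S j) (T j)) := by
    intro j
    have e : Box (S j) (T j) = (⋂ p ∈ S j, {z | z p.1 < (p.2 : WithTop (W p.1))}) ∩
        ⋂ p ∈ T j, {z | (p.2 : WithTop (W p.1)) < z p.1} := by
      ext z; simp [Box]
    rw [e]
    exact (isOpen_biInter_finset fun p _ => isOpen_lt (continuous_apply _) continuous_const).inter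
      (isOpen_biInter_finset fun p _ => isOpen_lt continuous_const (continuous_apply _))
  let G : Set (∀ n, WithTop (W n)) := ⋃ j, Box (S j) (T j)
  have hG : IsOpen G := isOpen_iUnion hbox
  let F' : Set (∀ n, WithTop (W n)) := K \ G
  have hF'c : IsClosed F' := hK.sdiff hG
  have hF'fine : ∀ z ∈ F', Fine s z := by
    rintro z ⟨h1, h2⟩
    refine hF z h1 fun j hj => h2 (mem_iUnion.2 ⟨j, hj⟩)
  have hF'eq : {z : ∀ n, WithTop (W n) | (∀ n, k ≤ n → z n ≤ (s.f i n : WithTop (W n))) ∧
      ∀ j, z ∉ Box (S j) (T j)} = F' := by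
    ext z
    constructor
    · rintro ⟨h1, h2⟩
      exact ⟨h1, fun h => by obtain ⟨j, hj⟩ := mem_iUnion.1 h; exact h2 j hj⟩
    · rintro ⟨h1, h2⟩
      exact ⟨h1, fun j hj => h2 (mem_iUnion.2 ⟨j, hj⟩)⟩
  have hsing : ∀ z ∈ F', ∀ n, IsOpen ({z n} : Set (WithTop (W n))) := by
    intro z hz n
    obtain ⟨v, hv, hzv⟩ := (hF'fine z hz).1 n
    rw [hzv]
    exact isOpen_singleton_sc hv
  refine ⟨?_, ?_⟩
  · rw [hF'eq]
    -- coordinates are finite
    have hfin : ∀ n, ((fun z : ∀ n, WithTop (W n) => z n) '' F').Finite := by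
      intro n
      have hc : IsCompact ((fun z : ∀ n, WithTop (W n) => z n) '' F') :=
        hF'c.isCompact.image (continuous_apply n)
      obtain ⟨t, -, ht⟩ := hc.elim_nhds_subcover (fun v => {v}) (by
        rintro v ⟨z, hz, rfl⟩
        exact (hsing z hz n).mem_nhds rfl)
      refine t.finite_toSet.subset fun v hv => ?_
      obtain ⟨w, hw, hvw⟩ := mem_iUnion₂.1 (ht hv)
      rw [mem_singleton_iff.1 hvw]
      exact hw
    let E : ℕ → Type := fun n =>
      {w : W n // (w : WithTop (W n)) ∈ (fun z : ∀ n, WithTop (W n) => z n) '' F'}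
    have hEfin : ∀ n, Finite (E n) := by
      intro n
      have := (hfin n).to_subtype
      refine Finite.of_injective (β := ((fun z : ∀ n, WithTop (W n) => z n) '' F'))
        (fun w : E n => ⟨(w.1 : WithTop (W n)), w.2⟩) ?_
      intro a b hab
      have := congrArg Subtype.val hab
      exact Subtype.ext (WithTop.coe_injective this)
    letI : ∀ n, TopologicalSpace (E n) := fun n => ⊥
    haveI : ∀ n, DiscreteTopology (E n) := fun n => ⟨rfl⟩
    let φ : (∀ n, E n) → ∀ n, WithTop (W n) := fun h n => ((h n).1 : WithTop (W n))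
    have hφ : Continuous φ := continuous_pi fun n =>
      (continuous_of_discreteTopology (f := fun e : E n => (e.1 : WithTop (W n)))).comp
        (continuous_apply n)
    let H : Set (∀ n, E n) := φ ⁻¹' F'
    have hH : IsClosed H := hF'c.preimage hφ
    have hx : ∀ h ∈ H, ∃ j < s.i0, Below s j (φ h) := by
      intro h hh
      obtain ⟨-, j, hj, h1⟩ := hF'fine _ hh
      exact ⟨j, hj, h1.mono fun n hn => hn.le⟩
    let r : (∀ n, E n) → Ordinal.{0} := fun h =>
      if hh : ∃ j < s.i0, Below s j (φ h) then rank (s := s) ⟨φ h, hh⟩ else 0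
    have hr : ∀ h ∈ H, r h < s.i0 ∧ ∀ᶠ n in atTop, φ h n = (s.f (r h) n : WithTop (W n)) := by
      intro h hh
      have h1 : r h = rank (s := s) ⟨φ h, hx h hh⟩ := dif_pos (hx h hh)
      rw [h1]
      exact ⟨(rank_spec _).1, fine_eq (x := ⟨φ h, hx h hh⟩) (hF'fine _ hh)⟩
    have hcount : H.Countable := by
      apply countable_of_scale H hH r
      · intro x hx y hy hxy
        filter_upwards [(hr x hx).2, (hr y hy).2, s.incr _ (hr y hy).1 _ hxy] with n h1 h2 h3
        have h4 : φ x n < φ y n := by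
          rw [h1, h2]; exact WithTop.coe_lt_coe.2 h3
        have h5 : (x n).1 < (y n).1 := WithTop.coe_lt_coe.1 h4
        exact h5
      · intro x hx y hy hxy
        filter_upwards [(hr x hx).2, (hr y hy).2] with n h1 h2
        have h4 : φ y n = φ x n := by
          rw [h1, h2, hxy]
        exact Subtype.ext (WithTop.coe_injective h4)
    have himg : F' ⊆ φ '' H := by
      intro z hz
      have h1 : ∀ n, ∃ w : W n, (w : WithTop (W n)) = z n := by
        intro n
        obtain ⟨v, -, hv⟩ := (hF'fine z hz).1 n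
        exact ⟨v, hv.symm⟩
      choose w hw using h1
      have h2 : φ (fun n => ⟨w n, z, hz, (hw n).symm⟩) = z := funext hw
      exact ⟨fun n => ⟨w n, z, hz, (hw n).symm⟩, by change φ _ ∈ F'; rw [h2]; exact hz, h2⟩
    exact (hcount.image φ).mono himg
  · -- the countable subfamily
    have hm : ∀ m : ℕ, ∃ t : Finset ι,
        (K \ ⋃ h ∈ F', {z | ∀ n < m, z n = h n}) ⊆ ⋃ j ∈ t, Box (S j) (T j) := by
      intro m
      have ho : IsOpen (⋃ h ∈ F', {z : ∀ n, WithTop (W n) | ∀ n < m, z n = h n}) := by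
        refine isOpen_biUnion fun h hh => ?_
        have e : {z : ∀ n, WithTop (W n) | ∀ n < m, z n = h n} =
            ⋂ n ∈ Finset.range m, (fun z : ∀ n, WithTop (W n) => z n) ⁻¹' {h n} := by
          ext z; simp
        rw [e]
        exact isOpen_biInter_finset fun n _ => (hsing h hh n).preimage (continuous_apply n)
      have hc : IsCompact (K \ ⋃ h ∈ F', {z : ∀ n, WithTop (W n) | ∀ n < m, z n = h n}) :=
        (hK.sdiff ho).isCompact
      refine hc.elim_finite_subcover _ hbox ?_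
      rintro z ⟨hz1, hz2⟩
      by_contra hz3
      exact hz2 (mem_iUnion₂.2 ⟨z, ⟨hz1, hz3⟩, fun n _ => rfl⟩)
    choose t ht using hm
    refine ⟨⋃ m, (t m : Set ι), countable_iUnion fun m => (t m).countable_toSet, ?_⟩
    rintro z hz1 ⟨j, hj⟩
    by_cases h : ∃ m, z ∈ (K \ ⋃ h ∈ F', {z : ∀ n, WithTop (W n) | ∀ n < m, z n = h n})
    · obtain ⟨m, hm⟩ := h
      obtain ⟨j', hj'1, hj'2⟩ := mem_iUnion₂.1 (ht m hm)
      exact ⟨j', mem_iUnion.2 ⟨m, hj'1⟩, hj'2⟩
    · exfalso
      push Not at h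
      have h1 : ∀ m, ∃ h ∈ F', ∀ n < m, z n = h n := by
        intro m
        by_contra hcon
        push Not at hcon
        apply h m
        refine ⟨hz1, fun hmem => ?_⟩
        obtain ⟨h', hh', hh''⟩ := mem_iUnion₂.1 hmem
        obtain ⟨n, hn1, hn2⟩ := hcon h' hh'
        exact hn2 (hh'' n hn1)
      choose h' hh'1 hh'2 using h1
      have hlim : Tendsto h' atTop (𝓝 z) := by
        rw [tendsto_pi_nhds]
        intro n
        refine tendsto_const_nhds.congr' ?_
        filter_upwards [eventually_gt_atTop n] with m hm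
        exact hh'2 m n hm
      have hzF : z ∈ F' := hF'c.mem_of_tendsto hlim (Eventually.of_forall hh'1)
      exact hzF.2 (mem_iUnion.2 ⟨j, hj⟩)

end Pool.Agent.H88.T2
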