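import Mathlib
import Pool.Agent.H88.T2Lind
import Pool.Agent.H88.Final1

open Cardinal Set Filter Topology

namespace Pool.Agent.H88.T2

variable {W : ℕ → Type} [∀ n, LinearOrder (W n)]

theorem isLindelof_JJ [∀ n, WellFoundedLT (W n)] [∀ n, NoMaxOrder (W n)] (s : Scale W)
    (i : Ordinal.{0}) (hi : i < s.i0) : IsLindelof (JJ s i) := by
  classical
  induction i using WellFoundedLT.induction with
  | ind i ih =>
    apply isLindelof_of_countable_subcover
    intro ι U hU hcov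
    -- coarse points
    let C : Type := {x : XX s // x ∈ JJ s i ∧ ¬ Fine s x.1}
    have h1 : ∀ x : C, ∃ (j : ι) (S T : Finset (Σ n, W n)) (H : Finset Ordinal.{0}),
        x.1.1 ∈ Box S T ∧ (∀ i ∈ H, i < rank x.1) ∧
        ∀ y : XX s, y.1 ∈ Box S T → (∀ i ∈ H, i < rank y) → y ∈ U j := by
      intro x
      obtain ⟨j, hj⟩ := mem_iUnion.1 (hcov x.2.1)
      obtain ⟨S, T, H, h1, h2, h3⟩ := ((hU j) x.1 hj).2 x.2.2
      exact ⟨j, S, T, H, h1, h2, h3⟩
    choose j S T H hbox hH hU' using h1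
    -- every point of the compact pieces belongs to the level
    have hmem : ∀ z : ∀ n, WithTop (W n), ∀ k : ℕ,
        (∀ n, k ≤ n → z n ≤ (s.f i n : WithTop (W n))) →
        ∃ x : XX s, x.1 = z ∧ x ∈ JJ s i := by
      intro z k hz
      have hb : Below s i z := eventually_atTop.2 ⟨k, hz⟩
      exact ⟨⟨z, i, hi, hb⟩, rfl, rank_le hi hb⟩
    have hsig : ∀ k : ℕ, _ := fun k : ℕ => sigma_lemma s i k S T (by
      intro z hz1 hz2
      obtain ⟨x, hx1, hx2⟩ := hmem z k hz1
      by_contra hf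
      rw [← hx1] at hf hz2
      exact hz2 ⟨x, hx2, hf⟩ (hbox ⟨x, hx2, hf⟩))
    choose hF' c hc hc' using hsig
    let c' : Set C := ⋃ k, c k
    have hc'count : c'.Countable := countable_iUnion hc
    let Q : Set (XX s) := (⋃ x ∈ c', ⋃ h ∈ H x, JJ s h) ∪
      (⋃ k : ℕ, Subtype.val ⁻¹' {z : ∀ n, WithTop (W n) |
        (∀ n, k ≤ n → z n ≤ (s.f i n : WithTop (W n))) ∧ ∀ x, z ∉ Box (S x) (T x)})
    have hQ : IsLindelof Q := by
      apply IsLindelof.union
      · apply hc'count.isLindelof_biUnion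
        intro x _
        apply Finset.isLindelof_biUnion
        intro h hh
        have h2 : h < i := (hH x h hh).trans_le x.2.1
        exact ih h h2 (h2.trans hi)
      · apply isLindelof_iUnion
        intro k
        apply Set.Countable.isLindelof
        exact (hF' k).preimage_of_injOn Subtype.val_injective.injOn
    have hQ' : IsLindelof (Q ∩ JJ s i) := hQ.inter_right (isClosed_JJ i)
    obtain ⟨r, hr, hrc⟩ := hQ'.elim_countable_subcover U hU (inter_subset_right.trans hcov)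
    refine ⟨r ∪ j '' c', hr.union (hc'count.image j), ?_⟩
    intro x hx
    by_cases hxQ : x ∈ Q
    · have h2 := hrc ⟨hxQ, hx⟩
      rw [mem_iUnion₂] at h2 ⊢
      obtain ⟨j', hj', hxj⟩ := h2
      exact ⟨j', Or.inl hj', hxj⟩
    · have hb : Below s i x.1 := (rank_spec x).2.mono hx hi
      obtain ⟨k, hk⟩ := eventually_atTop.1 hb
      have h2 : ∃ y, x.1 ∈ Box (S y) (T y) := by
        by_contra hcon
        push Not at hcon
        exact hxQ (Or.inr (mem_iUnion.2 ⟨k, hk, hcon⟩))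
      obtain ⟨y, hy1, hy2⟩ := hc' k x.1 hk h2
      rw [mem_iUnion₂]
      have hyc : y ∈ c' := mem_iUnion.2 ⟨k, hy1⟩
      refine ⟨j y, Or.inr ⟨y, hyc, rfl⟩, hU' y x hy2 fun h hh => ?_⟩
      by_contra hlt
      apply hxQ
      exact Or.inl (mem_iUnion₂.2 ⟨y, hyc, mem_iUnion₂.2 ⟨h, hh, not_lt.1 hlt⟩⟩)

/-- What discreteness gives at a point. -/
def Sep {s : Scale W} (D : Set (XX s)) (q : Finset (Σ n, W n) × Finset (Σ n, W n))
    (d : XX s) : Prop :=
  d.1 ∈ Box q.1 q.2 ∧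
    ((Fine s d.1 ∧ ∀ y ∈ D, Fine s y.1 → d.1 ≤ y.1 → y.1 ∈ Box q.1 q.2 → y = d) ∨
    (¬ Fine s d.1 ∧ ∃ H : Finset Ordinal.{0}, (∀ i ∈ H, i < rank d) ∧
      ∀ y ∈ D, y.1 ∈ Box q.1 q.2 → (∀ i ∈ H, i < rank y) → y = d))

theorem exists_sep {s : Scale W} (D : Set (XX s)) (hD : IsDiscrete D) (d : XX s) (hd : d ∈ D) :
    ∃ q, Sep D q d := by
  obtain ⟨V, hV, hVD⟩ := isOpen_inter_eq_singleton_of_mem_discrete hD hd
  have hdV : d ∈ V := by
    have : d ∈ V ∩ D := by rw [hVD]; rfl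
    exact this.1
  have key : ∀ y ∈ V, y ∈ D → y = d := by
    intro y h1 h2
    have : y ∈ V ∩ D := ⟨h1, h2⟩
    rw [hVD] at this
    exact this
  by_cases hf : Fine s d.1
  · obtain ⟨S, T, h1, h2⟩ := (hV d hdV).1 hf
    exact ⟨(S, T), h1, Or.inl ⟨hf, fun y hy h3 h4 h5 => key y (h2 y h3 h4 h5) hy⟩⟩
  · obtain ⟨S, T, H, h1, h2, h3⟩ := (hV d hdV).2 hf
    exact ⟨(S, T), h1, Or.inr ⟨hf, H, h2, fun y hy h4 h5 => key y (h3 y h4 h5) hy⟩⟩

theorem card_discrete_le [∀ n, WellFoundedLT (W n)] (hc : 𝔠 ≤ #(Σ n, W n)) {s : Scale W}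
    (D : Set (XX s)) (hD : IsDiscrete D) : #D ≤ #(Σ n, W n) := by
  classical
  choose S hS using exists_sep D hD
  have hinf : Infinite (Σ n, W n) := by
    rw [Cardinal.infinite_iff]
    exact aleph0_le_continuum.trans hc
  let F : D → Finset (Σ n, W n) × Finset (Σ n, W n) := fun d => S d.1 d.2
  have hfib : ∀ q, #(F ⁻¹' {q}) ≤ 𝔠 := by
    intro q
    -- fine part
    let D1 : Set (∀ n, W n) := {h | ∃ x : XX s, x.1 = (fun n => (h n : WithTop (W n))) ∧
      Fine s x.1 ∧ ∃ hx : x ∈ D, S x hx = q}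
    have hD1 : #D1 ≤ 𝔠 := by
      by_contra hlt
      rw [not_le] at hlt
      obtain ⟨m, ⟨x, hx1, hx2, hx3, hx4⟩, hinf⟩ := exists_infinite_above D1 hlt
      have h1 := hS x hx3
      rw [hx4] at h1
      obtain ⟨hm1, hm2⟩ := h1
      rcases hm2 with ⟨-, hm3⟩ | ⟨hne, _⟩
      · apply hinf
        apply (Set.finite_singleton m).subset
        rintro h ⟨⟨y, hy1, hy2, hy3, hy4⟩, hle⟩
        have h2 := (hS y hy3).1
        rw [hy4] at h2
        have h3 : y = x := hm3 y hy3 hy2 (by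
          rw [hx1, hy1]
          exact fun n => WithTop.coe_le_coe.2 (hle n)) h2
        rw [mem_singleton_iff]
        funext n
        have h4 : (h n : WithTop (W n)) = m n := by
          rw [h3, hx1] at hy1
          exact (congrFun hy1 n).symm
        exact WithTop.coe_injective h4
      · exact hne hx2
    -- coarse part
    let D2 : Set (XX s) := {x | ¬ Fine s x.1 ∧ ∃ hx : x ∈ D, S x hx = q}
    have hD2 : D2.Subsingleton ∨ D2.Finite := by
      left
      intro x hx y hy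
      -- compare ranks
      have key : ∀ x ∈ D2, ∀ y ∈ D2, rank x ≤ rank y → y = x := by
        rintro x ⟨hx1, hx2, hx3⟩ y ⟨hy1, hy2, hy3⟩ hxy
        have h1 := hS x hx2
        rw [hx3] at h1
        obtain ⟨-, h2⟩ := h1
        rcases h2 with ⟨h0, _⟩ | ⟨_, H, hH, hE⟩
        · exact absurd h0 hx1
        · have h3 := (hS y hy2).1
          rw [hy3] at h3
          exact hE y hy2 h3 fun i hi => (hH i hi).trans_le hxy
      rcases le_total (rank x) (rank y) with h | h
      · exact (key x hx y hy h).symm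
      · exact key y hy x hx h
    have hD2' : D2.Finite := hD2.elim (fun h => h.finite) id
    have hsub : (Subtype.val '' (F ⁻¹' {q})) ⊆
        ({x | x ∈ D ∧ ∃ h ∈ D1, x.1 = (fun n => (h n : WithTop (W n)))} ∪ D2) := by
      rintro x ⟨⟨x, hx⟩, hxs, rfl⟩
      by_cases hf : Fine s x.1
      · left
        have h1 : ∀ n, ∃ w : W n, (w : WithTop (W n)) = x.1 n := by
          intro n
          obtain ⟨v, -, hv⟩ := hf.1 n
          exact ⟨v, hv.symm⟩
        choose w hw using h1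
        exact ⟨hx, w, ⟨x, (funext hw).symm, hf, hx, hxs⟩, (funext hw).symm⟩
      · exact Or.inr ⟨hf, hx, hxs⟩
    have hD1' : #{x : XX s | x ∈ D ∧ ∃ h ∈ D1, x.1 = (fun n => (h n : WithTop (W n)))} ≤ 𝔠 := by
      refine le_trans ?_ hD1
      refine Cardinal.mk_le_of_injective (f := fun x => (⟨x.2.2.choose, x.2.2.choose_spec.1⟩ : D1)) ?_
      intro x y hxy
      have h1 := x.2.2.choose_spec.2
      have h2 := y.2.2.choose_spec.2
      have h3 : x.2.2.choose = y.2.2.choose := congrArg Subtype.val hxy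
      rw [h3] at h1
      exact Subtype.ext (Subtype.ext (h1.trans h2.symm))
    calc #(F ⁻¹' {q}) = #(Subtype.val '' (F ⁻¹' {q})) :=
          (Cardinal.mk_image_eq Subtype.val_injective).symm
      _ ≤ #({x | x ∈ D ∧ ∃ h ∈ D1, x.1 = (fun n => (h n : WithTop (W n)))} ∪ D2 : Set (XX s)) :=
          Cardinal.mk_le_mk_of_subset hsub
      _ ≤ #{x : XX s | x ∈ D ∧ ∃ h ∈ D1, x.1 = (fun n => (h n : WithTop (W n)))} + #D2 :=
          Cardinal.mk_union_le _ _
      _ ≤ 𝔠 + 𝔠 := add_le_add hD1' ((hD2'.lt_aleph0).le.trans aleph0_le_continuum)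
      _ = 𝔠 := by simp
  have hfs : #(Finset (Σ n, W n) × Finset (Σ n, W n)) = #(Σ n, W n) := by
    rw [Cardinal.mk_prod, Cardinal.lift_id, Cardinal.mk_finset_of_infinite]
    exact Cardinal.mul_eq_self (Cardinal.infinite_iff.1 hinf)
  calc #D ≤ #(Finset (Σ n, W n) × Finset (Σ n, W n)) * 𝔠 :=
        Cardinal.mk_le_mk_mul_of_mk_preimage_le F hfib
    _ = #(Σ n, W n) * 𝔠 := by rw [hfs]
    _ ≤ #(Σ n, W n) * #(Σ n, W n) := mul_le_mul' le_rfl hc
    _ = #(Σ n, W n) := Cardinal.mul_eq_self (Cardinal.infinite_iff.1 hinf)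

theorem closure_lindelof [∀ n, WellFoundedLT (W n)] (hW : Good W) {s : Scale W}
    (D : Set (XX s)) (hD : IsDiscrete D) : IsLindelof (closure D) := by
  classical
  have := hW.nomax
  have hcard := card_discrete_le hW.large D hD
  -- bound the functions indexed by the ranks
  obtain ⟨b, hb⟩ := hW.exists_bound (range fun x : D => s.f (rank x.1))
    (Cardinal.mk_range_le.trans hcard)
  obtain ⟨i, hi, hbi⟩ := s.cof b
  have hsub : D ⊆ JJ s i := by
    intro x hx
    refine rank_le hi ?_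
    filter_upwards [(rank_spec x).2, hb _ ⟨⟨x, hx⟩, rfl⟩, hbi] with n h1 h2 h3
    exact h1.trans (WithTop.coe_le_coe.2 (h2.trans h3))
  exact (isLindelof_JJ s i hi).of_isClosed_subset isClosed_closure
    (closure_minimal hsub (isClosed_JJ i))

theorem good_WW : Good WW where
  nomax := fun n => inferInstance
  nonempty := fun n => inferInstance
  small := by
    intro m n hmn s hs
    apply bdd_WW
    rw [mk_WW] at hs
    exact hs.trans_lt (kap_strictMono hmn)
  cont := by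
    intro n s hs
    apply bdd_WW
    exact hs.trans_lt (continuum_lt_kap n)
  large := by
    rw [Cardinal.mk_sigma]
    calc 𝔠 ≤ #(WW 0) := by rw [mk_WW]; exact (continuum_lt_kap 0).le
      _ ≤ _ := Cardinal.le_sum (fun n => #(WW n)) 0

theorem main2 : ∃ (X : Type) (_ : TopologicalSpace X), T2Space X ∧
    (∀ D : Set X, IsDiscrete D → IsLindelof (closure D)) ∧
    ∃ 𝒰 : Set (Set X), (∀ U ∈ 𝒰, IsOpen U) ∧ ⋃₀ 𝒰 = Set.univ ∧
      ∀ 𝒱 ⊆ 𝒰, 𝒱.Countable → ¬ Dense (⋃₀ 𝒱) := by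
  obtain ⟨e, he, ⟨s⟩⟩ := good_WW.exists_scale
  have hW := good_WW.comp he
  have := hW.nomax
  exact ⟨XX s, inferInstance, t2Space, fun D hD => closure_lindelof hW D hD,
    not_weakly_lindelof hW⟩

end Pool.Agent.H88.T2
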